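import Pool.Agent.Q112.KT.Rand2

/-!
# Almost all Cayley graphs
-/

set_option autoImplicit false

namespace Pool.Agent.Q112.KT

open Finset Filter

theorem evA (L : ℝ) : ∃ k0 : ℕ, ∀ k : ℕ, k0 ≤ k → 1 ≤ k ∧
    L + 2 * k * (k + 1) + 1 ≤ (2 : ℝ) ^ k / (4 * k ^ 2) := by
  have h := tendsto_pow_const_div_const_pow_of_one_lt 4 (one_lt_two : (1 : ℝ) < 2)
  have h1 : ∀ᶠ n : ℕ in atTop, (n : ℝ) ^ 4 / 2 ^ n < 1 / 40 :=
    (tendsto_order.1 h).2 _ (by norm_num)
  obtain ⟨k1, hk1⟩ := eventually_atTop.1 h1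
  refine ⟨max (max k1 1) ⌈L⌉₊, ?_⟩
  intro k hk
  have hk1' : k1 ≤ k := (le_max_left _ _).trans ((le_max_left _ _).trans hk)
  have hk2 : 1 ≤ k := (le_max_right _ _).trans ((le_max_left _ _).trans hk)
  have hk3 : ⌈L⌉₊ ≤ k := (le_max_right _ _).trans hk
  have hk2' : (1 : ℝ) ≤ k := by exact_mod_cast hk2
  have hk3' : L ≤ k := (Nat.le_ceil L).trans (by exact_mod_cast hk3)
  refine ⟨hk2, ?_⟩
  have h2 := hk1 k hk1'
  rw [div_lt_iff₀ (by positivity)] at h2
  rw [le_div_iff₀ (by positivity)]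
  have h3 : L + 2 * (k : ℝ) * (k + 1) + 1 ≤ 10 * k ^ 2 := by nlinarith
  calc (L + 2 * (k : ℝ) * (k + 1) + 1) * (4 * k ^ 2) ≤ (10 * k ^ 2) * (4 * k ^ 2) :=
        mul_le_mul_of_nonneg_right h3 (by positivity)
    _ = 40 * k ^ 4 := by ring
    _ ≤ 2 ^ k := by linarith

theorem evB (D : ℝ) (hD : 0 < D) : ∃ k0 : ℕ, ∀ k : ℕ, k0 ≤ k →
    1 + Real.log k ≤ D * Real.sqrt k := by
  have h := (isLittleO_log_rpow_atTop (by norm_num : (0 : ℝ) < 1 / 2)).bound
    (by positivity : (0 : ℝ) < D / 2)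
  have h' := tendsto_natCast_atTop_atTop.eventually h
  obtain ⟨k1, hk1⟩ := eventually_atTop.1 h'
  refine ⟨max (max k1 1) ⌈(2 / D) ^ 2⌉₊, ?_⟩
  intro k hk
  have hk1' : k1 ≤ k := (le_max_left _ _).trans ((le_max_left _ _).trans hk)
  have hk2 : 1 ≤ k := (le_max_right _ _).trans ((le_max_left _ _).trans hk)
  have hk3 : ⌈(2 / D) ^ 2⌉₊ ≤ k := (le_max_right _ _).trans hk
  have hk3' : (2 / D) ^ 2 ≤ (k : ℝ) := (Nat.le_ceil _).trans (by exact_mod_cast hk3)
  have h1 := hk1 k hk1'
  rw [Real.norm_eq_abs, Real.norm_eq_abs, ← Real.sqrt_eq_rpow,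
    abs_of_nonneg (Real.sqrt_nonneg _)] at h1
  have h2 := le_trans (le_abs_self _) h1
  have h3 : 2 / D ≤ Real.sqrt k := Real.le_sqrt_of_sq_le hk3'
  rw [div_le_iff₀ hD] at h3
  linarith

theorem evC (ε : ℝ) (hε : 0 < ε) : ∃ k0 : ℕ, ∀ k : ℕ, k0 ≤ k → (4 / 5 : ℝ) ^ k ≤ ε := by
  obtain ⟨k0, h⟩ := exists_pow_lt_of_lt_one hε (by norm_num : (4 / 5 : ℝ) < 1)
  refine ⟨k0, fun k hk => le_trans ?_ h.le⟩
  exact pow_le_pow_of_le_one (by norm_num) (by norm_num) hk

theorem evD (D : ℝ) : ∃ k0 : ℕ, ∀ k : ℕ, k0 ≤ k → D ≤ (2 : ℝ) ^ k := by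
  obtain ⟨k0, h⟩ := pow_unbounded_of_one_lt D (one_lt_two : (1 : ℝ) < 2)
  exact ⟨k0, fun k hk => h.le.trans (pow_le_pow_right₀ (by norm_num) hk)⟩

/-- **Almost all Cayley graphs** have clique minors much larger than their chromatic number. -/
theorem almost_all (K : ℕ) (ε : ℝ) (hε : 0 < ε) : ∃ n0 : ℕ, ∀ (Γ : Type) [Group Γ] [Fintype Γ],
    n0 ≤ Fintype.card Γ → ∀ 𝓑 : Finset (Finset Γ),
    (∀ S, S ∈ 𝓑 ↔ S ∈ symSets Γ ∧ ¬ ∀ k : ℕ,
      ¬ (SimpleGraph.mulCayley (S : Set Γ)).Colorable k →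
      HasMinor (SimpleGraph.mulCayley (S : Set Γ)) (K * (k + 1))) →
    (𝓑.card : ℝ) ≤ ε * (symSets Γ).card := by
  classical
  obtain ⟨c, hc, n1, hdense⟩ := dense_minor (1 / 64) (by norm_num)
  obtain ⟨kA, hA⟩ := evA (Real.log (2 / ε))
  obtain ⟨kB, hB⟩ := evB (c / (4 * (K + 1))) (by positivity)
  obtain ⟨kC, hC⟩ := evC (ε / 2) (by positivity)
  obtain ⟨kD, hDD⟩ := evD (8 * (K + 1) / c)
  set k0 : ℕ := kA + kB + kC + kD + 2 with hk0
  refine ⟨max n1 (4 ^ k0), ?_⟩
  intro Γ _ _ hn 𝓑 h𝓑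
  set n : ℕ := Fintype.card Γ with hnd
  have hn1 : n1 ≤ n := (le_max_left _ _).trans hn
  have hn2 : 4 ^ k0 ≤ n := (le_max_right _ _).trans hn
  have hn0 : n ≠ 0 := by
    have : 0 < 4 ^ k0 := by positivity
    omega
  set k : ℕ := Nat.log 4 n with hk
  have hk0k : k0 ≤ k := by
    rw [hk]
    exact (Nat.le_log_iff_pow_le (by norm_num) hn0).2 hn2
  have hkA := hA k (by omega)
  have hkB := hB k (by omega)
  have hkC := hC k (by omega)
  have hkD := hDD k (by omega)
  obtain ⟨hk1, hkA⟩ := hkA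
  have hk2 : 2 ≤ k := by omega
  have hlow : 4 ^ k ≤ n := Nat.pow_log_le_self 4 hn0
  have hupp : n < 4 ^ (k + 1) := Nat.lt_pow_succ_log_self (by norm_num) n
  have hk1R : (1 : ℝ) ≤ k := by exact_mod_cast hk1
  have hnR0 : (0 : ℝ) < n := by exact_mod_cast Nat.pos_of_ne_zero hn0
  have hlowR : (4 : ℝ) ^ k ≤ n := by exact_mod_cast hlow
  have huppR : (n : ℝ) ≤ 4 ^ (k + 1) := by exact_mod_cast hupp.le
  -- `4 * (k + 1) ≤ 4 ^ k`
  have hk4 : 4 * (k + 1) ≤ 4 ^ k := by
    have h : ∀ j : ℕ, 2 ≤ j → 4 * (j + 1) ≤ 4 ^ j := by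
      intro j hj
      induction j, hj using Nat.le_induction with
      | base => norm_num
      | succ j hj ih =>
        rw [pow_succ]
        omega
    exact h k hk2
  -- the first bad event
  set M : ℕ := n / (4 * k ^ 2) with hM
  have hM1 : M * (4 * k ^ 2) ≤ n := Nat.div_mul_le_self _ _
  have hM2 : k + M * (2 * k ^ 2) ≤ n := by
    have e : M * (4 * k ^ 2) = 2 * (M * (2 * k ^ 2)) := by ring
    rw [e] at hM1
    omega
  have hbad1 := extend_count (Γ := Γ) k M hk1 hM2
  have hnum1 : (n : ℝ) ^ k * (1 - (1 / 2) ^ k) ^ M ≤ ε / 2 := by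
    have h1 : (n : ℝ) / (4 * k ^ 2) ≤ M + 1 := by
      rw [div_le_iff₀ (by positivity)]
      have h2 : n < (M + 1) * (4 * k ^ 2) := by
        have h3 : n < 4 * k ^ 2 * (n / (4 * k ^ 2) + 1) :=
          Nat.lt_mul_div_succ n (by positivity)
        calc n < 4 * k ^ 2 * (n / (4 * k ^ 2) + 1) := h3
          _ = (M + 1) * (4 * k ^ 2) := by rw [hM]; ring
      exact_mod_cast h2.le
    have h2k : (0 : ℝ) < 2 ^ k := by positivity
    have h44 : (4 : ℝ) ^ k = 2 ^ k * 2 ^ k := by
      rw [← mul_pow]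
      norm_num
    have h3 : (2 : ℝ) ^ k / (4 * k ^ 2) - 1 ≤ (1 / 2) ^ k * M := by
      have h4 : (4 : ℝ) ^ k / (4 * k ^ 2) ≤ M + 1 :=
        le_trans (div_le_div_of_nonneg_right hlowR (by positivity)) h1
      have h5 : (1 / 2 : ℝ) ^ k * ((4 : ℝ) ^ k / (4 * k ^ 2)) ≤ (1 / 2) ^ k * (M + 1) :=
        mul_le_mul_of_nonneg_left h4 (by positivity)
      have h6 : (1 / 2 : ℝ) ^ k * ((4 : ℝ) ^ k / (4 * k ^ 2)) = 2 ^ k / (4 * k ^ 2) := by
        rw [h44, one_div, inv_pow]
        field_simp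
      have h7 : (1 / 2 : ℝ) ^ k ≤ 1 := pow_le_one₀ (by norm_num) (by norm_num)
      rw [h6] at h5
      linarith
    have h8 : (0 : ℝ) ≤ 1 - (1 / 2) ^ k := by
      have h7 : (1 / 2 : ℝ) ^ k ≤ 1 := pow_le_one₀ (by norm_num) (by norm_num)
      linarith
    have h9 : (1 - (1 / 2 : ℝ) ^ k) ^ M ≤ Real.exp (1 - 2 ^ k / (4 * k ^ 2)) := by
      calc (1 - (1 / 2 : ℝ) ^ k) ^ M ≤ (Real.exp (-(1 / 2) ^ k)) ^ M := by
            apply pow_le_pow_left₀ h8
            have := Real.add_one_le_exp (-(1 / 2 : ℝ) ^ k)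
            linarith
        _ = Real.exp (-((1 / 2) ^ k * M)) := by
            rw [← Real.exp_nat_mul]
            congr 1
            ring
        _ ≤ Real.exp (1 - 2 ^ k / (4 * k ^ 2)) := by
            apply Real.exp_le_exp.2
            linarith
    have hl4 : Real.log 4 ≤ 2 := by
      have : Real.log 4 ≤ Real.log (Real.exp 2) := by
        apply Real.log_le_log (by norm_num)
        have := Real.add_one_le_exp (2 : ℝ)
        have h2 : Real.exp 2 = Real.exp 1 * Real.exp 1 := by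
          rw [← Real.exp_add]
          norm_num
        have h3 := Real.exp_one_gt_d9
        rw [h2]
        nlinarith
      rwa [Real.log_exp] at this
    have h10 : (n : ℝ) ^ k ≤ Real.exp (2 * k * (k + 1)) := by
      calc (n : ℝ) ^ k ≤ ((4 : ℝ) ^ (k + 1)) ^ k := pow_le_pow_left₀ hnR0.le huppR k
        _ = (Real.exp (Real.log 4)) ^ ((k + 1) * k) := by
            rw [Real.exp_log (by norm_num), ← pow_mul]
        _ = Real.exp (((k + 1) * k : ℕ) * Real.log 4) := by rw [← Real.exp_nat_mul]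
        _ ≤ Real.exp (2 * k * (k + 1)) := by
            apply Real.exp_le_exp.2
            push_cast
            have : 0 ≤ ((k : ℝ) + 1) * k := by positivity
            nlinarith
    calc (n : ℝ) ^ k * (1 - (1 / 2) ^ k) ^ M
        ≤ Real.exp (2 * k * (k + 1)) * Real.exp (1 - 2 ^ k / (4 * k ^ 2)) :=
          mul_le_mul h10 h9 (pow_nonneg h8 _) (Real.exp_pos _).le
      _ = Real.exp (2 * k * (k + 1) + (1 - 2 ^ k / (4 * k ^ 2))) := by rw [← Real.exp_add]
      _ ≤ Real.exp (-Real.log (2 / ε)) := by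
          apply Real.exp_le_exp.2
          linarith
      _ = ε / 2 := by
          rw [Real.exp_neg, Real.exp_log (by positivity), inv_div]
  -- the second bad event
  set w : ℕ := n / 4 with hw
  have hw1 : 2 * w + 1 ≤ n := by omega
  have hw2 : k ≤ w := by omega
  have hbad2 := small_count (Γ := Γ) w hw1
  have hnum2 : (4 / 5 : ℝ) ^ w ≤ ε / 2 :=
    le_trans (pow_le_pow_of_le_one (by norm_num) (by norm_num) hw2) hkC
  -- cover
  have hcov : 𝓑 ⊆ ((symSets Γ).filter (fun S => ∃ f : Fin k → Γ, ∀ v, (∀ i, v ≠ f i) →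
      ∃ i, v⁻¹ * f i ∈ S)) ∪ ((symSets Γ).filter (fun S => 8 * S.card < w)) := by
    intro S hS𝓑
    rw [h𝓑] at hS𝓑
    obtain ⟨hSs, hSbad⟩ := hS𝓑
    rw [mem_union, mem_filter, mem_filter]
    by_contra hno
    rw [not_or, not_and, not_and] at hno
    have hno1 := hno.1 hSs
    have hno2 := hno.2 hSs
    push Not at hno1
    have hSym : IsSym S := (mem_symSets S).1 hSs
    obtain ⟨I, hI1, hI2⟩ := exists_indep S hSym k (fun f => hno1 f) k hk1 le_rfl
    apply hSbad
    intro k' hk'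
    have hIind : ∀ x ∈ I, ∀ y ∈ I, ¬ (SimpleGraph.mulCayley (S : Set Γ)).Adj x y := by
      intro x hx y hy
      rw [cay_adj S hSym]
      exact hI2 x hx y hy
    have hIne : I.Nonempty := Finset.card_pos.1 (by omega)
    have hk'2 : (k' : ℝ) < (n : ℝ) / k * (1 + Real.log k) + 1 := by
      by_contra hge
      rw [not_lt] at hge
      apply hk'
      apply transitive_colorable _ (cay_trans S hSym) I hIind hIne
      rw [hI1]
      exact hge
    apply hdense Γ _ hn1
    · intro v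
      rw [cay_deg S hSym]
      have h1 : w ≤ 8 * S.card := by omega
      have h2 : n ≤ 64 * S.card := by
        have h3 : 16 ≤ n := by
          have : 4 ^ 2 ≤ 4 ^ k := Nat.pow_le_pow_right (by norm_num) hk2
          omega
        omega
      have h2' : (n : ℝ) ≤ 64 * S.card := by exact_mod_cast h2
      linarith
    · push_cast
      have hlogn : Real.log n ≤ 4 * k := by
        calc Real.log n ≤ Real.log (4 ^ (k + 1)) := Real.log_le_log hnR0 huppR
          _ = (k + 1) * Real.log 4 := by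
              rw [Real.log_pow]
              push_cast
              ring
          _ ≤ (k + 1) * 2 := by
              apply mul_le_mul_of_nonneg_left _ (by positivity)
              have : Real.log 4 ≤ Real.log (Real.exp 2) := by
                apply Real.log_le_log (by norm_num)
                have h2 : Real.exp 2 = Real.exp 1 * Real.exp 1 := by
                  rw [← Real.exp_add]
                  norm_num
                have h3 := Real.exp_one_gt_d9
                rw [h2]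
                nlinarith
              rwa [Real.log_exp] at this
          _ ≤ 4 * k := by linarith
      have hlogn0 : 0 < Real.log n := by
        apply Real.log_pos
        have : (4 : ℝ) ≤ 4 ^ k := by
          calc (4 : ℝ) = 4 ^ 1 := by norm_num
            _ ≤ 4 ^ k := pow_le_pow_right₀ (by norm_num) hk1
        linarith
      have hsq : Real.sqrt (Real.log n) ≤ 2 * Real.sqrt k := by
        have h1 : Real.sqrt (Real.log n) ≤ Real.sqrt (4 * k) := Real.sqrt_le_sqrt hlogn
        have h2 : Real.sqrt (4 * k) = 2 * Real.sqrt k := by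
          rw [Real.sqrt_mul (by norm_num)]
          congr 1
          rw [show (4 : ℝ) = 2 ^ 2 by norm_num]
          exact Real.sqrt_sq (by norm_num)
        linarith
      have hsq0 : 0 < Real.sqrt (Real.log n) := Real.sqrt_pos.2 hlogn0
      have hsk0 : 0 < Real.sqrt k := Real.sqrt_pos.2 (by linarith)
      have hsksq : Real.sqrt k * Real.sqrt k = k := Real.mul_self_sqrt (by linarith)
      have hsk1 : Real.sqrt k ≤ 2 ^ k := by
        have h1 : Real.sqrt k ≤ k := by
          have h2 : 1 ≤ Real.sqrt k := by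
            rw [Real.one_le_sqrt]
            exact hk1R
          nlinarith
        have h3 : (k : ℝ) ≤ 2 ^ k := by exact_mod_cast (Nat.lt_two_pow_self).le
        linarith
      have h44 : (4 : ℝ) ^ k = 2 ^ k * 2 ^ k := by
        rw [← mul_pow]
        norm_num
      have hK0 : (0 : ℝ) ≤ K := Nat.cast_nonneg K
      -- the two halves
      have hp1 : (K + 1 : ℝ) * ((n : ℝ) / k * (1 + Real.log k)) ≤ c * n / (4 * Real.sqrt k) := by
        calc (K + 1 : ℝ) * ((n : ℝ) / k * (1 + Real.log k))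
            ≤ (K + 1 : ℝ) * ((n : ℝ) / k * (c / (4 * (K + 1)) * Real.sqrt k)) := by
              apply mul_le_mul_of_nonneg_left _ (by positivity)
              exact mul_le_mul_of_nonneg_left hkB (by positivity)
          _ = c * n / (4 * Real.sqrt k) * (Real.sqrt k * Real.sqrt k / k) := by
              field_simp
          _ = c * n / (4 * Real.sqrt k) := by
              rw [hsksq, div_self (by linarith), mul_one]
      have hp2 : (K + 1 : ℝ) * 2 ≤ c * n / (4 * Real.sqrt k) := by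
        rw [le_div_iff₀ (by positivity)]
        rw [div_le_iff₀ hc] at hkD
        calc (K + 1 : ℝ) * 2 * (4 * Real.sqrt k) = 8 * (K + 1) * Real.sqrt k := by ring
          _ ≤ (2 ^ k * c) * 2 ^ k := mul_le_mul hkD hsk1 hsk0.le (by positivity)
          _ = c * 4 ^ k := by rw [h44]; ring
          _ ≤ c * n := mul_le_mul_of_nonneg_left hlowR hc.le
      have hp3 : c * n / (2 * Real.sqrt k) ≤ c * n / Real.sqrt (Real.log n) :=
        div_le_div_of_nonneg_left (by positivity) hsq0 hsq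
      have hp4 : c * n / (4 * Real.sqrt k) + c * n / (4 * Real.sqrt k) =
          c * n / (2 * Real.sqrt k) := by
        field_simp
        ring
      have hp5 : (K : ℝ) * (k' + 1) ≤
          (K + 1 : ℝ) * ((n : ℝ) / k * (1 + Real.log k)) + (K + 1 : ℝ) * 2 := by
        have h1 : (K : ℝ) * (k' + 1) ≤ (K + 1 : ℝ) * (k' + 1) := by
          apply mul_le_mul_of_nonneg_right _ (by positivity)
          linarith
        have h2 : (K + 1 : ℝ) * (k' + 1) ≤
            (K + 1 : ℝ) * ((n : ℝ) / k * (1 + Real.log k) + 2) := by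
          apply mul_le_mul_of_nonneg_left _ (by positivity)
          linarith
        linarith
      linarith
  have hcard : (𝓑.card : ℝ) ≤ ((symSets Γ).filter (fun S => ∃ f : Fin k → Γ, ∀ v,
      (∀ i, v ≠ f i) → ∃ i, v⁻¹ * f i ∈ S)).card +
      ((symSets Γ).filter (fun S => 8 * S.card < w)).card := by
    have h1 := (Finset.card_le_card hcov).trans (Finset.card_union_le _ _)
    exact_mod_cast h1
  have hs0 : (0 : ℝ) ≤ (symSets Γ).card := Nat.cast_nonneg _
  have h1 := mul_le_mul_of_nonneg_right hnum1 hs0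
  have h2 := mul_le_mul_of_nonneg_right hnum2 hs0
  linarith

end Pool.Agent.Q112.KT
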