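import Pool.Agent.Q112.KT.Robust

/-!
# Clique minors in robustly connected dense graphs
-/

set_option autoImplicit false

namespace Pool.Agent.Q112.KT

open Finset

open Classical in
/-- the vertices of `U` without neighbours in `B` -/
noncomputable def Zs {V : Type} (G : SimpleGraph V) (U B : Finset V) : Finset V :=
  U.filter (fun x => ∀ b ∈ B, ¬ G.Adj x b)

theorem mem_Zs {V : Type} (G : SimpleGraph V) (U B : Finset V) (x : V) :
    x ∈ Zs G U B ↔ x ∈ U ∧ ∀ b ∈ B, ¬ G.Adj x b := by
  unfold Zs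
  simp only [Finset.mem_filter]

/-- a system of `j` blocks -/
structure Sys {V : Type} (G : SimpleGraph V) (U : Finset V) (M : ℕ) (z : ℝ) (j : ℕ)
    (B : Fin j → Finset V) : Prop where
  sub : ∀ i, B i ⊆ U
  conn : ∀ i, (G.induce (B i : Set V)).Connected
  disj : ∀ i i', i ≠ i' → Disjoint (B i) (B i')
  adj : ∀ i i', i ≠ i' → ∃ u ∈ B i, ∃ v ∈ B i', G.Adj u v
  size : ∀ i, (B i).card ≤ M
  few : ∀ i, ((Zs G U (B i)).card : ℝ) ≤ z

open Classical in
theorem pick {V : Type} [Fintype V] (G : SimpleGraph V) (U R : Finset V) (s j : ℕ)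
    (Z : Fin j → Finset V) (z : ℝ) (hz : 0 < z)
    (hnum : ∑ i, ((R ∩ Z i).card : ℝ) ^ s +
      (∑ y ∈ U, ((R.filter (fun x => ¬ G.Adj y x)).card : ℝ) ^ s) / z < (R.card : ℝ) ^ s) :
    ∃ f : Fin s → V, (∀ a, f a ∈ R) ∧ (∀ i, ∃ a, f a ∉ Z i) ∧
      ((Zs G U (univ.image f)).card : ℝ) ≤ z := by
  by_contra hcon
  push Not at hcon
  set P : Finset (Fin s → V) := Fintype.piFinset (fun _ => R) with hP
  have hPc : P.card = R.card ^ s := Fintype.card_piFinset_const R s
  set b1 : Fin j → Finset (Fin s → V) := fun i => Fintype.piFinset (fun _ => R ∩ Z i) with hb1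
  have hb1c : ∀ i, (b1 i).card = (R ∩ Z i).card ^ s := fun i => Fintype.card_piFinset_const _ s
  set b2 : Finset (Fin s → V) := P.filter (fun f => z < ((Zs G U (univ.image f)).card : ℝ))
    with hb2
  have hsub : P ⊆ univ.biUnion b1 ∪ b2 := by
    intro f hf
    rw [Finset.mem_union]
    have hfR : ∀ a, f a ∈ R := Fintype.mem_piFinset.1 hf
    by_cases h : ∀ i, ∃ a, f a ∉ Z i
    · right
      exact Finset.mem_filter.2 ⟨hf, hcon f hfR h⟩
    · left
      push Not at h
      obtain ⟨i, hi⟩ := h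
      rw [Finset.mem_biUnion]
      refine ⟨i, Finset.mem_univ _, Fintype.mem_piFinset.2 fun a => ?_⟩
      exact Finset.mem_inter.2 ⟨hfR a, hi a⟩
  have hcount : z * (b2.card : ℝ) ≤
      ∑ y ∈ U, ((R.filter (fun x => ¬ G.Adj y x)).card : ℝ) ^ s := by
    have h1 := Finset.sum_card_bipartiteAbove_eq_sum_card_bipartiteBelow (s := P)
      (t := U) (fun f y => ∀ b ∈ univ.image f, ¬ G.Adj y b)
    unfold Finset.bipartiteAbove Finset.bipartiteBelow at h1
    have h2 : ∀ y ∈ U, (P.filter (fun f => ∀ b ∈ univ.image f, ¬ G.Adj y b)).card =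
        (R.filter (fun x => ¬ G.Adj y x)).card ^ s := by
      intro y _
      rw [← Fintype.card_piFinset_const (R.filter (fun x => ¬ G.Adj y x)) s]
      congr 1
      ext f
      rw [Finset.mem_filter, hP, Fintype.mem_piFinset, Fintype.mem_piFinset]
      constructor
      · rintro ⟨h3, h4⟩ a
        exact Finset.mem_filter.2 ⟨h3 a, h4 _ (Finset.mem_image.2 ⟨a, Finset.mem_univ _, rfl⟩)⟩
      · intro h3
        refine ⟨fun a => (Finset.mem_filter.1 (h3 a)).1, ?_⟩
        intro b hb
        obtain ⟨a, _, rfl⟩ := Finset.mem_image.1 hb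
        exact (Finset.mem_filter.1 (h3 a)).2
    have h3 : ∀ f ∈ P, (U.filter (fun y => ∀ b ∈ univ.image f, ¬ G.Adj y b)).card =
        (Zs G U (univ.image f)).card := by
      intro f _
      unfold Zs
      congr
    rw [Finset.sum_congr rfl h2, Finset.sum_congr rfl h3] at h1
    calc z * (b2.card : ℝ) = ∑ f ∈ b2, z := by
          rw [Finset.sum_const, nsmul_eq_mul, mul_comm]
      _ ≤ ∑ f ∈ b2, ((Zs G U (univ.image f)).card : ℝ) :=
          Finset.sum_le_sum fun f hf => (Finset.mem_filter.1 hf).2.le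
      _ ≤ ∑ f ∈ P, ((Zs G U (univ.image f)).card : ℝ) :=
          Finset.sum_le_sum_of_subset_of_nonneg (Finset.filter_subset _ _)
            fun f _ _ => Nat.cast_nonneg _
      _ = ∑ y ∈ U, ((R.filter (fun x => ¬ G.Adj y x)).card : ℝ) ^ s := by
          have h4 : (((∑ f ∈ P, (Zs G U (univ.image f)).card : ℕ)) : ℝ) =
              ((∑ y ∈ U, (R.filter (fun x => ¬ G.Adj y x)).card ^ s : ℕ) : ℝ) := by
            exact_mod_cast h1
          push_cast at h4
          exact h4
  have h1 : (P.card : ℝ) ≤ ∑ i, ((b1 i).card : ℝ) + b2.card := by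
    have h2 : P.card ≤ ∑ i, (b1 i).card + b2.card :=
      (Finset.card_le_card hsub).trans ((Finset.card_union_le _ _).trans
        (Nat.add_le_add_right Finset.card_biUnion_le _))
    exact_mod_cast h2
  have h2 : ∀ i, ((b1 i).card : ℝ) = ((R ∩ Z i).card : ℝ) ^ s := by
    intro i
    rw [hb1c]
    push_cast
    rfl
  rw [Finset.sum_congr rfl (fun i _ => h2 i), hPc] at h1
  push_cast at h1
  have h3 : (b2.card : ℝ) ≤
      (∑ y ∈ U, ((R.filter (fun x => ¬ G.Adj y x)).card : ℝ) ^ s) / z := by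
    rw [le_div_iff₀ hz]
    linarith
  linarith

open Classical in
theorem zs_mono {V : Type} (G : SimpleGraph V) (U : Finset V) {B B' : Finset V} (h : B ⊆ B') :
    Zs G U B' ⊆ Zs G U B := by
  intro x hx
  unfold Zs at hx ⊢
  obtain ⟨h1, h2⟩ := Finset.mem_filter.1 hx
  exact Finset.mem_filter.2 ⟨h1, fun b hb => h2 b (h hb)⟩

open Classical in
/-- one more block -/
theorem step {V : Type} [Fintype V] (G : SimpleGraph V) (U : Finset V) (K s ℓ q j : ℕ)
    (hrob : Robust G U K) (hdeg : ∀ v ∈ U, q + K ≤ dg G U v) (hq : 0 < q)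
    (hs : 1 ≤ s) (hℓ : 3 * Fintype.card V < ℓ * q) (hj : j * (s * ℓ) ≤ K)
    (hjn : j ≤ Fintype.card V)
    (hnum : 8 * (Fintype.card V : ℝ) *
      (4 * (Fintype.card V : ℝ) * (1 - (q : ℝ) / Fintype.card V) ^ s) ^ s ≤ (q : ℝ) ^ s)
    (hpos : (q : ℝ) < Fintype.card V)
    (B : Fin j → Finset V) (hB : Sys G U (s * ℓ)
      (4 * (Fintype.card V : ℝ) * (1 - (q : ℝ) / Fintype.card V) ^ s) j B) :
    ∃ B' : Fin (j + 1) → Finset V, Sys G U (s * ℓ)
      (4 * (Fintype.card V : ℝ) * (1 - (q : ℝ) / Fintype.card V) ^ s) (j + 1) B' := by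
  set n : ℝ := (Fintype.card V : ℝ) with hn
  set z : ℝ := 4 * n * (1 - (q : ℝ) / n) ^ s with hzd
  have hq0 : (0 : ℝ) < q := by exact_mod_cast hq
  have hn0 : 0 < n := hq0.trans hpos
  have hfrac : 0 < 1 - (q : ℝ) / n := by
    rw [sub_pos, div_lt_one hn0]
    exact hpos
  have hz : 0 < z := by positivity
  -- the remaining vertices
  set W : Finset V := univ.biUnion B with hW
  have hWU : W ⊆ U := by
    intro x hx
    obtain ⟨i, _, hi⟩ := Finset.mem_biUnion.1 hx
    exact hB.sub i hi
  have hWc : W.card ≤ K := by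
    calc W.card ≤ ∑ i : Fin j, (B i).card := Finset.card_biUnion_le
      _ ≤ ∑ i : Fin j, s * ℓ := Finset.sum_le_sum fun i _ => hB.size i
      _ = j * (s * ℓ) := by rw [Finset.sum_const, Finset.card_univ, Fintype.card_fin, smul_eq_mul]
      _ ≤ K := hj
  set R : Finset V := U \ W with hR
  have hRU : R ⊆ U := Finset.sdiff_subset
  have hRc : (G.induce (R : Set V)).Connected := hrob W hWU hWc
  have hRne : R.Nonempty := by
    obtain ⟨x⟩ := hRc.nonempty
    exact ⟨x.1, x.2⟩
  have hdR : ∀ v ∈ U, q ≤ dg G R v := by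
    intro v hv
    have h1 : dg G U v ≤ dg G R v + W.card := by
      unfold dg
      refine le_trans (Finset.card_le_card (t := R.filter (fun w => G.Adj v w) ∪ W) ?_)
        (Finset.card_union_le _ _)
      intro w hw
      obtain ⟨h2, h3⟩ := Finset.mem_filter.1 hw
      rw [Finset.mem_union]
      by_cases h4 : w ∈ W
      · exact Or.inr h4
      · exact Or.inl (Finset.mem_filter.2 ⟨Finset.mem_sdiff.2 ⟨h2, h4⟩, h3⟩)
    have h2 := hdeg v hv
    omega
  have hRq : (q : ℝ) ≤ R.card := by
    obtain ⟨r, hr⟩ := hRne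
    have h1 := hdR r (hRU hr)
    have h2 : dg G R r ≤ R.card := by
      unfold dg
      exact Finset.card_le_card (Finset.filter_subset _ _)
    exact_mod_cast h1.trans h2
  have hR0 : (0 : ℝ) < R.card := lt_of_lt_of_le hq0 hRq
  have hRn : (R.card : ℝ) ≤ n := by
    rw [hn]
    exact_mod_cast Finset.card_le_univ R
  -- choose the points
  obtain ⟨f, hf1, hf2, hf3⟩ := pick G U R s j (fun i => Zs G U (B i)) z hz (by
    have h1 : ∑ i : Fin j, ((R ∩ Zs G U (B i)).card : ℝ) ^ s ≤ (R.card : ℝ) ^ s / 8 := by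
      calc ∑ i : Fin j, ((R ∩ Zs G U (B i)).card : ℝ) ^ s ≤ ∑ i : Fin j, z ^ s := by
            apply Finset.sum_le_sum
            intro i _
            apply pow_le_pow_left₀ (Nat.cast_nonneg _)
            refine le_trans ?_ (hB.few i)
            exact_mod_cast Finset.card_le_card Finset.inter_subset_right
        _ = (j : ℝ) * z ^ s := by
            rw [Finset.sum_const, Finset.card_univ, Fintype.card_fin, nsmul_eq_mul]
        _ ≤ n * z ^ s := by
            apply mul_le_mul_of_nonneg_right _ (by positivity)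
            rw [hn]
            exact_mod_cast hjn
        _ ≤ (q : ℝ) ^ s / 8 := by linarith
        _ ≤ (R.card : ℝ) ^ s / 8 := by
            have := pow_le_pow_left₀ hq0.le hRq s
            linarith
    have h2 : (∑ y ∈ U, ((R.filter (fun x => ¬ G.Adj y x)).card : ℝ) ^ s) / z ≤
        (R.card : ℝ) ^ s / 4 := by
      rw [div_le_iff₀ hz]
      calc ∑ y ∈ U, ((R.filter (fun x => ¬ G.Adj y x)).card : ℝ) ^ s
          ≤ ∑ y ∈ U, ((R.card : ℝ) * (1 - (q : ℝ) / n)) ^ s := by
            apply Finset.sum_le_sum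
            intro y hy
            apply pow_le_pow_left₀ (Nat.cast_nonneg _)
            have h3 : dg G R y + (R.filter (fun x => ¬ G.Adj y x)).card = R.card := by
              unfold dg
              exact Finset.card_filter_add_card_filter_not (s := R) (fun x => G.Adj y x)
            have h3' : (dg G R y : ℝ) + ((R.filter (fun x => ¬ G.Adj y x)).card : ℝ) =
                R.card := by exact_mod_cast h3
            have h4 : (q : ℝ) ≤ dg G R y := by exact_mod_cast hdR y hy
            have h5 : (R.card : ℝ) * ((q : ℝ) / n) ≤ q := by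
              calc (R.card : ℝ) * ((q : ℝ) / n) ≤ n * ((q : ℝ) / n) :=
                    mul_le_mul_of_nonneg_right hRn (by positivity)
                _ = q := by field_simp
            nlinarith
        _ = (U.card : ℝ) * ((R.card : ℝ) * (1 - (q : ℝ) / n)) ^ s := by
            rw [Finset.sum_const, nsmul_eq_mul]
        _ ≤ n * ((R.card : ℝ) * (1 - (q : ℝ) / n)) ^ s := by
            apply mul_le_mul_of_nonneg_right _ (by positivity)
            rw [hn]
            exact_mod_cast Finset.card_le_univ U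
        _ = (R.card : ℝ) ^ s / 4 * z := by
            rw [hzd, mul_pow]
            ring
    have h3 : 0 < (R.card : ℝ) ^ s := by positivity
    linarith)
  -- connect them
  let a0 : Fin s := ⟨0, by omega⟩
  have hP : ∀ a : Fin s, ∃ P : Finset V, P ⊆ R ∧ f a0 ∈ P ∧ f a ∈ P ∧
      (G.induce (P : Set V)).Connected ∧ P.card ≤ ℓ := by
    intro a
    obtain ⟨P, h1, h2, h3, h4, h5⟩ := small_connected G R hRc q
      (fun v hv => hdR v (hRU hv)) (f a0) (f a) (hf1 a0) (hf1 a)
    refine ⟨P, h1, h2, h3, h4, ?_⟩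
    by_contra hcon
    push Not at hcon
    have h6 : ℓ * q ≤ (P.card - 1) * q := Nat.mul_le_mul_right _ (by omega)
    have h7 : R.card ≤ Fintype.card V := Finset.card_le_univ R
    omega
  choose P hPR hP0 hPa hPc hPs using hP
  set Q : Finset V := univ.biUnion P with hQ
  have hQR : Q ⊆ R := by
    intro x hx
    obtain ⟨a, _, ha⟩ := Finset.mem_biUnion.1 hx
    exact hPR a ha
  have hfQ : univ.image f ⊆ Q := by
    intro x hx
    obtain ⟨a, _, rfl⟩ := Finset.mem_image.1 hx
    exact Finset.mem_biUnion.2 ⟨a, Finset.mem_univ _, hPa a⟩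
  have hQc : (G.induce (Q : Set V)).Connected := by
    have h1 : (Q : Set V) = ⋃₀ (Set.range (fun a => (P a : Set V))) := by
      ext x
      simp [hQ]
    rw [h1]
    apply SimpleGraph.induce_sUnion_connected_of_pairwise_not_disjoint
    · exact ⟨_, a0, rfl⟩
    · rintro _ _ ⟨a, rfl⟩ ⟨b, rfl⟩
      exact ⟨f a0, hP0 a, hP0 b⟩
    · rintro _ ⟨a, rfl⟩
      exact hPc a
  have hQs : Q.card ≤ s * ℓ := by
    calc Q.card ≤ ∑ a : Fin s, (P a).card := Finset.card_biUnion_le
      _ ≤ ∑ a : Fin s, ℓ := Finset.sum_le_sum fun a _ => hPs a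
      _ = s * ℓ := by rw [Finset.sum_const, Finset.card_univ, Fintype.card_fin, smul_eq_mul]
  have hQfew : ((Zs G U Q).card : ℝ) ≤ z := by
    refine le_trans ?_ hf3
    exact_mod_cast Finset.card_le_card (zs_mono G U hfQ)
  have hQdisj : ∀ i, Disjoint (B i) Q := by
    intro i
    rw [Finset.disjoint_left]
    intro x hx hxQ
    have := (Finset.mem_sdiff.1 (hQR hxQ)).2
    exact this (Finset.mem_biUnion.2 ⟨i, Finset.mem_univ _, hx⟩)
  have hQadj : ∀ i, ∃ u ∈ B i, ∃ v ∈ Q, G.Adj u v := by
    intro i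
    obtain ⟨a, ha⟩ := hf2 i
    rw [mem_Zs, not_and_or] at ha
    rcases ha with ha | ha
    · exact absurd (hRU (hf1 a)) ha
    · push Not at ha
      obtain ⟨b, hb, hab⟩ := ha
      exact ⟨b, hb, f a, hfQ (Finset.mem_image.2 ⟨a, Finset.mem_univ _, rfl⟩), hab.symm⟩
  refine ⟨Fin.snoc B Q, ?_, ?_, ?_, ?_, ?_, ?_⟩
  · intro i
    refine Fin.lastCases ?_ (fun i => ?_) i
    · rw [Fin.snoc_last]
      exact hQR.trans hRU
    · rw [Fin.snoc_castSucc]
      exact hB.sub i
  · intro i
    refine Fin.lastCases ?_ (fun i => ?_) i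
    · rw [Fin.snoc_last]
      exact hQc
    · rw [Fin.snoc_castSucc]
      exact hB.conn i
  · intro i i'
    refine Fin.lastCases ?_ (fun i => ?_) i
    · refine Fin.lastCases ?_ (fun i' => ?_) i'
      · intro h
        exact absurd rfl h
      · intro _
        rw [Fin.snoc_last, Fin.snoc_castSucc]
        exact (hQdisj i').symm
    · refine Fin.lastCases ?_ (fun i' => ?_) i'
      · intro _
        rw [Fin.snoc_last, Fin.snoc_castSucc]
        exact hQdisj i
      · intro h
        rw [Fin.snoc_castSucc, Fin.snoc_castSucc]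
        exact hB.disj i i' (fun h' => h (by rw [h']))
  · intro i i'
    refine Fin.lastCases ?_ (fun i => ?_) i
    · refine Fin.lastCases ?_ (fun i' => ?_) i'
      · intro h
        exact absurd rfl h
      · intro _
        rw [Fin.snoc_last, Fin.snoc_castSucc]
        obtain ⟨u, hu, v, hv, huv⟩ := hQadj i'
        exact ⟨v, hv, u, hu, huv.symm⟩
    · refine Fin.lastCases ?_ (fun i' => ?_) i'
      · intro _
        rw [Fin.snoc_last, Fin.snoc_castSucc]
        exact hQadj i
      · intro h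
        rw [Fin.snoc_castSucc, Fin.snoc_castSucc]
        exact hB.adj i i' (fun h' => h (by rw [h']))
  · intro i
    refine Fin.lastCases ?_ (fun i => ?_) i
    · rw [Fin.snoc_last]
      exact hQs
    · rw [Fin.snoc_castSucc]
      exact hB.size i
  · intro i
    refine Fin.lastCases ?_ (fun i => ?_) i
    · rw [Fin.snoc_last]
      exact hQfew
    · rw [Fin.snoc_castSucc]
      exact hB.few i

/-- many blocks -/
theorem blocks {V : Type} [Fintype V] (G : SimpleGraph V) (U : Finset V) (K s ℓ q t : ℕ)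
    (hrob : Robust G U K) (hdeg : ∀ v ∈ U, q + K ≤ dg G U v) (hq : 0 < q)
    (hs : 1 ≤ s) (hℓ : 3 * Fintype.card V < ℓ * q) (ht : t * (s * ℓ) ≤ K)
    (htn : t ≤ Fintype.card V)
    (hnum : 8 * (Fintype.card V : ℝ) *
      (4 * (Fintype.card V : ℝ) * (1 - (q : ℝ) / Fintype.card V) ^ s) ^ s ≤ (q : ℝ) ^ s)
    (hpos : (q : ℝ) < Fintype.card V) :
    ∃ B : Fin t → Finset V, Sys G U (s * ℓ)
      (4 * (Fintype.card V : ℝ) * (1 - (q : ℝ) / Fintype.card V) ^ s) t B := by
  have key : ∀ j ≤ t, ∃ B : Fin j → Finset V, Sys G U (s * ℓ)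
      (4 * (Fintype.card V : ℝ) * (1 - (q : ℝ) / Fintype.card V) ^ s) j B := by
    intro j
    induction j with
    | zero =>
      intro _
      exact ⟨fun i => i.elim0, fun i => i.elim0, fun i => i.elim0, fun i => i.elim0,
        fun i => i.elim0, fun i => i.elim0, fun i => i.elim0⟩
    | succ j ih =>
      intro hj
      obtain ⟨B, hB⟩ := ih (by omega)
      refine step G U K s ℓ q j hrob hdeg hq hs hℓ ?_ (by omega) hnum hpos B hB
      exact (Nat.mul_le_mul_right _ (by omega)).trans ht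
  exact key t le_rfl

end Pool.Agent.Q112.KT
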