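import Pool.Agent.Q112.KT.Dense

/-!
# Clique minors in robustly connected graphs of any density
-/

set_option autoImplicit false

namespace Pool.Agent.Q112.KT

open Finset

open Classical in
/-- one more block -/
theorem stepR {V : Type} [Fintype V] (G : SimpleGraph V) (U : Finset V) (K s ℓ q j : ℕ)
    (ρ : ℝ) (hρ : 0 < ρ) (hrob : Robust G U K) (hdeg : ∀ v ∈ U, q + K ≤ dg G U v) (hq : 0 < q)
    (hfewn : ∀ R ⊆ U, U.card ≤ R.card + K → ∀ v ∈ U,
      ((R.filter (fun x => ¬ G.Adj v x)).card : ℝ) ≤ R.card * ρ)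
    (hs : 1 ≤ s) (hℓ : 3 * Fintype.card V < ℓ * q) (hj : j * (s * ℓ) ≤ K)
    (hjn : j ≤ Fintype.card V)
    (hnum : 8 * (Fintype.card V : ℝ) *
      (4 * (Fintype.card V : ℝ) * ρ ^ s) ^ s ≤ (q : ℝ) ^ s)
    (hpos : (q : ℝ) < Fintype.card V)
    (B : Fin j → Finset V) (hB : Sys G U (s * ℓ)
      (4 * (Fintype.card V : ℝ) * ρ ^ s) j B) :
    ∃ B' : Fin (j + 1) → Finset V, Sys G U (s * ℓ)
      (4 * (Fintype.card V : ℝ) * ρ ^ s) (j + 1) B' := by
  set n : ℝ := (Fintype.card V : ℝ) with hn
  set z : ℝ := 4 * n * ρ ^ s with hzd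
  have hq0 : (0 : ℝ) < q := by exact_mod_cast hq
  have hn0 : 0 < n := hq0.trans hpos
  have hz : 0 < z := by positivity
  -- the remaining vertices
  set W : Finset V := univ.biUnion B with hW
  have hWU : W ⊆ U := by
    intro x hx
    obtain ⟨i, _, hi⟩ := Finset.mem_biUnion.1 hx
    exact hB.sub i hi
  have hWc : W.card ≤ K := by
    calc W.card ≤ ∑ i : Fin j, (B i).card := Finset.card_biUnion_le
      _ ≤ ∑ i : Fin j, s * ℓ := Finset.sum_le_sum fun i _ => hB.size i
      _ = j * (s * ℓ) := by rw [Finset.sum_const, Finset.card_univ, Fintype.card_fin, smul_eq_mul]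
      _ ≤ K := hj
  set R : Finset V := U \ W with hR
  have hRU : R ⊆ U := Finset.sdiff_subset
  have hRc : (G.induce (R : Set V)).Connected := hrob W hWU hWc
  have hRW : U.card ≤ R.card + K := by
    have h1 : R.card = U.card - W.card := Finset.card_sdiff_of_subset hWU
    omega
  have hRne : R.Nonempty := by
    obtain ⟨x⟩ := hRc.nonempty
    exact ⟨x.1, x.2⟩
  have hdR : ∀ v ∈ U, q ≤ dg G R v := by
    intro v hv
    have h1 : dg G U v ≤ dg G R v + W.card := by
      unfold dg
      refine le_trans (Finset.card_le_card (t := R.filter (fun w => G.Adj v w) ∪ W) ?_)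
        (Finset.card_union_le _ _)
      intro w hw
      obtain ⟨h2, h3⟩ := Finset.mem_filter.1 hw
      rw [Finset.mem_union]
      by_cases h4 : w ∈ W
      · exact Or.inr h4
      · exact Or.inl (Finset.mem_filter.2 ⟨Finset.mem_sdiff.2 ⟨h2, h4⟩, h3⟩)
    have h2 := hdeg v hv
    omega
  have hRq : (q : ℝ) ≤ R.card := by
    obtain ⟨r, hr⟩ := hRne
    have h1 := hdR r (hRU hr)
    have h2 : dg G R r ≤ R.card := by
      unfold dg
      exact Finset.card_le_card (Finset.filter_subset _ _)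
    exact_mod_cast h1.trans h2
  have hR0 : (0 : ℝ) < R.card := lt_of_lt_of_le hq0 hRq
  have hRn : (R.card : ℝ) ≤ n := by
    rw [hn]
    exact_mod_cast Finset.card_le_univ R
  -- choose the points
  obtain ⟨f, hf1, hf2, hf3⟩ := pick G U R s j (fun i => Zs G U (B i)) z hz (by
    have h1 : ∑ i : Fin j, ((R ∩ Zs G U (B i)).card : ℝ) ^ s ≤ (R.card : ℝ) ^ s / 8 := by
      calc ∑ i : Fin j, ((R ∩ Zs G U (B i)).card : ℝ) ^ s ≤ ∑ i : Fin j, z ^ s := by
            apply Finset.sum_le_sum
            intro i _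
            apply pow_le_pow_left₀ (Nat.cast_nonneg _)
            refine le_trans ?_ (hB.few i)
            exact_mod_cast Finset.card_le_card Finset.inter_subset_right
        _ = (j : ℝ) * z ^ s := by
            rw [Finset.sum_const, Finset.card_univ, Fintype.card_fin, nsmul_eq_mul]
        _ ≤ n * z ^ s := by
            apply mul_le_mul_of_nonneg_right _ (by positivity)
            rw [hn]
            exact_mod_cast hjn
        _ ≤ (q : ℝ) ^ s / 8 := by linarith
        _ ≤ (R.card : ℝ) ^ s / 8 := by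
            have := pow_le_pow_left₀ hq0.le hRq s
            linarith
    have h2 : (∑ y ∈ U, ((R.filter (fun x => ¬ G.Adj y x)).card : ℝ) ^ s) / z ≤
        (R.card : ℝ) ^ s / 4 := by
      rw [div_le_iff₀ hz]
      calc ∑ y ∈ U, ((R.filter (fun x => ¬ G.Adj y x)).card : ℝ) ^ s
          ≤ ∑ y ∈ U, ((R.card : ℝ) * ρ) ^ s := by
            apply Finset.sum_le_sum
            intro y hy
            apply pow_le_pow_left₀ (Nat.cast_nonneg _)
            exact hfewn R hRU hRW y hy
        _ = (U.card : ℝ) * ((R.card : ℝ) * ρ) ^ s := by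
            rw [Finset.sum_const, nsmul_eq_mul]
        _ ≤ n * ((R.card : ℝ) * ρ) ^ s := by
            apply mul_le_mul_of_nonneg_right _ (by positivity)
            rw [hn]
            exact_mod_cast Finset.card_le_univ U
        _ = (R.card : ℝ) ^ s / 4 * z := by
            rw [hzd, mul_pow]
            ring
    have h3 : 0 < (R.card : ℝ) ^ s := by positivity
    linarith)
  -- connect them
  let a0 : Fin s := ⟨0, by omega⟩
  have hP : ∀ a : Fin s, ∃ P : Finset V, P ⊆ R ∧ f a0 ∈ P ∧ f a ∈ P ∧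
      (G.induce (P : Set V)).Connected ∧ P.card ≤ ℓ := by
    intro a
    obtain ⟨P, h1, h2, h3, h4, h5⟩ := small_connected G R hRc q
      (fun v hv => hdR v (hRU hv)) (f a0) (f a) (hf1 a0) (hf1 a)
    refine ⟨P, h1, h2, h3, h4, ?_⟩
    by_contra hcon
    push Not at hcon
    have h6 : ℓ * q ≤ (P.card - 1) * q := Nat.mul_le_mul_right _ (by omega)
    have h7 : R.card ≤ Fintype.card V := Finset.card_le_univ R
    omega
  choose P hPR hP0 hPa hPc hPs using hP
  set Q : Finset V := univ.biUnion P with hQ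
  have hQR : Q ⊆ R := by
    intro x hx
    obtain ⟨a, _, ha⟩ := Finset.mem_biUnion.1 hx
    exact hPR a ha
  have hfQ : univ.image f ⊆ Q := by
    intro x hx
    obtain ⟨a, _, rfl⟩ := Finset.mem_image.1 hx
    exact Finset.mem_biUnion.2 ⟨a, Finset.mem_univ _, hPa a⟩
  have hQc : (G.induce (Q : Set V)).Connected := by
    have h1 : (Q : Set V) = ⋃₀ (Set.range (fun a => (P a : Set V))) := by
      ext x
      simp [hQ]
    rw [h1]
    apply SimpleGraph.induce_sUnion_connected_of_pairwise_not_disjoint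
    · exact ⟨_, a0, rfl⟩
    · rintro _ _ ⟨a, rfl⟩ ⟨b, rfl⟩
      exact ⟨f a0, hP0 a, hP0 b⟩
    · rintro _ ⟨a, rfl⟩
      exact hPc a
  have hQs : Q.card ≤ s * ℓ := by
    calc Q.card ≤ ∑ a : Fin s, (P a).card := Finset.card_biUnion_le
      _ ≤ ∑ a : Fin s, ℓ := Finset.sum_le_sum fun a _ => hPs a
      _ = s * ℓ := by rw [Finset.sum_const, Finset.card_univ, Fintype.card_fin, smul_eq_mul]
  have hQfew : ((Zs G U Q).card : ℝ) ≤ z := by
    refine le_trans ?_ hf3
    exact_mod_cast Finset.card_le_card (zs_mono G U hfQ)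
  have hQdisj : ∀ i, Disjoint (B i) Q := by
    intro i
    rw [Finset.disjoint_left]
    intro x hx hxQ
    have := (Finset.mem_sdiff.1 (hQR hxQ)).2
    exact this (Finset.mem_biUnion.2 ⟨i, Finset.mem_univ _, hx⟩)
  have hQadj : ∀ i, ∃ u ∈ B i, ∃ v ∈ Q, G.Adj u v := by
    intro i
    obtain ⟨a, ha⟩ := hf2 i
    rw [mem_Zs, not_and_or] at ha
    rcases ha with ha | ha
    · exact absurd (hRU (hf1 a)) ha
    · push Not at ha
      obtain ⟨b, hb, hab⟩ := ha
      exact ⟨b, hb, f a, hfQ (Finset.mem_image.2 ⟨a, Finset.mem_univ _, rfl⟩), hab.symm⟩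
  refine ⟨Fin.snoc B Q, ?_, ?_, ?_, ?_, ?_, ?_⟩
  · intro i
    refine Fin.lastCases ?_ (fun i => ?_) i
    · rw [Fin.snoc_last]
      exact hQR.trans hRU
    · rw [Fin.snoc_castSucc]
      exact hB.sub i
  · intro i
    refine Fin.lastCases ?_ (fun i => ?_) i
    · rw [Fin.snoc_last]
      exact hQc
    · rw [Fin.snoc_castSucc]
      exact hB.conn i
  · intro i i'
    refine Fin.lastCases ?_ (fun i => ?_) i
    · refine Fin.lastCases ?_ (fun i' => ?_) i'
      · intro h
        exact absurd rfl h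
      · intro _
        rw [Fin.snoc_last, Fin.snoc_castSucc]
        exact (hQdisj i').symm
    · refine Fin.lastCases ?_ (fun i' => ?_) i'
      · intro _
        rw [Fin.snoc_last, Fin.snoc_castSucc]
        exact hQdisj i
      · intro h
        rw [Fin.snoc_castSucc, Fin.snoc_castSucc]
        exact hB.disj i i' (fun h' => h (by rw [h']))
  · intro i i'
    refine Fin.lastCases ?_ (fun i => ?_) i
    · refine Fin.lastCases ?_ (fun i' => ?_) i'
      · intro h
        exact absurd rfl h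
      · intro _
        rw [Fin.snoc_last, Fin.snoc_castSucc]
        obtain ⟨u, hu, v, hv, huv⟩ := hQadj i'
        exact ⟨v, hv, u, hu, huv.symm⟩
    · refine Fin.lastCases ?_ (fun i' => ?_) i'
      · intro _
        rw [Fin.snoc_last, Fin.snoc_castSucc]
        exact hQadj i
      · intro h
        rw [Fin.snoc_castSucc, Fin.snoc_castSucc]
        exact hB.adj i i' (fun h' => h (by rw [h']))
  · intro i
    refine Fin.lastCases ?_ (fun i => ?_) i
    · rw [Fin.snoc_last]
      exact hQs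
    · rw [Fin.snoc_castSucc]
      exact hB.size i
  · intro i
    refine Fin.lastCases ?_ (fun i => ?_) i
    · rw [Fin.snoc_last]
      exact hQfew
    · rw [Fin.snoc_castSucc]
      exact hB.few i

open Classical in
/-- many blocks -/
theorem blocksR {V : Type} [Fintype V] (G : SimpleGraph V) (U : Finset V) (K s ℓ q t : ℕ)
    (ρ : ℝ) (hρ : 0 < ρ) (hrob : Robust G U K) (hdeg : ∀ v ∈ U, q + K ≤ dg G U v) (hq : 0 < q)
    (hfewn : ∀ R ⊆ U, U.card ≤ R.card + K → ∀ v ∈ U,
      ((R.filter (fun x => ¬ G.Adj v x)).card : ℝ) ≤ R.card * ρ)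
    (hs : 1 ≤ s) (hℓ : 3 * Fintype.card V < ℓ * q) (ht : t * (s * ℓ) ≤ K)
    (htn : t ≤ Fintype.card V)
    (hnum : 8 * (Fintype.card V : ℝ) *
      (4 * (Fintype.card V : ℝ) * ρ ^ s) ^ s ≤ (q : ℝ) ^ s)
    (hpos : (q : ℝ) < Fintype.card V) :
    ∃ B : Fin t → Finset V, Sys G U (s * ℓ)
      (4 * (Fintype.card V : ℝ) * ρ ^ s) t B := by
  have key : ∀ j ≤ t, ∃ B : Fin j → Finset V, Sys G U (s * ℓ)
      (4 * (Fintype.card V : ℝ) * ρ ^ s) j B := by
    intro j
    induction j with
    | zero =>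
      intro _
      exact ⟨fun i => i.elim0, fun i => i.elim0, fun i => i.elim0, fun i => i.elim0,
        fun i => i.elim0, fun i => i.elim0, fun i => i.elim0⟩
    | succ j ih =>
      intro hj
      obtain ⟨B, hB⟩ := ih (by omega)
      refine stepR G U K s ℓ q j ρ hρ hrob hdeg hq hfewn hs hℓ ?_ (by omega) hnum hpos B hB
      exact (Nat.mul_le_mul_right _ (by omega)).trans ht
  exact key t le_rfl

end Pool.Agent.Q112.KT
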