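import Mathlib

/-!
# Colouring a vertex-transitive graph by translates of an independent set
-/

set_option autoImplicit false

namespace Pool.Agent.Q112.KT

open Finset

/-- some automorphism image of `I` covers an average share of `R` -/
theorem good_translate {V : Type} [Fintype V] (G : SimpleGraph V)
    (htr : ∀ x y : V, ∃ φ : G ≃g G, φ x = y) (I R : Finset V) :
    ∃ φ : G ≃g G, ∃ T : Finset V, (∀ v, v ∈ T ↔ v ∈ R ∧ φ v ∈ I) ∧
      I.card * R.card ≤ Fintype.card V * T.card := by
  classical
  have : Finite (G ≃g G) := Finite.of_injective (fun φ : G ≃g G => (φ : V → V))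
    DFunLike.coe_injective
  have : Fintype (G ≃g G) := Fintype.ofFinite _
  set N : V → V → ℕ := fun i r => (univ.filter (fun φ : G ≃g G => φ r = i)).card with hN
  have hconst : ∀ i r j, N i r = N j r := by
    intro i r j
    obtain ⟨ψ, hψ⟩ := htr i j
    refine Finset.card_bij (fun φ _ => φ.trans ψ) ?_ ?_ ?_
    · intro φ hφ
      rw [mem_filter] at hφ ⊢
      refine ⟨mem_univ _, ?_⟩
      show ψ (φ r) = j
      rw [hφ.2, hψ]
    · intro φ1 _ φ2 _ h
      apply DFunLike.ext
      intro x
      have h1 : (φ1.trans ψ) x = (φ2.trans ψ) x := by rw [h]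
      exact ψ.injective h1
    · intro φ hφ
      rw [mem_filter] at hφ
      refine ⟨φ.trans ψ.symm, ?_, ?_⟩
      · rw [mem_filter]
        refine ⟨mem_univ _, ?_⟩
        show ψ.symm (φ r) = i
        rw [hφ.2, ← hψ]
        exact ψ.symm_apply_apply i
      · apply DFunLike.ext
        intro x
        show ψ (ψ.symm (φ x)) = φ x
        exact ψ.apply_symm_apply _
  have htot : ∀ i r, Fintype.card V * N i r = Fintype.card (G ≃g G) := by
    intro i r
    have h1 : Fintype.card (G ≃g G) = ∑ j : V, N j r := by
      rw [← Finset.card_univ]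
      exact Finset.card_eq_sum_card_fiberwise (f := fun φ : G ≃g G => φ r) (t := univ)
        (fun _ _ => by simp)
    rw [h1, Finset.sum_congr rfl (fun j _ => hconst j r i), Finset.sum_const, Finset.card_univ,
      smul_eq_mul]
  -- double counting
  have hsum : ∑ φ : G ≃g G, (R.filter (fun v => φ v ∈ I)).card = ∑ i ∈ I, ∑ r ∈ R, N i r := by
    have h1 : ∀ φ : G ≃g G, (R.filter (fun v => φ v ∈ I)).card =
        ∑ r ∈ R, ∑ i ∈ I, if φ r = i then 1 else 0 := by
      intro φ
      rw [Finset.card_filter]
      apply Finset.sum_congr rfl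
      intro r _
      rw [Finset.sum_ite_eq]
    rw [Finset.sum_congr rfl (fun φ _ => h1 φ), Finset.sum_comm, Finset.sum_comm (s := I)]
    apply Finset.sum_congr rfl
    intro r _
    rw [Finset.sum_comm]
    apply Finset.sum_congr rfl
    intro i _
    rw [hN]
    simp only
    rw [Finset.card_filter]
  have hne : (univ : Finset (G ≃g G)).Nonempty := ⟨RelIso.refl _, mem_univ _⟩
  have hkey : ∑ φ : G ≃g G, I.card * R.card ≤
      ∑ φ : G ≃g G, Fintype.card V * (R.filter (fun v => φ v ∈ I)).card := by
    have e1 : ∑ φ : G ≃g G, Fintype.card V * (R.filter (fun v => φ v ∈ I)).card =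
        Fintype.card V * ∑ i ∈ I, ∑ r ∈ R, N i r := by
      rw [← hsum, Finset.mul_sum]
    have e2 : Fintype.card V * ∑ i ∈ I, ∑ r ∈ R, N i r =
        ∑ i ∈ I, ∑ r ∈ R, Fintype.card (G ≃g G) := by
      rw [Finset.mul_sum]
      apply Finset.sum_congr rfl
      intro i _
      rw [Finset.mul_sum]
      exact Finset.sum_congr rfl (fun r _ => htot i r)
    rw [e1, e2]
    simp only [Finset.sum_const, smul_eq_mul, Finset.card_univ]
    apply le_of_eq
    ring
  obtain ⟨φ, _, hφ⟩ := Finset.exists_le_of_sum_le hne hkey
  exact ⟨φ, R.filter (fun v => φ v ∈ I), fun v => by rw [mem_filter], hφ⟩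

/-- greedy covering -/
theorem partial_color {V : Type} [Fintype V] (G : SimpleGraph V)
    (htr : ∀ x y : V, ∃ φ : G ≃g G, φ x = y) (I : Finset V)
    (hI : ∀ x ∈ I, ∀ y ∈ I, ¬ G.Adj x y) (hV : 0 < Fintype.card V) (m : ℕ) :
    ∃ R : Finset V, ((R.card : ℝ) ≤ (Fintype.card V : ℝ) *
        (1 - (I.card : ℝ) / (Fintype.card V : ℝ)) ^ m) ∧
      ∃ c : V → ℕ, (∀ v, v ∉ R → c v < m) ∧
        ∀ u v, u ∉ R → v ∉ R → G.Adj u v → c u ≠ c v := by
  classical
  induction m with
  | zero =>
    refine ⟨univ, by simp, fun _ => 0, ?_, ?_⟩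
    · intro v hv
      exact absurd (mem_univ v) hv
    · intro u v hu
      exact absurd (mem_univ u) hu
  | succ m ih =>
    obtain ⟨R, hR, c, hc1, hc2⟩ := ih
    obtain ⟨φ, T, hT, hcard⟩ := good_translate G htr I R
    have hTR : T ⊆ R := fun v hv => ((hT v).1 hv).1
    refine ⟨R \ T, ?_, fun v => if v ∈ T then m else c v, ?_, ?_⟩
    · have h1 : ((R \ T).card : ℝ) = R.card - T.card := by
        rw [Finset.card_sdiff_of_subset hTR, Nat.cast_sub (Finset.card_le_card hTR)]
      have hV' : (0 : ℝ) < Fintype.card V := by exact_mod_cast hV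
      have h2 : (I.card : ℝ) * R.card ≤ Fintype.card V * T.card := by exact_mod_cast hcard
      have h3 : (I.card : ℝ) / Fintype.card V * R.card ≤ T.card := by
        rw [div_mul_eq_mul_div, div_le_iff₀ hV']
        linarith
      have h4 : (I.card : ℝ) / Fintype.card V ≤ 1 := by
        rw [div_le_one hV']
        exact_mod_cast Finset.card_le_univ I
      rw [h1]
      calc (R.card : ℝ) - T.card ≤ R.card * (1 - I.card / Fintype.card V) := by linarith
        _ ≤ (Fintype.card V * (1 - (I.card : ℝ) / Fintype.card V) ^ m) *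
            (1 - I.card / Fintype.card V) := mul_le_mul_of_nonneg_right hR (by linarith)
        _ = Fintype.card V * (1 - (I.card : ℝ) / Fintype.card V) ^ (m + 1) := by ring
    · intro v hv
      rw [mem_sdiff, not_and_or, not_not] at hv
      show (if v ∈ T then m else c v) < m + 1
      by_cases h : v ∈ T
      · rw [if_pos h]
        omega
      · rw [if_neg h]
        rcases hv with hv | hv
        · exact (hc1 v hv).trans (Nat.lt_succ_self m)
        · exact absurd hv h
    · intro u v hu hv huv
      rw [mem_sdiff, not_and_or, not_not] at hu hv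
      show (if u ∈ T then m else c u) ≠ (if v ∈ T then m else c v)
      by_cases h : u ∈ T
      · by_cases h' : v ∈ T
        · exfalso
          apply hI _ ((hT u).1 h).2 _ ((hT v).1 h').2
          exact φ.map_adj_iff.2 huv
        · rw [if_pos h, if_neg h']
          have hv' : v ∉ R := hv.resolve_right h'
          have := hc1 v hv'
          omega
      · by_cases h' : v ∈ T
        · rw [if_neg h, if_pos h']
          have hu' : u ∉ R := hu.resolve_right h
          have := hc1 u hu'
          omega
        · rw [if_neg h, if_neg h']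
          exact hc2 u v (hu.resolve_right h) (hv.resolve_right h') huv

/-- finishing a partial colouring -/
theorem finish_color {V : Type} [Fintype V] (G : SimpleGraph V) (R : Finset V) (m k : ℕ)
    (c : V → ℕ) (hc1 : ∀ v, v ∉ R → c v < m)
    (hc2 : ∀ u v, u ∉ R → v ∉ R → G.Adj u v → c u ≠ c v) (hk : m + R.card ≤ k) :
    G.Colorable k := by
  classical
  set e := R.equivFin with he
  have hlt : ∀ v, (if h : v ∈ R then m + (e ⟨v, h⟩ : ℕ) else c v) < k := by
    intro v
    by_cases h : v ∈ R
    · rw [dif_pos h]
      have := (e ⟨v, h⟩).2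
      omega
    · rw [dif_neg h]
      have := hc1 v h
      omega
  refine ⟨SimpleGraph.Coloring.mk (fun v => (⟨_, hlt v⟩ : Fin k)) ?_⟩
  intro u v huv heq
  have heq' := congrArg Fin.val heq
  simp only at heq'
  by_cases h : u ∈ R
  · by_cases h' : v ∈ R
    · rw [dif_pos h, dif_pos h'] at heq'
      have h1 : e ⟨u, h⟩ = e ⟨v, h'⟩ := Fin.ext (by omega)
      have h2 := e.injective h1
      have h3 : u = v := by simpa using h2
      exact G.ne_of_adj huv h3
    · rw [dif_pos h, dif_neg h'] at heq'
      have := hc1 v h'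
      omega
  · by_cases h' : v ∈ R
    · rw [dif_neg h, dif_pos h'] at heq'
      have := hc1 u h
      omega
    · rw [dif_neg h, dif_neg h'] at heq'
      exact hc2 u v h h' huv heq'

/-- A vertex-transitive graph on `n` vertices with an independent set of size `a` has a proper
colouring with about `(n / a) * (1 + log a)` colours. -/
theorem transitive_colorable {V : Type} [Fintype V] (G : SimpleGraph V)
    (htr : ∀ x y : V, ∃ φ : G ≃g G, φ x = y) (I : Finset V)
    (hI : ∀ x ∈ I, ∀ y ∈ I, ¬ G.Adj x y) (hI0 : I.Nonempty) (k : ℕ)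
    (hk : (Fintype.card V : ℝ) / I.card * (1 + Real.log I.card) + 1 ≤ k) : G.Colorable k := by
  have ha : 0 < I.card := hI0.card_pos
  have ha' : (1 : ℝ) ≤ I.card := by exact_mod_cast ha
  have hV : 0 < Fintype.card V := lt_of_lt_of_le ha (Finset.card_le_univ I)
  have hV' : (0 : ℝ) < Fintype.card V := by exact_mod_cast hV
  have hIV : (I.card : ℝ) ≤ Fintype.card V := by exact_mod_cast Finset.card_le_univ I
  set n : ℝ := (Fintype.card V : ℝ) with hn
  set a : ℝ := (I.card : ℝ) with haa
  have hlog : 0 ≤ Real.log a := Real.log_nonneg ha'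
  set m : ℕ := ⌈n / a * Real.log a⌉₊ with hm
  obtain ⟨R, hR, c, hc1, hc2⟩ := partial_color G htr I hI hV m
  apply finish_color G R m k c hc1 hc2
  have hm1 : n / a * Real.log a ≤ m := Nat.le_ceil _
  have hm2 : (m : ℝ) < n / a * Real.log a + 1 := Nat.ceil_lt_add_one (by positivity)
  have hR2 : (R.card : ℝ) ≤ n / a := by
    calc (R.card : ℝ) ≤ n * (1 - a / n) ^ m := hR
      _ ≤ n * (Real.exp (-(a / n))) ^ m := by
          apply mul_le_mul_of_nonneg_left _ hV'.le
          apply pow_le_pow_left₀
          · have : a / n ≤ 1 := by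
              rw [div_le_one hV']
              exact hIV
            linarith
          · have := Real.add_one_le_exp (-(a / n))
            linarith
      _ = n * Real.exp (-(a / n * m)) := by
          rw [← Real.exp_nat_mul]
          congr 2
          ring
      _ ≤ n * Real.exp (- Real.log a) := by
          apply mul_le_mul_of_nonneg_left _ hV'.le
          apply Real.exp_le_exp.2
          have h1 : a / n * (n / a * Real.log a) ≤ a / n * m :=
            mul_le_mul_of_nonneg_left hm1 (by positivity)
          have h2 : a / n * (n / a * Real.log a) = Real.log a := by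
            field_simp
          linarith
      _ = n / a := by
          rw [Real.exp_neg, Real.exp_log (by linarith)]
          rfl
  have h3 : (m : ℝ) + R.card ≤ n / a * Real.log a + 1 + n / a := by linarith
  have h4 : (m : ℝ) + R.card ≤ k := by
    refine le_trans h3 (le_trans (le_of_eq ?_) hk)
    ring
  exact_mod_cast h4

end Pool.Agent.Q112.KT
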