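import Pool.Agent.Q112.KT.Blocks

/-!
# Clique minors of order `n / √(log n)` in dense graphs (Kostochka, Thomason)
-/

set_option autoImplicit false

namespace Pool.Agent.Q112.KT

open Finset

/-- `K_k` is a minor of `G`. -/
def HasMinor {V : Type} (G : SimpleGraph V) (k : ℕ) : Prop :=
  ∃ f : Fin k → Set V,
    (∀ i, (G.induce (f i)).Connected) ∧
    (∀ i j, i ≠ j → Disjoint (f i) (f j)) ∧
    (∀ i j, i ≠ j → ∃ u ∈ f i, ∃ v ∈ f j, G.Adj u v)

theorem hasMinor_of_sys {V : Type} (G : SimpleGraph V) (U : Finset V) (M : ℕ) (z : ℝ) (t : ℕ)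
    (B : Fin t → Finset V) (h : Sys G U M z t B) : HasMinor G t := by
  refine ⟨fun i => (B i : Set V), h.conn, ?_, ?_⟩
  · intro i j hij
    rw [Finset.disjoint_coe]
    exact h.disj i j hij
  · intro i j hij
    obtain ⟨u, hu, v, hv, huv⟩ := h.adj i j hij
    exact ⟨u, hu, v, hv, huv⟩

/-- numbers -/
theorem num_s (κ : ℝ) (hκ : 0 < κ) (hκ1 : κ ≤ 1) : ∃ C : ℝ, 0 < C ∧ ∀ n : ℝ, 3 ≤ n →
    ∃ s : ℕ, 1 ≤ s ∧ (s : ℝ) ≤ C * Real.sqrt (Real.log n) ∧
      ∀ q : ℝ, κ * n ≤ q → q < n → 8 * n * (4 * n * (1 - q / n) ^ s) ^ s ≤ q ^ s := by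
  set a : ℝ := Real.log (4 / κ) with ha
  have h4κ : 4 ≤ 4 / κ := by
    rw [le_div_iff₀ hκ]
    linarith
  have ha0 : 0 < a := Real.log_pos (by linarith)
  refine ⟨Real.sqrt (8 / κ) + 2 + 2 * a / κ + 1, by positivity, ?_⟩
  intro n hn
  have hn0 : 0 < n := by linarith
  have hlog1 : 1 ≤ Real.log n := by
    rw [Real.le_log_iff_exp_le hn0]
    have := Real.exp_one_lt_d9
    linarith
  have hsq1 : 1 ≤ Real.sqrt (Real.log n) := by
    rw [Real.one_le_sqrt]
    exact hlog1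
  set s : ℕ := ⌈Real.sqrt (2 * Real.log (8 * n) / κ)⌉₊ + ⌈2 * a / κ⌉₊ + 1 with hs
  have hlog8 : 0 ≤ Real.log (8 * n) := Real.log_nonneg (by linarith)
  have hs1 : Real.sqrt (2 * Real.log (8 * n) / κ) ≤ s := by
    have h1 := Nat.le_ceil (Real.sqrt (2 * Real.log (8 * n) / κ))
    have h2 : (s : ℝ) = (⌈Real.sqrt (2 * Real.log (8 * n) / κ)⌉₊ : ℝ) + ⌈2 * a / κ⌉₊ + 1 := by
      rw [hs]
      push_cast
      ring
    have h3 : (0 : ℝ) ≤ ⌈2 * a / κ⌉₊ := Nat.cast_nonneg _
    linarith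
  have hs2 : 2 * a / κ ≤ s := by
    have h1 := Nat.le_ceil (2 * a / κ)
    have h2 : (s : ℝ) = (⌈Real.sqrt (2 * Real.log (8 * n) / κ)⌉₊ : ℝ) + ⌈2 * a / κ⌉₊ + 1 := by
      rw [hs]
      push_cast
      ring
    have h3 : (0 : ℝ) ≤ ⌈Real.sqrt (2 * Real.log (8 * n) / κ)⌉₊ := Nat.cast_nonneg _
    linarith
  have hs0 : (0 : ℝ) ≤ s := Nat.cast_nonneg _
  refine ⟨s, by omega, ?_, ?_⟩
  · have h1 : (⌈Real.sqrt (2 * Real.log (8 * n) / κ)⌉₊ : ℝ) ≤
        Real.sqrt (2 * Real.log (8 * n) / κ) + 1 :=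
      (Nat.ceil_lt_add_one (Real.sqrt_nonneg _)).le
    have h2 : (⌈2 * a / κ⌉₊ : ℝ) ≤ 2 * a / κ + 1 :=
      (Nat.ceil_lt_add_one (by positivity)).le
    have h3 : (s : ℝ) = (⌈Real.sqrt (2 * Real.log (8 * n) / κ)⌉₊ : ℝ) + ⌈2 * a / κ⌉₊ + 1 := by
      rw [hs]
      push_cast
      ring
    have h4 : Real.log (8 * n) ≤ 4 * Real.log n := by
      have h5 : Real.log (8 * n) ≤ Real.log (n ^ 4) := by
        apply Real.log_le_log (by positivity)
        have h6 : (8 : ℝ) ≤ n ^ 3 := by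
          calc (8 : ℝ) ≤ 3 ^ 3 := by norm_num
            _ ≤ n ^ 3 := pow_le_pow_left₀ (by norm_num) hn 3
        calc 8 * n ≤ n ^ 3 * n := mul_le_mul_of_nonneg_right h6 hn0.le
          _ = n ^ 4 := by ring
      rw [Real.log_pow] at h5
      exact_mod_cast h5
    have h5 : Real.sqrt (2 * Real.log (8 * n) / κ) ≤
        Real.sqrt (8 / κ) * Real.sqrt (Real.log n) := by
      rw [← Real.sqrt_mul (by positivity)]
      apply Real.sqrt_le_sqrt
      calc 2 * Real.log (8 * n) / κ ≤ 2 * (4 * Real.log n) / κ := by gcongr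
        _ = 8 / κ * Real.log n := by ring
    have h6 : 2 * a / κ ≤ 2 * a / κ * Real.sqrt (Real.log n) :=
      le_mul_of_one_le_right (by positivity) hsq1
    nlinarith
  · intro q hq1 hq2
    have hq0 : 0 < q := lt_of_lt_of_le (by positivity) hq1
    have hfrac0 : 0 ≤ 1 - q / n := by
      rw [sub_nonneg, div_le_one hn0]
      exact hq2.le
    have hfrac : 1 - q / n ≤ Real.exp (-κ) := by
      have h1 : κ ≤ q / n := by
        rw [le_div_iff₀ hn0]
        exact hq1
      have h2 := Real.add_one_le_exp (-κ)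
      linarith
    have h1 : (1 - q / n) ^ s ≤ Real.exp (-(κ * s)) := by
      calc (1 - q / n) ^ s ≤ (Real.exp (-κ)) ^ s := pow_le_pow_left₀ hfrac0 hfrac s
        _ = Real.exp (-(κ * s)) := by
          rw [← Real.exp_nat_mul]
          congr 1
          ring
    have h2 : (4 * n * (1 - q / n) ^ s) ^ s ≤ (4 * n) ^ s * Real.exp (-(κ * s ^ 2)) := by
      calc (4 * n * (1 - q / n) ^ s) ^ s ≤ (4 * n * Real.exp (-(κ * s))) ^ s := by
            apply pow_le_pow_left₀ (by positivity)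
            exact mul_le_mul_of_nonneg_left h1 (by positivity)
        _ = (4 * n) ^ s * Real.exp (-(κ * s ^ 2)) := by
            rw [mul_pow, ← Real.exp_nat_mul]
            congr 2
            ring
    have h3 : 8 * n * ((4 * n) ^ s * Real.exp (-(κ * s ^ 2))) ≤ (κ * n) ^ s := by
      have h4 : (4 * n) ^ s = (4 / κ) ^ s * (κ * n) ^ s := by
        rw [← mul_pow]
        congr 1
        field_simp
      have h5 : 8 * n * ((4 / κ) ^ s * Real.exp (-(κ * s ^ 2))) ≤ 1 := by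
        have h6 : 8 * n = Real.exp (Real.log (8 * n)) := (Real.exp_log (by positivity)).symm
        have h7 : (4 / κ) ^ s = Real.exp (s * a) := by
          rw [Real.exp_nat_mul, ha, Real.exp_log (by positivity)]
        rw [h7]
        nth_rewrite 1 [h6]
        rw [← Real.exp_add, ← Real.exp_add]
        rw [← Real.exp_zero]
        apply Real.exp_le_exp.2
        have h8 : s * a ≤ κ * s ^ 2 / 2 := by
          have : 2 * a ≤ s * κ := by
            rw [div_le_iff₀ hκ] at hs2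
            exact hs2
          nlinarith
        have h9 : Real.log (8 * n) ≤ κ * s ^ 2 / 2 := by
          have h10 : 2 * Real.log (8 * n) / κ ≤ (s : ℝ) ^ 2 := by
            have h11 := Real.sq_sqrt (show 0 ≤ 2 * Real.log (8 * n) / κ by positivity)
            rw [← h11]
            exact pow_le_pow_left₀ (Real.sqrt_nonneg _) hs1 2
          rw [div_le_iff₀ hκ] at h10
          linarith
        linarith
      calc 8 * n * ((4 * n) ^ s * Real.exp (-(κ * s ^ 2))) =
            (8 * n * ((4 / κ) ^ s * Real.exp (-(κ * s ^ 2)))) * (κ * n) ^ s := by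
            rw [h4]
            ring
        _ ≤ 1 * (κ * n) ^ s := mul_le_mul_of_nonneg_right h5 (by positivity)
        _ = (κ * n) ^ s := one_mul _
    calc 8 * n * (4 * n * (1 - q / n) ^ s) ^ s ≤
          8 * n * ((4 * n) ^ s * Real.exp (-(κ * s ^ 2))) :=
          mul_le_mul_of_nonneg_left h2 (by positivity)
      _ ≤ (κ * n) ^ s := h3
      _ ≤ q ^ s := pow_le_pow_left₀ (by positivity) hq1 s

/-- **Dense graphs have large clique minors.** -/
theorem dense_minor (δ : ℝ) (hδ : 0 < δ) : ∃ c : ℝ, 0 < c ∧ ∃ n0 : ℕ, ∀ (V : Type) [Fintype V]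
    (G : SimpleGraph V), n0 ≤ Fintype.card V →
    (∀ v, δ * (Fintype.card V : ℝ) ≤ (dg G univ v : ℝ)) →
    ∀ t : ℕ, (t : ℝ) ≤ c * (Fintype.card V : ℝ) / Real.sqrt (Real.log (Fintype.card V)) →
      HasMinor G t := by
  -- the case of small `δ`
  suffices H : ∀ δ : ℝ, 0 < δ → δ ≤ 1 → ∃ c : ℝ, 0 < c ∧ ∃ n0 : ℕ, ∀ (V : Type) [Fintype V]
      (G : SimpleGraph V), n0 ≤ Fintype.card V →
      (∀ v, δ * (Fintype.card V : ℝ) ≤ (dg G univ v : ℝ)) →
      ∀ t : ℕ, (t : ℝ) ≤ c * (Fintype.card V : ℝ) / Real.sqrt (Real.log (Fintype.card V)) →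
        HasMinor G t by
    by_cases h1 : δ ≤ 1
    · exact H δ hδ h1
    · refine ⟨1, one_pos, 1, ?_⟩
      intro V _ G hn hd
      exfalso
      have hne : Nonempty V := Fintype.card_pos_iff.1 (by omega)
      obtain ⟨v⟩ := hne
      have h2 := hd v
      have h3 : dg G univ v < Fintype.card V := dg_lt G univ v (Finset.mem_univ v)
      have h3' : (dg G univ v : ℝ) < Fintype.card V := by exact_mod_cast h3
      have h4 : (0 : ℝ) < Fintype.card V := lt_of_le_of_lt (Nat.cast_nonneg _) h3'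
      nlinarith
  clear hδ δ
  intro δ hδ hδ1
  obtain ⟨J, hJ⟩ := pow_unbounded_of_one_lt (4 / δ) (one_lt_two : (1 : ℝ) < 2)
  have hJ1 : 1 ≤ J := by
    rcases Nat.eq_zero_or_pos J with h | h
    · rw [h, pow_zero] at hJ
      have : 4 ≤ 4 / δ := by
        rw [le_div_iff₀ hδ]
        linarith
      linarith
    · exact h
  have hJR : (1 : ℝ) ≤ J := by exact_mod_cast hJ1
  set κ : ℝ := δ / 4 with hκ
  have hκ0 : 0 < κ := by positivity
  obtain ⟨C, hC, hCs⟩ := num_s κ hκ0 (by rw [hκ]; linarith)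
  set ℓ : ℕ := ⌊12 / δ⌋₊ + 1 with hℓ
  have hℓ1 : (1 : ℝ) ≤ ℓ := by
    rw [hℓ]
    push_cast
    have : (0 : ℝ) ≤ ⌊12 / δ⌋₊ := Nat.cast_nonneg _
    linarith
  have hℓ2 : 12 / δ < ℓ := by
    rw [hℓ]
    push_cast
    exact Nat.lt_floor_add_one _
  refine ⟨min (δ / (8 * J * C * ℓ)) 1, by positivity, max 3 ⌈8 * J / δ⌉₊, ?_⟩
  intro V _ G hn hd t ht
  set n : ℕ := Fintype.card V with hnd
  have hn3 : 3 ≤ n := (le_max_left _ _).trans hn
  have hn3' : (3 : ℝ) ≤ n := by exact_mod_cast hn3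
  have hnb : 8 * J / δ ≤ (n : ℝ) := by
    have h1 : ⌈8 * (J : ℝ) / δ⌉₊ ≤ n := (le_max_right _ _).trans hn
    exact (Nat.le_ceil _).trans (by exact_mod_cast h1)
  have hn0 : (0 : ℝ) < n := by linarith
  have hlog1 : 1 ≤ Real.log n := by
    rw [Real.le_log_iff_exp_le hn0]
    have := Real.exp_one_lt_d9
    linarith
  have hsq1 : 1 ≤ Real.sqrt (Real.log n) := by
    rw [Real.one_le_sqrt]
    exact hlog1
  have hsq0 : 0 < Real.sqrt (Real.log n) := by linarith
  have hne : Nonempty V := Fintype.card_pos_iff.1 (by omega)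
  have hδn : 8 * J ≤ δ * n := by
    rw [div_le_iff₀ hδ] at hnb
    linarith
  set d : ℕ := ⌈δ * n⌉₊ with hdd
  have hd1 : δ * n ≤ d := Nat.le_ceil _
  have hdd' : ∀ v, d ≤ dg G univ v := fun v => Nat.ceil_le.2 (hd v)
  set K : ℕ := ⌊δ * n / (4 * J)⌋₊ with hK
  have hK1 : (K : ℝ) ≤ δ * n / (4 * J) := Nat.floor_le (by positivity)
  have hK2 : δ * n / (8 * J) ≤ K := by
    have h1 := Nat.lt_floor_add_one (δ * n / (4 * J))
    have h2 : 1 ≤ δ * n / (8 * J) := by
      rw [le_div_iff₀ (by positivity)]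
      linarith
    have h3 : δ * n / (4 * J) = 2 * (δ * n / (8 * J)) := by
      field_simp
      ring
    rw [h3] at h1
    have h4 : δ * n / (8 * J) < K := by
      have h5 : (K : ℝ) + 1 > 2 * (δ * n / (8 * J)) := by
        rw [hK, h3]
        exact h1
      linarith
    exact h4.le
  have hJK : (J : ℝ) * K ≤ δ * n / 4 := by
    calc (J : ℝ) * K ≤ J * (δ * n / (4 * J)) := mul_le_mul_of_nonneg_left hK1 (by positivity)
      _ = δ * n / 4 := by field_simp
  have hKle : (K : ℝ) ≤ δ * n / 4 := by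
    refine le_trans ?_ hJK
    have h1 : (0 : ℝ) ≤ K := Nat.cast_nonneg _
    nlinarith
  have hJKd : J * K ≤ d := by
    have h1 : (J : ℝ) * K ≤ d := by linarith [mul_pos hδ hn0]
    exact_mod_cast h1
  obtain ⟨U, hU, hrob, hUd⟩ := exists_robust G d K J hdd' (by
    have h1 : ((d - J * K : ℕ) : ℝ) = d - J * K := by
      rw [Nat.cast_sub hJKd]
      push_cast
      ring
    have h2 : (n : ℝ) < ((2 ^ J * (d - J * K) : ℕ) : ℝ) := by
      rw [Nat.cast_mul, h1]
      push_cast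
      have h3 : 3 / 4 * (δ * n) ≤ (d : ℝ) - J * K := by linarith
      have h4 : 0 < δ * n := mul_pos hδ hn0
      calc (n : ℝ) < 3 * n := by linarith
        _ = (4 / δ) * (3 / 4 * (δ * n)) := by field_simp
        _ ≤ 2 ^ J * (3 / 4 * (δ * n)) :=
            mul_le_mul_of_nonneg_right hJ.le (by positivity)
        _ ≤ 2 ^ J * ((d : ℝ) - J * K) := mul_le_mul_of_nonneg_left h3 (by positivity)
    exact_mod_cast h2)
  set q : ℕ := ⌊δ * n / 2⌋₊ with hq
  have hq1 : (q : ℝ) ≤ δ * n / 2 := Nat.floor_le (by positivity)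
  have hq2 : κ * n ≤ q := by
    have h1 := Nat.lt_floor_add_one (δ * n / 2)
    have h2 : κ * n = δ * n / 4 := by rw [hκ]; ring
    have h3 : (q : ℝ) + 1 > δ * n / 2 := by
      rw [hq]
      exact h1
    have h4 : 8 ≤ δ * n := by nlinarith
    linarith
  have hq3 : (q : ℝ) < n := by nlinarith
  have hq0 : 0 < q := by
    have h1 : (0 : ℝ) < q := lt_of_lt_of_le (by positivity) hq2
    exact_mod_cast h1
  obtain ⟨s, hs1, hs2, hs3⟩ := hCs n hn3'
  have hnum := hs3 q hq2 hq3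
  have hsysdeg : ∀ v ∈ U, q + K ≤ dg G U v := by
    intro v hv
    have h1 := hUd v hv
    have h2 : (d : ℝ) ≤ dg G U v + J * K := by exact_mod_cast h1
    have h3 : (q : ℝ) + K ≤ dg G U v := by linarith
    exact_mod_cast h3
  have hℓq : 3 * n < ℓ * q := by
    have h1 : (3 : ℝ) * n < ℓ * q := by
      calc (3 : ℝ) * n = (12 / δ) * (κ * n) := by
            rw [hκ]
            field_simp
            ring
        _ < ℓ * (κ * n) := mul_lt_mul_of_pos_right hℓ2 (by positivity)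
        _ ≤ ℓ * q := mul_le_mul_of_nonneg_left hq2 (by positivity)
    exact_mod_cast h1
  have hcn : min (δ / (8 * J * C * ℓ)) 1 * (n : ℝ) / Real.sqrt (Real.log n) ≤
      δ / (8 * J * C * ℓ) * n / Real.sqrt (Real.log n) := by
    apply div_le_div_of_nonneg_right _ hsq0.le
    exact mul_le_mul_of_nonneg_right (min_le_left _ _) hn0.le
  have htK : t * (s * ℓ) ≤ K := by
    have h1 : (t : ℝ) * (s * ℓ) ≤ K := by
      calc (t : ℝ) * (s * ℓ) ≤ (δ / (8 * J * C * ℓ) * n / Real.sqrt (Real.log n)) *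
            ((C * Real.sqrt (Real.log n)) * ℓ) := by
            apply mul_le_mul (ht.trans hcn) _ (by positivity) (by positivity)
            exact mul_le_mul_of_nonneg_right hs2 (by positivity)
        _ = δ * n / (8 * J) := by
            field_simp
        _ ≤ K := hK2
    exact_mod_cast h1
  have htn : t ≤ n := by
    have h1 : (t : ℝ) ≤ n := by
      refine ht.trans ?_
      rw [div_le_iff₀ hsq0]
      calc min (δ / (8 * J * C * ℓ)) 1 * (n : ℝ) ≤ 1 * n :=
            mul_le_mul_of_nonneg_right (min_le_right _ _) hn0.le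
        _ ≤ n * Real.sqrt (Real.log n) := by nlinarith
    exact_mod_cast h1
  obtain ⟨B, hB⟩ := blocks G U K s ℓ q t hrob hsysdeg hq0 hs1 hℓq htK htn hnum hq3
  exact hasMinor_of_sys G U _ _ t B hB

end Pool.Agent.Q112.KT
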