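import Pool.Agent.Q112.KT.VeryDense
import Pool.Agent.Q112.KT.Almost

/-!
# Graphs with small fractional chromatic number
-/

set_option autoImplicit false

namespace Pool.Agent.Q112.KT

open Finset

/-- Every set `R` of vertices contains an independent set of size at least `|R| / x`. -/
def Cov {V : Type} (G : SimpleGraph V) (x : ℝ) : Prop :=
  ∀ R : Finset V, ∃ T ⊆ R, (∀ u ∈ T, ∀ v ∈ T, ¬ G.Adj u v) ∧ (R.card : ℝ) ≤ x * T.card

/-- vertex-transitive graphs -/
theorem cov_of_transitive {V : Type} [Fintype V] (G : SimpleGraph V)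
    (htr : ∀ x y : V, ∃ φ : G ≃g G, φ x = y) (I : Finset V)
    (hI : ∀ x ∈ I, ∀ y ∈ I, ¬ G.Adj x y) (hI0 : I.Nonempty) :
    Cov G ((Fintype.card V : ℝ) / I.card) := by
  intro R
  obtain ⟨φ, T, hT, hcard⟩ := good_translate G htr I R
  refine ⟨T, fun v hv => ((hT v).1 hv).1, ?_, ?_⟩
  · intro u hu v hv huv
    exact hI _ ((hT u).1 hu).2 _ ((hT v).1 hv).2 (φ.map_adj_iff.2 huv)
  · have h0 : (0 : ℝ) < I.card := by exact_mod_cast hI0.card_pos
    rw [div_mul_eq_mul_div, le_div_iff₀ h0]
    have : ((I.card * R.card : ℕ) : ℝ) ≤ ((Fintype.card V * T.card : ℕ) : ℝ) := by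
      exact_mod_cast hcard
    push_cast at this
    linarith

/-- greedy colouring -/
theorem cov_partial {V : Type} [Fintype V] (G : SimpleGraph V) (x : ℝ) (hx : 1 ≤ x)
    (hcov : Cov G x) (m : ℕ) :
    ∃ R : Finset V, ((R.card : ℝ) ≤ (Fintype.card V : ℝ) * (1 - 1 / x) ^ m) ∧
      ∃ c : V → ℕ, (∀ v, v ∉ R → c v < m) ∧
        ∀ u v, u ∉ R → v ∉ R → G.Adj u v → c u ≠ c v := by
  classical
  have hx0 : 0 < x := by linarith
  induction m with
  | zero =>
    refine ⟨univ, by simp, fun _ => 0, ?_, ?_⟩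
    · intro v hv
      exact absurd (mem_univ v) hv
    · intro u v hu
      exact absurd (mem_univ u) hu
  | succ m ih =>
    obtain ⟨R, hR, c, hc1, hc2⟩ := ih
    obtain ⟨T, hTR, hTi, hcard⟩ := hcov R
    refine ⟨R \ T, ?_, fun v => if v ∈ T then m else c v, ?_, ?_⟩
    · have h1 : ((R \ T).card : ℝ) = R.card - T.card := by
        rw [Finset.card_sdiff_of_subset hTR, Nat.cast_sub (Finset.card_le_card hTR)]
      have h3 : 1 / x * R.card ≤ T.card := by
        rw [div_mul_eq_mul_div, div_le_iff₀ hx0]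
        linarith
      have h4 : 1 / x ≤ 1 := by
        rw [div_le_one hx0]
        exact hx
      rw [h1]
      calc (R.card : ℝ) - T.card ≤ R.card * (1 - 1 / x) := by linarith
        _ ≤ (Fintype.card V * (1 - 1 / x) ^ m) * (1 - 1 / x) :=
            mul_le_mul_of_nonneg_right hR (by linarith)
        _ = Fintype.card V * (1 - 1 / x) ^ (m + 1) := by ring
    · intro v hv
      rw [mem_sdiff, not_and_or, not_not] at hv
      show (if v ∈ T then m else c v) < m + 1
      by_cases h : v ∈ T
      · rw [if_pos h]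
        omega
      · rw [if_neg h]
        rcases hv with hv | hv
        · exact (hc1 v hv).trans (Nat.lt_succ_self m)
        · exact absurd hv h
    · intro u v hu hv huv
      rw [mem_sdiff, not_and_or, not_not] at hu hv
      show (if u ∈ T then m else c u) ≠ (if v ∈ T then m else c v)
      by_cases h : u ∈ T
      · by_cases h' : v ∈ T
        · exact absurd huv (hTi u h v h')
        · rw [if_pos h, if_neg h']
          have hv' : v ∉ R := hv.resolve_right h'
          have := hc1 v hv'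
          omega
      · by_cases h' : v ∈ T
        · rw [if_neg h, if_pos h']
          have hu' : u ∉ R := hu.resolve_right h
          have := hc1 u hu'
          omega
        · rw [if_neg h, if_neg h']
          exact hc2 u v (hu.resolve_right h) (hv.resolve_right h') huv

theorem cov_colorable {V : Type} [Fintype V] [Nonempty V] (G : SimpleGraph V) (a : ℝ)
    (ha : 1 ≤ a) (hcov : Cov G ((Fintype.card V : ℝ) / a)) (k : ℕ)
    (hk : (Fintype.card V : ℝ) / a * (1 + Real.log a) + 1 ≤ k) : G.Colorable k := by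
  have ha0 : 0 < a := by linarith
  have hV' : (0 : ℝ) < Fintype.card V := by exact_mod_cast Fintype.card_pos
  set n : ℝ := (Fintype.card V : ℝ) with hn
  have hx : 1 ≤ n / a := by
    obtain ⟨T, hT1, hT2, hT3⟩ := hcov univ
    have h1 : (T.card : ℝ) ≤ n := by
      rw [hn]
      exact_mod_cast Finset.card_le_univ T
    rw [Finset.card_univ, ← hn] at hT3
    have h2 : 0 < n / a := by positivity
    by_contra hlt
    push Not at hlt
    have h3 : (0 : ℝ) ≤ T.card := Nat.cast_nonneg _
    nlinarith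
  have hlog : 0 ≤ Real.log a := Real.log_nonneg ha
  set m : ℕ := ⌈n / a * Real.log a⌉₊ with hm
  obtain ⟨R, hR, c, hc1, hc2⟩ := cov_partial G (n / a) hx hcov m
  apply finish_color G R m k c hc1 hc2
  have hm1 : n / a * Real.log a ≤ m := Nat.le_ceil _
  have hm2 : (m : ℝ) < n / a * Real.log a + 1 := Nat.ceil_lt_add_one (by positivity)
  have hR2 : (R.card : ℝ) ≤ n / a := by
    have e : 1 / (n / a) = a / n := by rw [one_div, inv_div]
    rw [e] at hR
    calc (R.card : ℝ) ≤ n * (1 - a / n) ^ m := hR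
      _ ≤ n * (Real.exp (-(a / n))) ^ m := by
          apply mul_le_mul_of_nonneg_left _ hV'.le
          apply pow_le_pow_left₀
          · have : a / n ≤ 1 := by
              rw [div_le_one hV']
              rw [le_div_iff₀ ha0] at hx
              linarith
            linarith
          · have := Real.add_one_le_exp (-(a / n))
            linarith
      _ = n * Real.exp (-(a / n * m)) := by
          rw [← Real.exp_nat_mul]
          congr 2
          ring
      _ ≤ n * Real.exp (- Real.log a) := by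
          apply mul_le_mul_of_nonneg_left _ hV'.le
          apply Real.exp_le_exp.2
          have h1 : a / n * (n / a * Real.log a) ≤ a / n * m :=
            mul_le_mul_of_nonneg_left hm1 (by positivity)
          have h2 : a / n * (n / a * Real.log a) = Real.log a := by
            field_simp
          linarith
      _ = n / a := by
          rw [Real.exp_neg, Real.exp_log (by linarith)]
          rfl
  have h3 : (m : ℝ) + R.card ≤ n / a * Real.log a + 1 + n / a := by linarith
  have h4 : (m : ℝ) + R.card ≤ k := by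
    refine le_trans h3 (le_trans (le_of_eq ?_) hk)
    ring
  exact_mod_cast h4

/-- `(1 + log a) / a` is decreasing -/
theorem f_anti (x a : ℝ) (hx : 1 ≤ x) (hxa : x ≤ a) :
    (1 + Real.log a) / a ≤ (1 + Real.log x) / x := by
  have hx0 : 0 < x := by linarith
  have ha0 : 0 < a := by linarith
  have he : 0 < Real.exp 1 := Real.exp_pos 1
  have h := Real.log_div_self_antitoneOn (a := Real.exp 1 * x) (b := Real.exp 1 * a)
    (by
      show Real.exp 1 ≤ Real.exp 1 * x
      nlinarith)
    (by
      show Real.exp 1 ≤ Real.exp 1 * a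
      nlinarith) (mul_le_mul_of_nonneg_left hxa he.le)
  have e : ∀ y : ℝ, 0 < y → Real.log (Real.exp 1 * y) / (Real.exp 1 * y) =
      (1 + Real.log y) / y / Real.exp 1 := by
    intro y hy
    rw [Real.log_mul he.ne' hy.ne', Real.log_exp]
    field_simp
  simp only at h
  rw [e a ha0, e x hx0] at h
  exact (div_le_div_iff_of_pos_right he).1 h

theorem num_main (θ : ℝ) (hθ : 0 < θ) : ∃ C : ℝ, 1 ≤ C ∧ ∀ L : ℝ, 1 ≤ L → ∀ a : ℝ,
    C * Real.sqrt L * (1 + Real.log L) ≤ a → 1 ≤ a ∧ (1 + Real.log a) / a ≤ θ / Real.sqrt L := by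
  refine ⟨max 1 ((2 / θ) ^ 2), le_max_left _ _, ?_⟩
  intro L hL a ha
  set C : ℝ := max 1 ((2 / θ) ^ 2) with hC
  have hC1 : 1 ≤ C := le_max_left _ _
  have hC2 : 2 / θ ≤ Real.sqrt C := Real.le_sqrt_of_sq_le (le_max_right _ _)
  have hsC1 : 1 ≤ Real.sqrt C := by
    rw [Real.one_le_sqrt]
    exact hC1
  have hsCC : Real.sqrt C * Real.sqrt C = C := Real.mul_self_sqrt (by linarith)
  have hsL1 : 1 ≤ Real.sqrt L := by
    rw [Real.one_le_sqrt]
    exact hL
  have hsLL : Real.sqrt L * Real.sqrt L = L := Real.mul_self_sqrt (by linarith)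
  have hlogL : 0 ≤ Real.log L := Real.log_nonneg hL
  have hlogC : 0 ≤ Real.log C := Real.log_nonneg hC1
  set x : ℝ := C * Real.sqrt L * (1 + Real.log L) with hx
  have hCL : 1 ≤ C * Real.sqrt L := by nlinarith
  have hx1 : 1 ≤ x := by
    rw [hx]
    nlinarith
  refine ⟨by linarith, (f_anti x a hx1 ha).trans ?_⟩
  have hlogx : 1 + Real.log x ≤ (3 / 2 + Real.log C) * (1 + Real.log L) := by
    have h1 : Real.log x = Real.log C + Real.log (Real.sqrt L) + Real.log (1 + Real.log L) := by
      rw [hx, Real.log_mul (by positivity) (by positivity),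
        Real.log_mul (by positivity) (by positivity)]
    have h2 : Real.log (Real.sqrt L) = Real.log L / 2 := Real.log_sqrt (by linarith)
    have h3 : Real.log (1 + Real.log L) ≤ Real.log L := by
      have := Real.log_le_sub_one_of_pos (by linarith : 0 < 1 + Real.log L)
      linarith
    rw [h1, h2]
    nlinarith [mul_nonneg hlogC hlogL]
  have hlogC2 : 3 / 2 + Real.log C ≤ 2 * Real.sqrt C := by
    have h1 : Real.log (Real.sqrt C) = Real.log C / 2 := Real.log_sqrt (by linarith)
    have h2 := Real.log_le_sub_one_of_pos (by linarith : 0 < Real.sqrt C)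
    linarith
  have hθC : 2 ≤ θ * Real.sqrt C := by
    rw [div_le_iff₀ hθ] at hC2
    linarith
  rw [div_le_div_iff₀ (by linarith) (by linarith)]
  calc (1 + Real.log x) * Real.sqrt L
      ≤ ((3 / 2 + Real.log C) * (1 + Real.log L)) * Real.sqrt L :=
        mul_le_mul_of_nonneg_right hlogx (by linarith)
    _ ≤ ((2 * Real.sqrt C) * (1 + Real.log L)) * Real.sqrt L := by
        apply mul_le_mul_of_nonneg_right _ (by linarith)
        exact mul_le_mul_of_nonneg_right hlogC2 (by linarith)
    _ ≤ ((θ * Real.sqrt C * Real.sqrt C) * (1 + Real.log L)) * Real.sqrt L := by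
        apply mul_le_mul_of_nonneg_right _ (by linarith)
        apply mul_le_mul_of_nonneg_right _ (by linarith)
        exact mul_le_mul_of_nonneg_right hθC (by linarith)
    _ = θ * x := by
        rw [hx, mul_assoc θ, hsCC]
        ring

/-- **Main theorem** for graphs with small fractional chromatic number. -/
theorem frac_main (δ : ℝ) (hδ : 0 < δ) (K : ℕ) : ∃ C : ℝ, 0 < C ∧ ∃ n0 : ℕ,
    ∀ (V : Type) [Fintype V] (G : SimpleGraph V), n0 ≤ Fintype.card V →
    ∀ D : ℕ, 1 ≤ D → (D : ℝ) ≤ (1 - δ) * (Fintype.card V : ℝ) →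
    (∀ v, Fintype.card V ≤ dg G univ v + D) →
    ∀ a : ℝ, C * Real.sqrt (Real.log (Fintype.card V) /
        Real.log ((Fintype.card V : ℝ) / D)) *
      (1 + Real.log (Real.log (Fintype.card V) /
        Real.log ((Fintype.card V : ℝ) / D))) ≤ a →
    Cov G ((Fintype.card V : ℝ) / a) →
    ∀ k : ℕ, ¬ G.Colorable k → HasMinor G (K * (k + 1)) := by
  obtain ⟨c, hc, n1, hmin⟩ := minor_general δ hδ
  obtain ⟨C, hC1, hC⟩ := num_main (c / (2 * (K + 1))) (by positivity)
  refine ⟨C, by linarith, max (max n1 2) ⌈(4 * (K + 1) / c) ^ 2 / δ⌉₊, ?_⟩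
  intro V _ G hn D hD1 hD2 hdeg a ha hcov k hk
  set n : ℕ := Fintype.card V with hnd
  have hn1 : n1 ≤ n := (le_max_left _ _).trans ((le_max_left _ _).trans hn)
  have hn2 : 2 ≤ n := (le_max_right _ _).trans ((le_max_left _ _).trans hn)
  have hn3 : ⌈(4 * ((K : ℝ) + 1) / c) ^ 2 / δ⌉₊ ≤ n := (le_max_right _ _).trans hn
  have hn3' : (4 * ((K : ℝ) + 1) / c) ^ 2 / δ ≤ n := (Nat.le_ceil _).trans (by exact_mod_cast hn3)
  have hnR : (2 : ℝ) ≤ n := by exact_mod_cast hn2
  have hnpos : (0 : ℝ) < n := by linarith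
  have hDR : (1 : ℝ) ≤ D := by exact_mod_cast hD1
  have hD0 : (0 : ℝ) < D := by linarith
  have hlogn : 0 < Real.log n := Real.log_pos (by linarith)
  have hne : Nonempty V := Fintype.card_pos_iff.1 (by omega)
  have hlam : δ ≤ Real.log ((n : ℝ) / D) := by
    have h1 : Real.log ((D : ℝ) / n) ≤ (D : ℝ) / n - 1 :=
      Real.log_le_sub_one_of_pos (by positivity)
    have h2 : (D : ℝ) / n ≤ 1 - δ := by
      rw [div_le_iff₀ hnpos]
      exact hD2
    have h3 : Real.log ((n : ℝ) / D) = - Real.log ((D : ℝ) / n) := by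
      rw [← Real.log_inv, inv_div]
    rw [h3]
    linarith
  have hlam0 : 0 < Real.log ((n : ℝ) / D) := by linarith
  have hlamle : Real.log ((n : ℝ) / D) ≤ Real.log n := by
    apply Real.log_le_log (by positivity)
    rw [div_le_iff₀ hD0]
    nlinarith
  set L : ℝ := Real.log n / Real.log ((n : ℝ) / D) with hL
  have hL1 : 1 ≤ L := by
    rw [hL, le_div_iff₀ hlam0]
    linarith
  have hsL1 : 1 ≤ Real.sqrt L := by
    rw [Real.one_le_sqrt]
    exact hL1
  have hsL0 : 0 < Real.sqrt L := by linarith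
  have hLn : Real.sqrt L ≤ c * n / (4 * (K + 1)) := by
    have h1 : L ≤ n / δ := by
      rw [hL]
      have h2 : Real.log n ≤ n := (Real.log_le_self hnpos.le)
      calc Real.log n / Real.log ((n : ℝ) / D) ≤ Real.log n / δ :=
            div_le_div_of_nonneg_left hlogn.le hδ hlam
        _ ≤ n / δ := div_le_div_of_nonneg_right h2 hδ.le
    apply Real.sqrt_le_iff.2
    refine ⟨by positivity, h1.trans ?_⟩
    rw [div_le_iff₀ hδ] at hn3'
    rw [div_le_iff₀ hδ]
    have h3 : (c * (n : ℝ) / (4 * (K + 1))) ^ 2 * δ =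
        (n : ℝ) * ((n * δ) * (c / (4 * (K + 1))) ^ 2) := by
      field_simp
    rw [h3]
    have h4 : 1 ≤ (n * δ) * (c / (4 * ((K : ℝ) + 1))) ^ 2 := by
      calc (1 : ℝ) = (4 * ((K : ℝ) + 1) / c) ^ 2 * (c / (4 * ((K : ℝ) + 1))) ^ 2 := by
            rw [← mul_pow]
            have : 4 * ((K : ℝ) + 1) / c * (c / (4 * ((K : ℝ) + 1))) = 1 := by
              field_simp
            rw [this, one_pow]
        _ ≤ (n * δ) * (c / (4 * ((K : ℝ) + 1))) ^ 2 :=
            mul_le_mul_of_nonneg_right hn3' (by positivity)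
    nlinarith
  obtain ⟨ha1, hfa⟩ := hC L hL1 a ha
  have ha0 : 0 < a := by linarith
  have hk2 : (k : ℝ) < (n : ℝ) / a * (1 + Real.log a) + 1 := by
    by_contra hge
    rw [not_lt] at hge
    exact hk (cov_colorable G a ha1 hcov k hge)
  apply hmin V G hn1 D hD1 hD2 hdeg
  have hsq : Real.sqrt (Real.log ((n : ℝ) / D) / Real.log n) = 1 / Real.sqrt L := by
    rw [hL, ← Real.sqrt_one, ← Real.sqrt_div zero_le_one]
    congr 1
    field_simp
  rw [hsq]
  push_cast
  have hK0 : (0 : ℝ) ≤ K := Nat.cast_nonneg K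
  have h1 : (n : ℝ) / a * (1 + Real.log a) ≤ n * (c / (2 * (K + 1)) / Real.sqrt L) := by
    calc (n : ℝ) / a * (1 + Real.log a) = n * ((1 + Real.log a) / a) := by ring
      _ ≤ n * (c / (2 * (K + 1)) / Real.sqrt L) := mul_le_mul_of_nonneg_left hfa hnpos.le
  have h2 : (2 : ℝ) ≤ n * (c / (2 * (K + 1)) / Real.sqrt L) := by
    rw [mul_div_assoc', mul_div_assoc', le_div_iff₀ hsL0]
    calc 2 * Real.sqrt L ≤ 2 * (c * n / (4 * (K + 1))) := by linarith
      _ = n * c / (2 * (K + 1)) := by
          field_simp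
          ring
  have h3 : (K : ℝ) * (k + 1) ≤ (K + 1) * ((n : ℝ) / a * (1 + Real.log a) + 2) := by
    have h4 : (0 : ℝ) ≤ k := Nat.cast_nonneg k
    calc (K : ℝ) * (k + 1) ≤ (K + 1) * (k + 1) := by nlinarith
      _ ≤ (K + 1) * ((n : ℝ) / a * (1 + Real.log a) + 2) :=
          mul_le_mul_of_nonneg_left (by linarith) (by linarith)
  calc (K : ℝ) * (k + 1) ≤ (K + 1) * ((n : ℝ) / a * (1 + Real.log a) + 2) := h3
    _ ≤ (K + 1) * (n * (c / (2 * (K + 1)) / Real.sqrt L) +
        n * (c / (2 * (K + 1)) / Real.sqrt L)) :=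
        mul_le_mul_of_nonneg_left (by linarith) (by linarith)
    _ = c * n * (1 / Real.sqrt L) := by
        field_simp
        ring

end Pool.Agent.Q112.KT
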