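import Pool.Agent.Q112.KT.Dense

/-!
# The Kostochka-Thomason theorem for all graphs

Every graph of average degree at least `d` has a clique minor of order `c d / √(log d)`.
Reduction to the dense case (Mader): among all families of disjoint connected sets take one with the
largest average degree of the quotient graph; the neighbourhood of a vertex of small degree is dense.
-/

set_option autoImplicit false

namespace Pool.Agent.Q112.KT

open Finset

/-- some edge joins `X` and `Y` -/
def Tch {V : Type} (G : SimpleGraph V) (X Y : Finset V) : Prop :=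
  ∃ u ∈ X, ∃ v ∈ Y, G.Adj u v

theorem Tch.symm {V : Type} {G : SimpleGraph V} {X Y : Finset V} (h : Tch G X Y) : Tch G Y X := by
  obtain ⟨u, hu, v, hv, huv⟩ := h
  exact ⟨v, hv, u, hu, huv.symm⟩

/-- a family of disjoint connected sets -/
structure IsModel {V : Type} (G : SimpleGraph V) (P : Finset (Finset V)) : Prop where
  conn : ∀ X ∈ P, (G.induce (X : Set V)).Connected
  disj : ∀ X ∈ P, ∀ Y ∈ P, X ≠ Y → Disjoint X Y

open Classical in
/-- the number of members of `Q` touching `X` -/
noncomputable def td {V : Type} (G : SimpleGraph V) (Q : Finset (Finset V)) (X : Finset V) : ℕ :=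
  (Q.filter (fun Y => Y ≠ X ∧ Tch G X Y)).card

/-- the number of ordered touching pairs -/
noncomputable def e2 {V : Type} (G : SimpleGraph V) (Q : Finset (Finset V)) : ℕ :=
  ∑ X ∈ Q, td G Q X

open Classical in
theorem e2_insert {V : Type} (G : SimpleGraph V) (Q : Finset (Finset V)) (X : Finset V)
    (hX : X ∉ Q) : e2 G (insert X Q) = e2 G Q + 2 * td G Q X := by
  unfold e2
  rw [Finset.sum_insert hX]
  have h1 : td G (insert X Q) X = td G Q X := by
    unfold td
    rw [Finset.filter_insert, if_neg (by simp)]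
  have h2 : ∀ Y ∈ Q, td G (insert X Q) Y = td G Q Y + if Tch G X Y then 1 else 0 := by
    intro Y hY
    unfold td
    have hne : X ≠ Y := fun h => hX (h ▸ hY)
    by_cases h : Tch G X Y
    · rw [Finset.filter_insert, if_pos ⟨hne, h.symm⟩, if_pos h,
        Finset.card_insert_of_notMem (fun h' => hX (mem_filter.1 h').1)]
    · rw [Finset.filter_insert, if_neg (fun h' => h h'.2.symm), if_neg h]
      rfl
  rw [h1, Finset.sum_congr rfl h2, Finset.sum_add_distrib]
  have h3 : ∑ Y ∈ Q, (if Tch G X Y then 1 else 0) = td G Q X := by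
    unfold td
    rw [← Finset.card_filter]
    congr 1
    apply Finset.filter_congr
    intro Y hY
    have hne : Y ≠ X := fun h => hX (h ▸ hY)
    simp [hne]
  rw [h3]
  ring

open Classical in
/-- contraction: the union of two touching members -/
theorem e2_contract {V : Type} (G : SimpleGraph V) (Q : Finset (Finset V)) (X Y : Finset V)
    (hX : X ∉ Q) (hY : Y ∉ insert X Q) (hXY : Tch G X Y) (hU : X ∪ Y ∉ Q) :
    e2 G (insert Y (insert X Q)) + 0 =
      e2 G (insert (X ∪ Y) Q) + 2 + 2 * (Q.filter (fun Z => Tch G X Z ∧ Tch G Y Z)).card := by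
  have hYQ : Y ∉ Q := fun h => hY (mem_insert_of_mem h)
  have hYX : X ≠ Y := fun h => hY (h ▸ mem_insert_self _ _)
  rw [e2_insert G _ _ hY, e2_insert G _ _ hX, e2_insert G _ _ hU]
  have h1 : td G (insert X Q) Y = td G Q Y + 1 := by
    unfold td
    rw [Finset.filter_insert, if_pos ⟨hYX, hXY.symm⟩,
      Finset.card_insert_of_notMem (fun h' => hX (mem_filter.1 h').1)]
  have f : ∀ Z : Finset V, Z ∉ Q → td G Q Z = (Q.filter (fun W => Tch G Z W)).card := by
    intro Z hZ
    unfold td
    congr 1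
    apply Finset.filter_congr
    intro W hW
    have hne : W ≠ Z := fun h => hZ (h ▸ hW)
    simp [hne]
  have h2 : (Q.filter (fun W => Tch G (X ∪ Y) W)) =
      Q.filter (fun W => Tch G X W) ∪ Q.filter (fun W => Tch G Y W) := by
    rw [← Finset.filter_or]
    apply Finset.filter_congr
    intro W _
    unfold Tch
    constructor
    · rintro ⟨u, hu, v, hv, huv⟩
      rcases Finset.mem_union.1 hu with h | h
      · exact Or.inl ⟨u, h, v, hv, huv⟩
      · exact Or.inr ⟨u, h, v, hv, huv⟩
    · rintro (⟨u, hu, v, hv, huv⟩ | ⟨u, hu, v, hv, huv⟩)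
      · exact ⟨u, Finset.mem_union_left _ hu, v, hv, huv⟩
      · exact ⟨u, Finset.mem_union_right _ hu, v, hv, huv⟩
  have h3 : (Q.filter (fun W => Tch G X W) ∩ Q.filter (fun W => Tch G Y W)) =
      Q.filter (fun Z => Tch G X Z ∧ Tch G Y Z) := by
    ext W
    simp only [mem_inter, mem_filter]
    tauto
  have h4 := Finset.card_union_add_card_inter (Q.filter (fun W => Tch G X W))
    (Q.filter (fun W => Tch G Y W))
  rw [h3] at h4
  rw [h1, f Y hYQ, f X hX, f _ hU, h2]
  omega

/-- union of touching connected sets -/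
theorem conn_union {V : Type} [DecidableEq V] (G : SimpleGraph V) (X Y : Finset V)
    (hX : (G.induce (X : Set V)).Connected) (hY : (G.induce (Y : Set V)).Connected)
    (h : Tch G X Y) : (G.induce ((X ∪ Y : Finset V) : Set V)).Connected := by
  obtain ⟨u, hu, v, hv, huv⟩ := h
  rw [Finset.coe_union]
  exact SimpleGraph.connected_induce_union hX.preconnected hY.preconnected hu hv huv

/-- composition of minors -/
theorem hasMinor_comp {V : Type} (G : SimpleGraph V) (Q : Finset (Finset V)) (hQ : IsModel G Q)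
    (H : SimpleGraph {X // X ∈ Q}) (hH : ∀ X Y, H.Adj X Y → Tch G X.1 Y.1) (t : ℕ)
    (h : HasMinor H t) : HasMinor G t := by
  obtain ⟨f, h1, h2, h3⟩ := h
  refine ⟨fun a => {v | ∃ X ∈ f a, v ∈ X.1}, ?_, ?_, ?_⟩
  · intro a
    set F : Set V := {v | ∃ X ∈ f a, v ∈ X.1} with hF
    have hsub : ∀ X ∈ f a, (X.1 : Set V) ⊆ F := fun X hX v hv => ⟨X, hX, hv⟩
    -- two vertices in the same member
    have hin : ∀ X ∈ f a, ∀ (x y : V) (hx : x ∈ X.1) (hy : y ∈ X.1) (hx' : x ∈ F) (hy' : y ∈ F),
        (G.induce F).Reachable ⟨x, hx'⟩ ⟨y, hy'⟩ := by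
      intro X hX x y hx hy hx' hy'
      have hc := (hQ.conn X.1 X.2).preconnected ⟨x, hx⟩ ⟨y, hy⟩
      exact hc.map (SimpleGraph.induceHomOfLE G (hsub X hX)).toHom
    have hadj : ∀ X ∈ f a, ∀ Y ∈ f a, H.Adj X Y → ∀ (x y : V) (_ : x ∈ X.1) (_ : y ∈ Y.1)
        (hx' : x ∈ F) (hy' : y ∈ F), (G.induce F).Reachable ⟨x, hx'⟩ ⟨y, hy'⟩ := by
      intro X hX Y hY hXY x y hx hy hx' hy'
      obtain ⟨u, hu, v, hv, huv⟩ := hH X Y hXY
      have e1 := hin X hX x u hx hu hx' (hsub X hX hu)
      have e2 := hin Y hY v y hv hy (hsub Y hY hv) hy'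
      have e3 : (G.induce F).Adj ⟨u, hsub X hX hu⟩ ⟨v, hsub Y hY hv⟩ := huv
      exact (e1.trans e3.reachable).trans e2
    obtain ⟨X0⟩ := (h1 a).nonempty
    obtain ⟨x0⟩ := (hQ.conn X0.1.1 X0.1.2).nonempty
    have : Nonempty F := ⟨⟨x0.1, hsub X0.1 X0.2 x0.2⟩⟩
    refine SimpleGraph.Connected.mk ?_
    -- reachability of all vertices
    have key : ∀ (X Y : f a), (H.induce (f a)).Reachable X Y → ∀ (x y : V) (_ : x ∈ X.1.1)
        (_ : y ∈ Y.1.1) (hx' : x ∈ F) (hy' : y ∈ F),
        (G.induce F).Reachable ⟨x, hx'⟩ ⟨y, hy'⟩ := by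
      intro X Y hXY
      rw [SimpleGraph.reachable_iff_reflTransGen] at hXY
      induction hXY with
      | refl =>
        intro x y hx hy hx' hy'
        exact hin X.1 X.2 x y hx hy hx' hy'
      | @tail Y Z _ hYZ ih =>
        intro x z hx hz hx' hz'
        obtain ⟨y⟩ := (hQ.conn Y.1.1 Y.1.2).nonempty
        have hy' : y.1 ∈ F := hsub Y.1 Y.2 y.2
        exact (ih x y.1 hx y.2 hx' hy').trans (hadj Y.1 Y.2 Z.1 Z.2 hYZ y.1 z y.2 hz hy' hz')
    rintro ⟨x, hx⟩ ⟨y, hy⟩
    obtain ⟨X, hX, hxX⟩ := hx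
    obtain ⟨Y, hY, hyY⟩ := hy
    exact key ⟨X, hX⟩ ⟨Y, hY⟩ ((h1 a).preconnected _ _) x y hxX hyY _ _
  · intro i j hij
    rw [Set.disjoint_left]
    rintro v ⟨X, hX, hvX⟩ ⟨Y, hY, hvY⟩
    have hne : X ≠ Y := by
      rintro rfl
      exact (Set.disjoint_left.1 (h2 i j hij)) hX hY
    have hne' : X.1 ≠ Y.1 := fun h => hne (Subtype.ext h)
    exact (Finset.disjoint_left.1 (hQ.disj X.1 X.2 Y.1 Y.2 hne')) hvX hvY
  · intro i j hij
    obtain ⟨X, hX, Y, hY, hXY⟩ := h3 i j hij
    obtain ⟨u, hu, v, hv, huv⟩ := hH X Y hXY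
    exact ⟨u, ⟨X, hX, hu⟩, v, ⟨Y, hY, hv⟩, huv⟩


open Classical in
/-- Mader's reduction: a graph with average degree at least `2 d` has a minor with `m` vertices,
`d ≤ m`, and minimum degree at least `(m - 2) / 2`. -/
theorem mader {V : Type} [Fintype V] [Nonempty V] (G : SimpleGraph V) (d : ℝ) (hd : 0 < d)
    (hG : 2 * d * (Fintype.card V : ℝ) ≤ ∑ v : V, (dg G univ v : ℝ)) :
    ∃ (Q : Finset (Finset V)) (X : Finset V), IsModel G Q ∧ X ∉ Q ∧
      (∀ Y ∈ Q, Tch G X Y) ∧ d ≤ Q.card ∧
      ∀ Y ∈ Q, (Q.card : ℝ) / 2 - 1 ≤ ((Q.filter (fun Z => Z ≠ Y ∧ Tch G Y Z)).card : ℝ) := by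
  -- the models
  set 𝓜 : Finset (Finset (Finset V)) := univ.filter (fun P => IsModel G P ∧ P.Nonempty) with h𝓜
  -- the model of all singletons
  set S : Finset (Finset V) := univ.image (fun v : V => ({v} : Finset V)) with hS
  have hSmem : ∀ X, X ∈ S ↔ ∃ v : V, X = {v} := by
    intro X
    rw [hS, mem_image]
    constructor
    · rintro ⟨v, _, h⟩
      exact ⟨v, h.symm⟩
    · rintro ⟨v, h⟩
      exact ⟨v, mem_univ _, h.symm⟩
  have hSmodel : IsModel G S := by
    refine ⟨?_, ?_⟩
    · intro X hX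
      obtain ⟨v, rfl⟩ := (hSmem X).1 hX
      rw [Finset.coe_singleton]
      haveI : Subsingleton ({v} : Set V) := ⟨fun a b => Subtype.ext (a.2.trans b.2.symm)⟩
      haveI : Nonempty ({v} : Set V) := ⟨⟨v, rfl⟩⟩
      exact SimpleGraph.Connected.mk (fun a b => by
        rw [Subsingleton.elim a b])
    · intro X hX Y hY hXY
      obtain ⟨v, rfl⟩ := (hSmem X).1 hX
      obtain ⟨w, rfl⟩ := (hSmem Y).1 hY
      rw [Finset.disjoint_singleton]
      rintro rfl
      exact hXY rfl
  have hScard : S.card = Fintype.card V := by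
    rw [hS, Finset.card_image_of_injective _ (Finset.singleton_injective), Finset.card_univ]
  have hSe : (e2 G S : ℝ) = ∑ v : V, (dg G univ v : ℝ) := by
    have h1 : ∀ v : V, td G S {v} = dg G univ v := by
      intro v
      unfold td dg
      symm
      apply Finset.card_bij (fun w _ => ({w} : Finset V))
      · intro w hw
        have hw' := (mem_filter.1 hw).2
        rw [mem_filter]
        refine ⟨(hSmem _).2 ⟨w, rfl⟩, ?_, ?_⟩
        · intro h
          rw [Finset.singleton_inj] at h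
          exact hw'.ne h.symm
        · exact ⟨v, mem_singleton_self v, w, mem_singleton_self w, hw'⟩
      · intro w _ w' _ h
        exact Finset.singleton_injective h
      · intro Y hY
        rw [mem_filter] at hY
        obtain ⟨w, rfl⟩ := (hSmem Y).1 hY.1
        obtain ⟨u, hu, z, hz, huz⟩ := hY.2.2
        rw [mem_singleton] at hu hz
        subst hu hz
        exact ⟨z, mem_filter.2 ⟨mem_univ _, huz⟩, rfl⟩
    unfold e2
    rw [hS, Finset.sum_image (fun a _ b _ h => Finset.singleton_injective h)]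
    push_cast
    apply Finset.sum_congr rfl
    intro v _
    rw [← hS, h1]
  have hSM : S ∈ 𝓜 := by
    rw [h𝓜, mem_filter]
    obtain ⟨v⟩ := ‹Nonempty V›
    exact ⟨mem_univ _, hSmodel, ⟨{v}, (hSmem _).2 ⟨v, rfl⟩⟩⟩
  obtain ⟨P, hP, hmax⟩ := Finset.exists_max_image 𝓜
    (fun P => (e2 G P : ℝ) / P.card) ⟨S, hSM⟩
  rw [h𝓜, mem_filter] at hP
  obtain ⟨_, hPmodel, hPne⟩ := hP
  have hP0 : (0 : ℝ) < P.card := by exact_mod_cast hPne.card_pos
  set D : ℝ := (e2 G P : ℝ) / P.card with hD
  have hDe : (e2 G P : ℝ) = D * P.card := by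
    rw [hD]
    field_simp
  have hV0 : (0 : ℝ) < Fintype.card V := by exact_mod_cast Fintype.card_pos
  have hDd : 2 * d ≤ D := by
    have h1 := hmax S hSM
    have h2 : 2 * d ≤ (e2 G S : ℝ) / S.card := by
      rw [hScard, hSe, le_div_iff₀ hV0]
      exact hG
    exact h2.trans h1
  -- the maximality
  have hmax' : ∀ P', IsModel G P' → (e2 G P' : ℝ) ≤ D * P'.card := by
    intro P' hP'
    rcases P'.eq_empty_or_nonempty with h | h
    · rw [h]
      simp [e2]
    · have h1 := hmax P' (by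
        rw [h𝓜, mem_filter]
        exact ⟨mem_univ _, hP', h⟩)
      have h0 : (0 : ℝ) < P'.card := by exact_mod_cast h.card_pos
      rw [div_le_iff₀ h0] at h1
      exact h1
  -- subfamilies of models
  have hsubm : ∀ P' ⊆ P, IsModel G P' := fun P' h =>
    ⟨fun X hX => hPmodel.conn X (h hX), fun X hX Y hY => hPmodel.disj X (h hX) Y (h hY)⟩
  -- a member with at most average degree
  obtain ⟨X, hXP, hXdeg⟩ : ∃ X ∈ P, (td G P X : ℝ) ≤ D := by
    by_contra hno
    push Not at hno
    have h1 : ∑ X ∈ P, D < ∑ X ∈ P, (td G P X : ℝ) := Finset.sum_lt_sum_of_nonempty hPne hno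
    rw [Finset.sum_const, nsmul_eq_mul] at h1
    have h2 : (e2 G P : ℝ) = ∑ X ∈ P, (td G P X : ℝ) := by
      unfold e2
      push_cast
      rfl
    rw [← h2, hDe] at h1
    linarith
  set R : Finset (Finset V) := P.erase X with hR
  have hXR : X ∉ R := Finset.notMem_erase X P
  have hPR : insert X R = P := Finset.insert_erase hXP
  have htdR : td G P X = td G R X := by
    unfold td
    rw [← hPR, Finset.filter_insert, if_neg (by simp)]
  have hRcard : (P.card : ℝ) = R.card + 1 := by
    rw [← hPR, Finset.card_insert_of_notMem hXR]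
    push_cast
    rfl
  -- the degree of `X` is at least `D / 2`
  have hXlow : D / 2 ≤ (td G R X : ℝ) := by
    have h1 := hmax' R (hsubm R (Finset.erase_subset _ _))
    have h2 := e2_insert G R X hXR
    rw [hPR] at h2
    have h2' : (e2 G P : ℝ) = e2 G R + 2 * td G R X := by exact_mod_cast h2
    rw [hDe, hRcard] at h2'
    nlinarith
  set Q : Finset (Finset V) := R.filter (fun Y => Tch G X Y) with hQ
  have hQtd : td G R X = Q.card := by
    unfold td
    rw [hQ]
    congr 1
    apply Finset.filter_congr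
    intro Y hY
    have hne : Y ≠ X := fun h => hXR (h ▸ hY)
    simp [hne]
  have hQR : Q ⊆ R := Finset.filter_subset _ _
  refine ⟨Q, X, hsubm Q (hQR.trans (Finset.erase_subset _ _)), fun h => hXR (hQR h),
    fun Y hY => (mem_filter.1 hY).2, ?_, ?_⟩
  · rw [← hQtd]
    linarith
  · intro Y hY
    have hYR : Y ∈ R := hQR hY
    have hYX : Y ≠ X := fun h => hXR (h ▸ hYR)
    have hXY : Tch G X Y := (mem_filter.1 hY).2
    set T : Finset (Finset V) := R.erase Y with hT
    have hYT : Y ∉ T := Finset.notMem_erase Y R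
    have hTR : insert Y T = R := Finset.insert_erase hYR
    have hXT : X ∉ T := fun h => hXR (Finset.erase_subset _ _ h)
    have hYXT : Y ∉ insert X T := by
      rw [mem_insert, not_or]
      exact ⟨hYX, hYT⟩
    have hPT : insert Y (insert X T) = P := by
      rw [Finset.insert_comm, hTR, hPR]
    have hYP : Y ∈ P := Finset.erase_subset _ _ hYR
    have hYne : Y.Nonempty := by
      obtain ⟨y⟩ := (hPmodel.conn Y hYP).nonempty
      exact ⟨y.1, y.2⟩
    have hTP : T ⊆ P := (Finset.erase_subset _ _).trans (Finset.erase_subset _ _)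
    have hXYd : Disjoint X Y := hPmodel.disj X hXP Y hYP (Ne.symm hYX)
    have hU : X ∪ Y ∉ T := by
      intro h
      obtain ⟨y, hy⟩ := hYne
      have hne : X ∪ Y ≠ Y := by
        intro h'
        rw [h'] at h
        exact hYT h
      have := hPmodel.disj (X ∪ Y) (hTP h) Y hYP hne
      exact (Finset.disjoint_left.1 this) (Finset.mem_union_right _ hy) hy
    have hc := e2_contract G T X Y hXT hYXT hXY hU
    rw [hPT, add_zero] at hc
    have hmodel' : IsModel G (insert (X ∪ Y) T) := by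
      refine ⟨?_, ?_⟩
      · intro Z hZ
        rw [mem_insert] at hZ
        rcases hZ with rfl | hZ
        · exact conn_union G X Y (hPmodel.conn X hXP) (hPmodel.conn Y hYP) hXY
        · exact hPmodel.conn Z (hTP hZ)
      · have key : ∀ Z ∈ T, Disjoint (X ∪ Y) Z := by
          intro Z hZ
          rw [Finset.disjoint_union_left]
          refine ⟨hPmodel.disj X hXP Z (hTP hZ) ?_, hPmodel.disj Y hYP Z (hTP hZ) ?_⟩
          · rintro rfl
            exact hXT hZ
          · rintro rfl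
            exact hYT hZ
        intro Z hZ W hW hZW
        rw [mem_insert] at hZ hW
        rcases hZ with rfl | hZ
        · rcases hW with rfl | hW
          · exact absurd rfl hZW
          · exact key W hW
        · rcases hW with rfl | hW
          · exact (key Z hZ).symm
          · exact hPmodel.disj Z (hTP hZ) W (hTP hW) hZW
    have h1 := hmax' _ hmodel'
    rw [Finset.card_insert_of_notMem hU] at h1
    have hTc : (R.card : ℝ) = T.card + 1 := by
      rw [← hTR, Finset.card_insert_of_notMem hYT]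
      push_cast
      rfl
    have hc' : (e2 G P : ℝ) = e2 G (insert (X ∪ Y) T) + 2 +
        2 * ((T.filter (fun Z => Tch G X Z ∧ Tch G Y Z)).card : ℝ) := by exact_mod_cast hc
    push_cast at h1
    rw [hDe, hRcard, hTc] at hc'
    have h2 : D / 2 - 1 ≤ ((T.filter (fun Z => Tch G X Z ∧ Tch G Y Z)).card : ℝ) := by
      nlinarith
    have h3 : (T.filter (fun Z => Tch G X Z ∧ Tch G Y Z)).card ≤
        (Q.filter (fun Z => Z ≠ Y ∧ Tch G Y Z)).card := by
      apply Finset.card_le_card
      intro Z hZ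
      rw [mem_filter] at hZ ⊢
      refine ⟨?_, ?_, hZ.2.2⟩
      · rw [hQ, mem_filter]
        exact ⟨Finset.erase_subset _ _ hZ.1, hZ.2.1⟩
      · rintro rfl
        exact hYT hZ.1
    have h3' : ((T.filter (fun Z => Tch G X Z ∧ Tch G Y Z)).card : ℝ) ≤
        ((Q.filter (fun Z => Z ≠ Y ∧ Tch G Y Z)).card : ℝ) := by exact_mod_cast h3
    have h4 : (Q.card : ℝ) ≤ D := by
      rw [← hQtd, ← htdR]
      exact hXdeg
    linarith

open Classical in
/-- **The Kostochka-Thomason theorem**: every graph with average degree at least `2 d` has a clique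
minor of order `c d / √(log d)`. -/
theorem kt : ∃ c : ℝ, 0 < c ∧ ∃ d0 : ℝ, 3 ≤ d0 ∧ ∀ (V : Type) [Fintype V] [Nonempty V]
    (G : SimpleGraph V) (d : ℝ), d0 ≤ d →
    2 * d * (Fintype.card V : ℝ) ≤ ∑ v : V, (dg G univ v : ℝ) →
    ∀ t : ℕ, (t : ℝ) ≤ c * d / Real.sqrt (Real.log d) → HasMinor G t := by
  obtain ⟨c, hc, n0, h⟩ := dense_minor (1 / 4) (by norm_num)
  refine ⟨c, hc, max n0 4, by
    have : (4 : ℝ) ≤ max (n0 : ℝ) 4 := le_max_right _ _
    linarith, ?_⟩
  intro V _ _ G d hd hG t ht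
  have hd1 : (n0 : ℝ) ≤ d := (le_max_left _ _).trans hd
  have hd4 : (4 : ℝ) ≤ d := (le_max_right _ _).trans hd
  have hd0 : 0 < d := by linarith
  obtain ⟨Q, X, hQ, hXQ, hXT, hdQ, hdeg⟩ := mader G d hd0 hG
  obtain ⟨H, hH⟩ : ∃ H : SimpleGraph {Y // Y ∈ Q},
      ∀ Y Z, H.Adj Y Z ↔ Y ≠ Z ∧ Tch G Y.1 Z.1 :=
    ⟨{ Adj := fun Y Z => Y ≠ Z ∧ Tch G Y.1 Z.1
       symm := ⟨fun _ _ h => ⟨h.1.symm, h.2.symm⟩⟩
       loopless := ⟨fun _ h => h.1 rfl⟩ }, fun _ _ => Iff.rfl⟩
  apply hasMinor_comp G Q hQ H (fun Y Z h => ((hH Y Z).1 h).2)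
  have hcard : Fintype.card {Y // Y ∈ Q} = Q.card := Fintype.card_coe Q
  have hQ0 : (0 : ℝ) < Q.card := by linarith
  apply h {Y // Y ∈ Q} H
  · rw [hcard]
    exact_mod_cast hd1.trans hdQ
  · intro Y
    have h1 : dg H univ Y = (Q.filter (fun Z => Z ≠ Y.1 ∧ Tch G Y.1 Z)).card := by
      unfold dg
      apply Finset.card_bij (fun Z _ => Z.1)
      · intro Z hZ
        have hZ' := (hH _ _).1 (mem_filter.1 hZ).2
        rw [mem_filter]
        exact ⟨Z.2, fun h' => hZ'.1 (Subtype.ext h'.symm), hZ'.2⟩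
      · intro Z _ Z' _ h'
        exact Subtype.ext h'
      · intro Z hZ
        rw [mem_filter] at hZ
        refine ⟨⟨Z, hZ.1⟩, mem_filter.2 ⟨mem_univ _, (hH _ _).2 ⟨?_, hZ.2.2⟩⟩, rfl⟩
        intro h'
        exact hZ.2.1 (congrArg Subtype.val h').symm
    rw [h1, hcard]
    have h2 := hdeg Y.1 Y.2
    linarith
  · rw [hcard]
    refine ht.trans ?_
    have hlogd : 1 ≤ Real.log d := by
      rw [Real.le_log_iff_exp_le hd0]
      have := Real.exp_one_lt_d9
      linarith
    have hlogQ : Real.log Q.card ≤ (Q.card : ℝ) / d * Real.log d := by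
      have h1 : Real.log (Q.card : ℝ) = Real.log ((Q.card : ℝ) / d) + Real.log d := by
        rw [← Real.log_mul (by positivity) (by positivity)]
        congr 1
        field_simp
      have h2 := Real.log_le_sub_one_of_pos (by positivity : 0 < (Q.card : ℝ) / d)
      have h3 : 1 ≤ (Q.card : ℝ) / d := by
        rw [le_div_iff₀ hd0]
        linarith
      nlinarith
    have hlogQ0 : 0 < Real.log (Q.card : ℝ) := Real.log_pos (by linarith)
    have hsq : Real.sqrt (Real.log Q.card) ≤ (Q.card : ℝ) / d * Real.sqrt (Real.log d) := by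
      apply Real.sqrt_le_iff.2
      refine ⟨by positivity, ?_⟩
      rw [mul_pow, Real.sq_sqrt (by linarith)]
      refine hlogQ.trans ?_
      have h3 : 1 ≤ (Q.card : ℝ) / d := by
        rw [le_div_iff₀ hd0]
        linarith
      nlinarith
    rw [div_le_div_iff₀ (Real.sqrt_pos.2 (by linarith)) (Real.sqrt_pos.2 hlogQ0)]
    calc c * d * Real.sqrt (Real.log Q.card)
        ≤ c * d * ((Q.card : ℝ) / d * Real.sqrt (Real.log d)) :=
          mul_le_mul_of_nonneg_left hsq (by positivity)
      _ = c * (Q.card : ℝ) * Real.sqrt (Real.log d) := by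
          field_simp

end Pool.Agent.Q112.KT
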