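import Pool.Agent.Q112.KT.SRG2

/-!
# The second eigenvalue and the multiplicities of the eigenvalues
-/

set_option autoImplicit false

namespace Pool.Agent.Q112.KT

open Finset

/-- the functions of sum zero with `A f = ν f` -/
def eigW {V : Type} [Fintype V] (A : Matrix V V ℝ) (ν : ℝ) : Submodule ℝ (V → ℝ) where
  carrier := {f | ∑ v, f v = 0 ∧ A.mulVec f = ν • f}
  add_mem' := by
    rintro f g ⟨hf1, hf2⟩ ⟨hg1, hg2⟩
    refine ⟨?_, ?_⟩
    · simp only [Pi.add_apply]
      rw [Finset.sum_add_distrib, hf1, hg1, add_zero]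
    · rw [Matrix.mulVec_add, hf2, hg2, smul_add]
  zero_mem' := ⟨by simp, by simp⟩
  smul_mem' := by
    rintro c f ⟨hf1, hf2⟩
    refine ⟨?_, ?_⟩
    · simp only [Pi.smul_apply, smul_eq_mul]
      rw [← Finset.mul_sum, hf1, mul_zero]
    · rw [Matrix.mulVec_smul, hf2, smul_comm]

theorem mem_eigW {V : Type} [Fintype V] (A : Matrix V V ℝ) (ν : ℝ) (f : V → ℝ) :
    f ∈ eigW A ν ↔ ∑ v, f v = 0 ∧ A.mulVec f = ν • f := Iff.rfl

theorem spec_of_mult {V : Type} [Fintype V] [DecidableEq V] (A : Matrix V V ℝ)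
    (hsymm : ∀ x y, A x y = A y x) (d : ℝ) (hrow : ∀ x, ∑ y, A x y = d) (m : ℝ) (hm : 0 < m)
    (hmult : ∀ ν : ℝ, eigW A ν ≠ ⊥ → m ≤ Module.finrank ℝ (eigW A ν)) :
    Spec A (Real.sqrt ((∑ x, ∑ y, A x y ^ 2) / m)) := by
  set F : ℝ := ∑ x, ∑ y, A x y ^ 2 with hF
  have hF0 : 0 ≤ F := Finset.sum_nonneg fun x _ => Finset.sum_nonneg fun y _ => sq_nonneg _
  set T : EuclideanSpace ℝ V →ₗ[ℝ] EuclideanSpace ℝ V := Matrix.toEuclideanLin A with hT
  have hTapp : ∀ (x : EuclideanSpace ℝ V) (v : V), T x v = A.mulVec (WithLp.ofLp x) v := by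
    intro x v
    rfl
  have hTs : T.IsSymmetric := by
    apply Matrix.isSymmetric_toEuclideanLin_iff.mpr
    apply Matrix.IsHermitian.ext
    intro i j
    simp only [star_trivial]
    exact hsymm j i
  let W : Submodule ℝ (EuclideanSpace ℝ V) :=
    { carrier := {x | ∑ v, x v = 0}
      add_mem' := by
        intro x y hx hy
        simp only [Set.mem_setOf_eq, PiLp.add_apply] at hx hy ⊢
        rw [Finset.sum_add_distrib, hx, hy, add_zero]
      zero_mem' := by simp
      smul_mem' := by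
        intro c x hx
        simp only [Set.mem_setOf_eq, PiLp.smul_apply, smul_eq_mul] at hx ⊢
        rw [← Finset.mul_sum, hx, mul_zero] }
  have hWmem : ∀ x : EuclideanSpace ℝ V, x ∈ W ↔ ∑ v, x v = 0 := fun x => Iff.rfl
  have hsumA : ∀ f : V → ℝ, ∑ v, A.mulVec f v = d * ∑ v, f v := by
    intro f
    unfold Matrix.mulVec dotProduct
    rw [Finset.sum_comm, Finset.mul_sum]
    apply Finset.sum_congr rfl
    intro w _
    rw [← Finset.sum_mul]
    congr 1
    rw [← hrow w]
    apply Finset.sum_congr rfl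
    intro v _
    exact hsymm v w
  have hW : ∀ x ∈ W, T x ∈ W := by
    intro x hx
    rw [hWmem] at hx ⊢
    have h1 : ∑ v, T x v = ∑ v, A.mulVec (WithLp.ofLp x) v :=
      Finset.sum_congr rfl (fun v _ => hTapp x v)
    rw [h1, hsumA]
    have h2 : ∑ v, (WithLp.ofLp x) v = 0 := hx
    rw [h2, mul_zero]
  set S : W →ₗ[ℝ] W := T.restrict hW with hS
  have hSs : S.IsSymmetric := hTs.restrict_invariant hW
  set b := hSs.eigenvectorBasis rfl with hb
  set ev := hSs.eigenvalues rfl with hev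
  have hSb : ∀ i, S (b i) = ev i • b i := by
    intro i
    have := hSs.apply_eigenvectorBasis rfl i
    exact this
  -- Bessel
  have hbessel : ∑ i, ev i ^ 2 ≤ F := by
    have h1 : ∀ i, ev i ^ 2 = ∑ v, (inner ℝ (((b i : W) : EuclideanSpace ℝ V))
        (WithLp.toLp 2 (A v) : EuclideanSpace ℝ V)) ^ 2 := by
      intro i
      have h2 : ‖S (b i)‖ ^ 2 = ev i ^ 2 := by
        rw [hSb, norm_smul, b.norm_eq_one, mul_one, Real.norm_eq_abs, sq_abs]
      have h3 : ‖S (b i)‖ ^ 2 = ‖T ((b i : W) : EuclideanSpace ℝ V)‖ ^ 2 := rfl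
      rw [← h2, h3, EuclideanSpace.real_norm_sq_eq]
      apply Finset.sum_congr rfl
      intro v _
      congr 1
    have h4 : ∑ i, ev i ^ 2 = ∑ v, ∑ i, (inner ℝ (((b i : W) : EuclideanSpace ℝ V))
        (WithLp.toLp 2 (A v) : EuclideanSpace ℝ V)) ^ 2 := by
      rw [Finset.sum_congr rfl (fun i _ => h1 i), Finset.sum_comm]
    rw [h4, hF]
    apply Finset.sum_le_sum
    intro v _
    have horth : Orthonormal ℝ (fun i => ((b i : W) : EuclideanSpace ℝ V)) :=
      b.orthonormal.comp_linearIsometry W.subtypeₗᵢ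
    have h5 := horth.sum_inner_products_le (x := (WithLp.toLp 2 (A v) : EuclideanSpace ℝ V))
      (s := Finset.univ)
    rw [EuclideanSpace.real_norm_sq_eq] at h5
    simp only [Real.norm_eq_abs, sq_abs] at h5
    exact h5
  -- each eigenvalue
  have hevle : ∀ i, ev i ^ 2 ≤ F / m := by
    intro i
    rw [le_div_iff₀ hm]
    set ν := ev i with hν
    have hmem : (WithLp.ofLp ((b i : W) : EuclideanSpace ℝ V)) ∈ eigW A ν := by
      rw [mem_eigW]
      refine ⟨(b i).2, ?_⟩
      have h1 : T ((b i : W) : EuclideanSpace ℝ V) = ν • ((b i : W) : EuclideanSpace ℝ V) := by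
        have h2 := congrArg (fun w : W => (w : EuclideanSpace ℝ V)) (hSb i)
        exact h2
      ext v
      have h3 := congrArg (fun w : EuclideanSpace ℝ V => w v) h1
      simp only [hTapp] at h3
      rw [h3]
      rfl
    have hne : eigW A ν ≠ ⊥ := by
      intro h
      rw [h, Submodule.mem_bot] at hmem
      have h1 : (b i : W) = 0 := by
        apply Subtype.ext
        ext v
        exact congrFun hmem v
      have h2 := b.norm_eq_one i
      rw [h1, norm_zero] at h2
      exact zero_ne_one h2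
    have hm2 := hmult ν hne
    -- inject into the eigenspace of `S`
    let Φ : eigW A ν →ₗ[ℝ] Module.End.eigenspace S ν :=
      { toFun := fun g => ⟨⟨WithLp.toLp 2 g.1, g.2.1⟩, by
          rw [Module.End.mem_eigenspace_iff]
          apply Subtype.ext
          ext v
          have h1 := congrFun g.2.2 v
          exact h1⟩
        map_add' := fun g h => rfl
        map_smul' := fun c g => rfl }
    have hΦ : Function.Injective Φ := by
      intro g h hgh
      apply Subtype.ext
      have h1 := congrArg (fun w : Module.End.eigenspace S ν =>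
        WithLp.ofLp (((w : W) : EuclideanSpace ℝ V))) hgh
      exact h1
    have h1 := LinearMap.finrank_le_finrank_of_injective hΦ
    have h2 := hSs.card_filter_eigenvalues_eq rfl ν
    have h3 : m ≤ ((univ.filter (fun j => ev j = ν)).card : ℝ) := by
      refine hm2.trans ?_
      have h4 : Module.finrank ℝ (eigW A ν) ≤ (univ.filter (fun j => ev j = ν)).card := by
        refine h1.trans (le_of_eq ?_)
        rw [← h2]
        rfl
      exact_mod_cast h4
    calc ν ^ 2 * m ≤ ν ^ 2 * ((univ.filter (fun j => ev j = ν)).card : ℝ) :=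
          mul_le_mul_of_nonneg_left h3 (sq_nonneg _)
      _ = ∑ j ∈ univ.filter (fun j => ev j = ν), ev j ^ 2 := by
          rw [Finset.sum_congr rfl (fun j hj => by rw [(Finset.mem_filter.1 hj).2]),
            Finset.sum_const, nsmul_eq_mul, mul_comm]
      _ ≤ ∑ j, ev j ^ 2 := Finset.sum_le_sum_of_subset_of_nonneg (Finset.filter_subset _ _)
          (fun j _ _ => sq_nonneg _)
      _ ≤ F := hbessel
  intro x hx
  rw [Real.sq_sqrt (by positivity)]
  set y : W := ⟨WithLp.toLp 2 x, hx⟩ with hy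
  have h1 : ∑ v, (A.mulVec x v) ^ 2 = ‖S y‖ ^ 2 := by
    have h2 : ‖S y‖ ^ 2 = ‖T (WithLp.toLp 2 x)‖ ^ 2 := rfl
    rw [h2, EuclideanSpace.real_norm_sq_eq]
    rfl
  have h2 : ∑ v, x v ^ 2 = ‖y‖ ^ 2 := by
    have h3 : ‖y‖ ^ 2 = ‖(WithLp.toLp 2 x : EuclideanSpace ℝ V)‖ ^ 2 := rfl
    rw [h3, EuclideanSpace.real_norm_sq_eq]
  rw [h1, h2, ← b.repr.norm_map (S y), ← b.repr.norm_map y, EuclideanSpace.real_norm_sq_eq,
    EuclideanSpace.real_norm_sq_eq, Finset.mul_sum]
  apply Finset.sum_le_sum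
  intro i _
  have h3 := hSs.eigenvectorBasis_apply_self_apply rfl y i
  have h4 : b.repr (S y) i = ev i * b.repr y i := h3
  rw [h4, mul_pow]
  exact mul_le_mul_of_nonneg_right (hevle i) (sq_nonneg _)

end Pool.Agent.Q112.KT
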