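import Pool.Agent.Q112.KT.SRG

/-!
# Strongly regular graphs: the difference of the parameters and the second eigenvalue
-/

set_option autoImplicit false

namespace Pool.Agent.Q112.KT

open Finset

theorem delta_bound {V : Type} [Fintype V] [DecidableEq V] [Nonempty V] (A : Matrix V V ℝ)
    (h01 : ∀ x y, x ≠ y → A x y = 0 ∨ A x y = 1) (hdiag : ∀ x, A x x = 0)
    (k κ δ μ : ℝ) (hk : k = κ + μ) (hκ : 1 ≤ κ) (hμ : 0 < μ) (hδ : -μ ≤ δ)
    (hA2 : A * A = κ • (1 : Matrix V V ℝ) + δ • A + μ • allOnes V)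
    (hAJ : A * allOnes V = k • allOnes V) (hJA : allOnes V * A = k • allOnes V)
    (h4 : 4 ≤ (Fintype.card V : ℝ)) (hkn : k + 1 < (Fintype.card V : ℝ)) :
    δ ^ 2 ≤ 4 * Real.sqrt (Fintype.card V) * k := by
  set n : ℝ := (Fintype.card V : ℝ) with hnd
  have hk1 : 1 ≤ k := by linarith
  have hk0 : 0 < k := by linarith
  have hn0 : 0 < n := by linarith
  -- the relation between the parameters
  have hrel : μ * n = k ^ 2 - k * δ - κ := by
    have h1 : (A * A) * allOnes V = (k * k) • allOnes V := by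
      rw [Matrix.mul_assoc, hAJ, Matrix.mul_smul, hAJ, smul_smul]
    rw [hA2, add_mul, add_mul, smul_mul_assoc, smul_mul_assoc, smul_mul_assoc, one_mul, hAJ,
      allOnes_mul] at h1
    obtain ⟨x⟩ := ‹Nonempty V›
    have h2 := congrFun (congrFun h1 x) x
    simp only [Matrix.add_apply, Matrix.smul_apply, smul_eq_mul, allOnes_apply] at h2
    rw [← hnd] at h2
    linarith
  set s : ℝ := Real.sqrt (δ ^ 2 + 4 * κ) with hs
  have hss : s ^ 2 = δ ^ 2 + 4 * κ := Real.sq_sqrt (by positivity)
  have hs0 : 0 ≤ s := Real.sqrt_nonneg _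
  have hsδ : |δ| < s := by
    rw [hs]
    apply Real.lt_sqrt_of_sq_lt
    rw [sq_abs]
    linarith
  have hsn : Real.sqrt n * Real.sqrt n = n := Real.mul_self_sqrt hn0.le
  have hsn2 : 2 ≤ Real.sqrt n := Real.le_sqrt_of_sq_le (by linarith)
  have hsn0 : 0 < Real.sqrt n := by linarith
  have hfn : ∀ f : ℕ, Fintype.card V ≤ f * f + (f + 1) → Real.sqrt n / 2 ≤ f := by
    intro f hf
    have h1 : n ≤ (f : ℝ) * f + (f + 1) := by
      rw [hnd]
      exact_mod_cast hf
    have hf0 : (0 : ℝ) ≤ f := Nat.cast_nonneg f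
    have h2 : Real.sqrt n ≤ f + 1 := by
      apply Real.sqrt_le_iff.2
      refine ⟨by linarith, by nlinarith⟩
    linarith
  rcases le_or_gt 0 δ with h | h
  · -- `δ ≥ 0`
    have hab : |δ| = δ := abs_of_nonneg h
    rw [hab] at hsδ
    set ρ : ℝ := (δ + s) / 2 with hρ
    set t : ℝ := (s - δ) / 2 with ht
    have ht0 : 0 < t := by
      rw [ht]
      linarith
    have hρ0 : 0 < ρ := by
      rw [hρ]
      linarith
    have hρt : ρ * t = κ := by
      rw [hρ, ht]
      nlinarith
    have hd : δ = ρ - t := by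
      rw [hρ, ht]
      ring
    obtain ⟨f, hf1, hf2⟩ := abs_bound A h01 hdiag ρ (-t) μ k (by
        rw [hA2]
        congr 2
        · congr 1
          linarith
        · rw [hd]
          congr 1) hAJ hJA (by
        rw [← hnd, hrel, hd, ← hρt]
        ring) (by linarith) (by linarith) (by
        intro h1
        have ht1 : t = 1 := by linarith
        have h2 : ρ = κ := by
          rw [← hρt, ht1, mul_one]
        have h3 : μ * n = μ * (k + 1) := by
          rw [hrel, hd, ht1, h2, hk]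
          ring
        have h4 := mul_left_cancel₀ hμ.ne' h3
        linarith)
    have hf := hfn f hf2
    rw [← hnd] at hf1
    have h1 : (f : ℝ) * ρ ≤ n * t := by
      have h2 : (f : ℝ) * (ρ - -t) = f * ρ + f * t := by ring
      have h3 : (0 : ℝ) ≤ f * t := by positivity
      nlinarith
    have h2 : (f : ℝ) * ρ ^ 2 ≤ n * k := by
      calc (f : ℝ) * ρ ^ 2 = (f * ρ) * ρ := by ring
        _ ≤ (n * t) * ρ := mul_le_mul_of_nonneg_right h1 hρ0.le
        _ = n * κ := by rw [← hρt]; ring
        _ ≤ n * k := mul_le_mul_of_nonneg_left (by linarith) hn0.le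
    have h3 : Real.sqrt n / 2 * ρ ^ 2 ≤ Real.sqrt n * Real.sqrt n * k := by
      rw [hsn]
      exact le_trans (mul_le_mul_of_nonneg_right hf (by positivity)) h2
    have h4 : ρ ^ 2 ≤ 2 * Real.sqrt n * k := by
      have h5 : Real.sqrt n * (ρ ^ 2) ≤ Real.sqrt n * (2 * Real.sqrt n * k) := by linarith
      exact le_of_mul_le_mul_left h5 hsn0
    have h5 : δ ^ 2 ≤ ρ ^ 2 := pow_le_pow_left₀ h (by linarith) 2
    have h6 : 0 < Real.sqrt n * k := by positivity
    linarith
  · -- `δ < 0`
    have hab : |δ| = -δ := abs_of_neg h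
    rw [hab] at hsδ
    set t : ℝ := (s - δ) / 2 with ht
    set σ : ℝ := (δ + s) / 2 with hσ
    have hσ0 : 0 < σ := by
      rw [hσ]
      linarith
    have ht0 : 0 < t := by
      rw [ht]
      linarith
    have hσt : σ * t = κ := by
      rw [hσ, ht]
      nlinarith
    have hd : δ = σ - t := by
      rw [hσ, ht]
      ring
    obtain ⟨f, hf1, hf2⟩ := abs_bound A h01 hdiag (-t) σ μ k (by
        rw [hA2]
        congr 2
        · congr 1
          linarith
        · rw [hd]
          congr 1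
          ring) hAJ hJA (by
        rw [← hnd, hrel, hd, ← hσt]
        ring) (by linarith) (by linarith) (by linarith)
    have hf := hfn f hf2
    rw [← hnd] at hf1
    have htk : t ≤ k := by
      by_contra hlt
      push Not at hlt
      have h1 : (t - k) * (k + σ) > 0 := mul_pos (by linarith) (by linarith)
      have h2 : (t - k) * (k + σ) = -(k ^ 2 + k * δ - κ) := by
        rw [hd, ← hσt]
        ring
      have h3 : 0 ≤ k ^ 2 + k * δ - κ := by
        have h4 : k * (-μ) ≤ k * δ := mul_le_mul_of_nonneg_left hδ hk0.le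
        have h5 : k ^ 2 + k * (-μ) - κ = κ * (k - 1) := by
          rw [hk]
          ring
        have h6 : 0 ≤ κ * (k - 1) := mul_nonneg (by linarith) (by linarith)
        linarith
      linarith
    have h1 : (f : ℝ) * t ≤ n * σ + k := by
      have h3 : (0 : ℝ) ≤ f * σ := by positivity
      nlinarith
    have h2 : (f : ℝ) * t ^ 2 ≤ 2 * (n * k) := by
      calc (f : ℝ) * t ^ 2 = (f * t) * t := by ring
        _ ≤ (n * σ + k) * t := mul_le_mul_of_nonneg_right h1 ht0.le
        _ = n * κ + k * t := by rw [← hσt]; ring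
        _ ≤ n * k + k * n := by
            apply add_le_add
            · exact mul_le_mul_of_nonneg_left (by linarith) hn0.le
            · exact mul_le_mul_of_nonneg_left (by linarith) hk0.le
        _ = 2 * (n * k) := by ring
    have h3 : Real.sqrt n / 2 * t ^ 2 ≤ 2 * (Real.sqrt n * Real.sqrt n * k) := by
      rw [hsn]
      exact le_trans (mul_le_mul_of_nonneg_right hf (by positivity)) h2
    have h4 : t ^ 2 ≤ 4 * Real.sqrt n * k := by
      have h5 : Real.sqrt n * (t ^ 2) ≤ Real.sqrt n * (4 * Real.sqrt n * k) := by linarith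
      exact le_of_mul_le_mul_left h5 hsn0
    have h5 : δ ^ 2 ≤ t ^ 2 := by
      have h6 : (-δ) ^ 2 ≤ t ^ 2 := pow_le_pow_left₀ (by linarith) (by linarith) 2
      rwa [neg_sq] at h6
    linarith

/-- the second eigenvalue is at most `lam` in absolute value -/
def Spec {V : Type} [Fintype V] (A : Matrix V V ℝ) (lam : ℝ) : Prop :=
  ∀ x : V → ℝ, ∑ v, x v = 0 → ∑ v, (A.mulVec x v) ^ 2 ≤ lam ^ 2 * ∑ v, x v ^ 2

theorem spec_of {V : Type} [Fintype V] [DecidableEq V] (A : Matrix V V ℝ)
    (hsymm : ∀ x y, A x y = A y x) (κ δ μ L : ℝ) (hκ : 0 ≤ κ)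
    (hA2 : A * A = κ • (1 : Matrix V V ℝ) + δ • A + μ • allOnes V) (hL : 2 * κ + δ ^ 2 ≤ L ^ 2) :
    Spec A L := by
  intro x hx
  set y : V → ℝ := A.mulVec x with hy
  have hyy : ∑ v, y v ^ 2 = κ * ∑ v, x v ^ 2 + δ * ∑ v, x v * y v := by
    have h1 : ∑ v, y v ^ 2 = ∑ v, x v * ((A * A).mulVec x) v := by
      have h2 : (A * A).mulVec x = A.mulVec y := by rw [hy, Matrix.mulVec_mulVec]
      rw [h2]
      have h3 : ∑ v, x v * (A.mulVec y) v = x ⬝ᵥ (A.mulVec y) := rfl
      rw [h3, Matrix.dotProduct_mulVec]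
      have h4 : Matrix.vecMul x A = A.mulVec x := by
        ext v
        unfold Matrix.vecMul Matrix.mulVec dotProduct
        apply Finset.sum_congr rfl
        intro w _
        show x w * A w v = A v w * x w
        rw [hsymm w v, mul_comm]
      rw [h4, ← hy]
      unfold dotProduct
      apply Finset.sum_congr rfl
      intro v _
      rw [pow_two]
    rw [h1, hA2, Matrix.add_mulVec, Matrix.add_mulVec, Matrix.smul_mulVec, Matrix.smul_mulVec,
      Matrix.smul_mulVec, Matrix.one_mulVec]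
    have h5 : (allOnes V).mulVec x = 0 := by
      ext v
      unfold Matrix.mulVec dotProduct
      simp only [allOnes_apply, one_mul, Pi.zero_apply]
      exact hx
    rw [h5, ← hy]
    simp only [Pi.add_apply, Pi.smul_apply, smul_eq_mul, Pi.zero_apply, mul_zero, add_zero]
    rw [Finset.mul_sum, Finset.mul_sum, ← Finset.sum_add_distrib]
    apply Finset.sum_congr rfl
    intro v _
    ring
  have hP : 0 ≤ ∑ v, x v ^ 2 := Finset.sum_nonneg fun v _ => sq_nonneg _
  have hQ : 0 ≤ ∑ v, y v ^ 2 := Finset.sum_nonneg fun v _ => sq_nonneg _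
  have hcs : 2 * (δ * ∑ v, x v * y v) ≤ δ ^ 2 * ∑ v, x v ^ 2 + ∑ v, y v ^ 2 := by
    have h1 : 0 ≤ ∑ v, (δ * x v - y v) ^ 2 := Finset.sum_nonneg fun v _ => sq_nonneg _
    have h2 : ∑ v, (δ * x v - y v) ^ 2 =
        δ ^ 2 * ∑ v, x v ^ 2 + ∑ v, y v ^ 2 - 2 * (δ * ∑ v, x v * y v) := by
      rw [Finset.mul_sum, Finset.mul_sum, Finset.mul_sum, ← Finset.sum_add_distrib,
        ← Finset.sum_sub_distrib]
      apply Finset.sum_congr rfl
      intro v _
      ring
    linarith
  have h1 : ∑ v, y v ^ 2 ≤ (2 * κ + δ ^ 2) * ∑ v, x v ^ 2 := by linarith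
  exact h1.trans (mul_le_mul_of_nonneg_right hL hP)

end Pool.Agent.Q112.KT
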