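import Pool.Agent.Q112.KT.Blocks2

/-!
# Clique minors in dense and very dense graphs: the bound in terms of the number of non-neighbours
-/

set_option autoImplicit false

namespace Pool.Agent.Q112.KT

open Finset

open Classical in
theorem dg_add_non {V : Type} (G : SimpleGraph V) (R : Finset V) (v : V) :
    dg G R v + (R.filter (fun x => ¬ G.Adj v x)).card = R.card := by
  unfold dg
  exact Finset.card_filter_add_card_filter_not (s := R) (fun x => G.Adj v x)

open Classical in
theorem non_le {V : Type} [Fintype V] (G : SimpleGraph V) (D : ℕ)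
    (hdeg : ∀ v, Fintype.card V ≤ dg G univ v + D) (R : Finset V) (v : V) :
    (R.filter (fun x => ¬ G.Adj v x)).card ≤ D := by
  have h1 := dg_add_non G univ v
  have h2 : (R.filter (fun x => ¬ G.Adj v x)).card ≤
      (univ.filter (fun x => ¬ G.Adj v x)).card :=
    Finset.card_le_card (Finset.filter_subset_filter _ (Finset.subset_univ R))
  have h3 := hdeg v
  rw [Finset.card_univ] at h1
  omega

open Classical in
/-- large sets induce connected graphs -/
theorem conn_large {V : Type} [Fintype V] (G : SimpleGraph V) (D : ℕ)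
    (hdeg : ∀ v, Fintype.card V ≤ dg G univ v + D) (R : Finset V) (hR : 2 * D < R.card) :
    (G.induce (R : Set V)).Connected := by
  have hne : R.Nonempty := Finset.card_pos.1 (by omega)
  obtain ⟨r, hr⟩ := hne
  haveI : Nonempty (R : Set V) := ⟨⟨r, hr⟩⟩
  refine SimpleGraph.Connected.mk ?_
  rintro ⟨x, hx⟩ ⟨y, hy⟩
  -- a common neighbour
  have h1 := non_le G D hdeg R x
  have h2 := non_le G D hdeg R y
  have h3 : ∃ z ∈ R, G.Adj x z ∧ G.Adj y z := by
    by_contra hno
    push Not at hno
    have hsub : R ⊆ R.filter (fun z => ¬ G.Adj x z) ∪ R.filter (fun z => ¬ G.Adj y z) := by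
      intro z hz
      rw [Finset.mem_union, Finset.mem_filter, Finset.mem_filter]
      by_cases h : G.Adj x z
      · exact Or.inr ⟨hz, hno z hz h⟩
      · exact Or.inl ⟨hz, h⟩
    have h4 := (Finset.card_le_card hsub).trans (Finset.card_union_le _ _)
    omega
  obtain ⟨z, hz, hxz, hyz⟩ := h3
  have hxz' : (G.induce (R : Set V)).Adj ⟨x, hx⟩ ⟨z, hz⟩ := hxz
  have hzy' : (G.induce (R : Set V)).Adj ⟨z, hz⟩ ⟨y, hy⟩ := hyz.symm
  exact hxz'.reachable.trans hzy'.reachable

open Classical in
theorem very_dense {V : Type} [Fintype V] (G : SimpleGraph V) (D : ℕ) (hD : 1 ≤ D)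
    (hDn : 16 * D < Fintype.card V) (hn64 : 64 ≤ Fintype.card V)
    (hdeg : ∀ v, Fintype.card V ≤ dg G univ v + D) (t : ℕ)
    (ht : (t : ℝ) ≤ (1 / 250) * (Fintype.card V : ℝ) *
      Real.sqrt (Real.log ((Fintype.card V : ℝ) / D) / Real.log (Fintype.card V))) :
    HasMinor G t := by
  set n : ℕ := Fintype.card V with hnd
  have hnR : (64 : ℝ) ≤ n := by exact_mod_cast hn64
  have hn0 : (0 : ℝ) < n := by linarith
  have hDR : (1 : ℝ) ≤ D := by exact_mod_cast hD
  have hDnR : 16 * (D : ℝ) < n := by exact_mod_cast hDn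
  have hD0 : (0 : ℝ) < D := by linarith
  set lam : ℝ := Real.log ((n : ℝ) / D) with hlam
  have hlog2 : 0 < Real.log 2 := Real.log_pos (by norm_num)
  have hlam1 : 4 * Real.log 2 ≤ lam := by
    have h1 : Real.log 16 = 4 * Real.log 2 := by
      rw [show (16 : ℝ) = 2 ^ 4 by norm_num, Real.log_pow]
      norm_num
    rw [← h1, hlam]
    apply Real.log_le_log (by norm_num)
    rw [le_div_iff₀ hD0]
    exact hDnR.le
  have hlam0 : 0 < lam := by linarith
  have hlogn : 0 < Real.log n := Real.log_pos (by linarith)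
  have hlamle : lam ≤ Real.log n := by
    rw [hlam]
    apply Real.log_le_log (by positivity)
    rw [div_le_iff₀ hD0]
    nlinarith
  set L : ℝ := Real.log n / lam with hL
  have hL1 : 1 ≤ L := by
    rw [hL, le_div_iff₀ hlam0]
    linarith
  have hL0 : 0 < L := by linarith
  have hsL : 1 ≤ Real.sqrt L := by
    rw [Real.one_le_sqrt]
    exact hL1
  have hsL0 : 0 < Real.sqrt L := by linarith
  have hsLL : Real.sqrt L * Real.sqrt L = L := Real.mul_self_sqrt hL0.le
  set s : ℕ := ⌈Real.sqrt (6 * L)⌉₊ with hs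
  have hs6 : Real.sqrt (6 * L) ≤ s := Nat.le_ceil _
  have hs6' : (s : ℝ) < Real.sqrt (6 * L) + 1 :=
    Nat.ceil_lt_add_one (Real.sqrt_nonneg _)
  have hssq : 6 * L ≤ (s : ℝ) ^ 2 := by
    have h1 : Real.sqrt (6 * L) ^ 2 = 6 * L := Real.sq_sqrt (by positivity)
    rw [← h1]
    exact pow_le_pow_left₀ (Real.sqrt_nonneg _) hs6 2
  have hs3 : 3 ≤ s := by
    by_contra hlt
    have h2 : s ≤ 2 := by omega
    have h3 : (s : ℝ) ≤ 2 := by exact_mod_cast h2
    nlinarith
  have hs3R : (3 : ℝ) ≤ s := by exact_mod_cast hs3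
  have hsup : (s : ℝ) ≤ 7 / 2 * Real.sqrt L := by
    have h1 : Real.sqrt (6 * L) ≤ 5 / 2 * Real.sqrt L := by
      apply Real.sqrt_le_iff.2
      refine ⟨by positivity, ?_⟩
      nlinarith
    linarith
  set K : ℕ := n / 8 with hK
  set q : ℕ := n / 2 with hq
  have hq0 : 0 < q := by omega
  have hK8 : 8 * K ≤ n := by omega
  have hKR : (n : ℝ) / 8 - 1 ≤ K := by
    have h1 : n ≤ 8 * K + 7 := by omega
    have h2 : (n : ℝ) ≤ 8 * K + 7 := by exact_mod_cast h1
    linarith
  have hqR : (n : ℝ) / 4 ≤ q := by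
    have h1 : n ≤ 4 * q := by omega
    have h2 : (n : ℝ) ≤ 4 * q := by exact_mod_cast h1
    linarith
  have hqn : (q : ℝ) < n := by
    have h1 : q < n := by omega
    exact_mod_cast h1
  set ρ : ℝ := 2 * D / n with hρ
  have hρ0 : 0 < ρ := by positivity
  -- `L` and the given bound
  have hLt : Real.sqrt (lam / Real.log n) = 1 / Real.sqrt L := by
    rw [hL, ← Real.sqrt_one, ← Real.sqrt_div zero_le_one]
    congr 1
    field_simp
  rw [hLt] at ht
  have htL : (t : ℝ) * Real.sqrt L ≤ n / 250 := by
    calc (t : ℝ) * Real.sqrt L ≤ (1 / 250 * (n : ℝ) * (1 / Real.sqrt L)) * Real.sqrt L :=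
          mul_le_mul_of_nonneg_right ht hsL0.le
      _ = n / 250 := by field_simp
  have htK : t * (s * 7) ≤ K := by
    have h1 : (t : ℝ) * (s * 7) ≤ K := by
      calc (t : ℝ) * (s * 7) ≤ t * ((7 / 2 * Real.sqrt L) * 7) := by
            apply mul_le_mul_of_nonneg_left _ (Nat.cast_nonneg t)
            linarith
        _ = 49 / 2 * (t * Real.sqrt L) := by ring
        _ ≤ 49 / 2 * (n / 250) := mul_le_mul_of_nonneg_left htL (by norm_num)
        _ ≤ n / 8 - 1 := by linarith
        _ ≤ K := hKR
    exact_mod_cast h1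
  have htn : t ≤ n := by
    have h1 : t ≤ t * (s * 7) := Nat.le_mul_of_pos_right t (by omega)
    omega
  -- robustness
  have hrob : Robust G (univ : Finset V) K := by
    intro W _ hW
    apply conn_large G D hdeg
    have h1 : (univ \ W : Finset V).card = n - W.card := by
      rw [Finset.card_sdiff_of_subset (Finset.subset_univ W), Finset.card_univ]
    rw [h1]
    omega
  have hdeg' : ∀ v ∈ (univ : Finset V), q + K ≤ dg G univ v := by
    intro v _
    have := hdeg v
    omega
  have hfewn : ∀ R ⊆ (univ : Finset V), (univ : Finset V).card ≤ R.card + K → ∀ v ∈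
      (univ : Finset V), ((R.filter (fun x => ¬ G.Adj v x)).card : ℝ) ≤ R.card * ρ := by
    intro R _ hR v _
    have h1 := non_le G D hdeg R v
    have h1' : ((R.filter (fun x => ¬ G.Adj v x)).card : ℝ) ≤ D := by exact_mod_cast h1
    rw [Finset.card_univ] at hR
    have h2 : (n : ℝ) / 2 ≤ R.card := by
      have h3 : n ≤ 2 * R.card := by omega
      have h4 : (n : ℝ) ≤ 2 * R.card := by exact_mod_cast h3
      linarith
    calc ((R.filter (fun x => ¬ G.Adj v x)).card : ℝ) ≤ D := h1'
      _ = (n : ℝ) / 2 * ρ := by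
          rw [hρ]
          field_simp
      _ ≤ R.card * ρ := mul_le_mul_of_nonneg_right h2 hρ0.le
  -- numbers
  have hnum : 8 * (n : ℝ) * (4 * (n : ℝ) * ρ ^ s) ^ s ≤ (q : ℝ) ^ s := by
    have hlogρ : Real.log ρ ≤ -(3 / 4 * lam) := by
      have h1 : ρ = 2 * (((n : ℝ) / D)⁻¹) := by
        rw [hρ, inv_div]
        ring
      rw [h1, Real.log_mul (by norm_num) (by positivity), Real.log_inv, ← hlam]
      linarith
    have h8n : 8 * (n : ℝ) ≤ Real.exp (2 * Real.log n) := by
      have h1 : Real.exp (2 * Real.log n) = n * n := by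
        rw [two_mul, Real.exp_add, Real.exp_log hn0]
      rw [h1]
      nlinarith
    have h16 : (16 : ℝ) = Real.exp (4 * Real.log 2) := by
      rw [show (4 : ℝ) * Real.log 2 = Real.log (2 ^ 4) by rw [Real.log_pow]; norm_num,
        Real.exp_log (by norm_num)]
      norm_num
    have hρs : ρ ^ s = Real.exp (s * Real.log ρ) := by
      rw [Real.exp_nat_mul, Real.exp_log hρ0]
    have hmain : 8 * (n : ℝ) * (16 * ρ ^ s) ^ s ≤ 1 := by
      have h2 : (16 * ρ ^ s) ^ s = Real.exp (s * (4 * Real.log 2 + s * Real.log ρ)) := by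
        rw [Real.exp_nat_mul, Real.exp_add, ← h16, hρs]
      rw [h2]
      calc 8 * (n : ℝ) * Real.exp (s * (4 * Real.log 2 + s * Real.log ρ))
          ≤ Real.exp (2 * Real.log n) * Real.exp (s * (4 * Real.log 2 + s * Real.log ρ)) :=
            mul_le_mul_of_nonneg_right h8n (Real.exp_pos _).le
        _ = Real.exp (2 * Real.log n + s * (4 * Real.log 2 + s * Real.log ρ)) := by
            rw [← Real.exp_add]
        _ ≤ Real.exp 0 := by
            apply Real.exp_le_exp.2
            have h3 : (s : ℝ) ^ 2 * Real.log ρ ≤ -(3 / 4 * lam * (s : ℝ) ^ 2) := by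
              nlinarith [sq_nonneg (s : ℝ)]
            have h4 : 2 * Real.log n ≤ 3 / 8 * lam * (s : ℝ) ^ 2 := by
              have h5 : Real.log n = L * lam := by
                rw [hL]
                field_simp
              rw [h5]
              have h6 : lam * (6 * L) ≤ lam * (s : ℝ) ^ 2 :=
                mul_le_mul_of_nonneg_left hssq hlam0.le
              nlinarith
            have h7 : (s : ℝ) * (4 * Real.log 2) ≤ 3 / 8 * lam * (s : ℝ) ^ 2 := by
              have h8 : (s : ℝ) * (4 * Real.log 2) ≤ s * lam :=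
                mul_le_mul_of_nonneg_left hlam1 (by linarith)
              have h9 : (s : ℝ) * lam ≤ 3 / 8 * lam * (s : ℝ) ^ 2 := by
                have h10 : 0 ≤ (s : ℝ) * lam * (3 / 8 * s - 1) := by
                  apply mul_nonneg (by positivity)
                  linarith
                nlinarith
              linarith
            nlinarith
        _ = 1 := Real.exp_zero
    calc 8 * (n : ℝ) * (4 * (n : ℝ) * ρ ^ s) ^ s
        = (8 * (n : ℝ) * (16 * ρ ^ s) ^ s) * ((n : ℝ) / 4) ^ s := by
          rw [mul_assoc (8 * (n : ℝ)), ← mul_pow]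
          congr 2
          ring
      _ ≤ 1 * ((n : ℝ) / 4) ^ s := mul_le_mul_of_nonneg_right hmain (by positivity)
      _ = ((n : ℝ) / 4) ^ s := one_mul _
      _ ≤ (q : ℝ) ^ s := pow_le_pow_left₀ (by positivity) hqR s
  obtain ⟨B, hB⟩ := blocksR G univ K s 7 q t ρ hρ0 hrob hdeg' hq0 hfewn (by omega)
    (by omega) htK htn hnum hqn
  exact hasMinor_of_sys G univ _ _ t B hB

/-- **Clique minors in dense graphs** in terms of the number of non-neighbours. -/
theorem minor_general (δ : ℝ) (hδ : 0 < δ) : ∃ c : ℝ, 0 < c ∧ ∃ n0 : ℕ, ∀ (V : Type) [Fintype V]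
    (G : SimpleGraph V), n0 ≤ Fintype.card V → ∀ D : ℕ, 1 ≤ D →
    (D : ℝ) ≤ (1 - δ) * (Fintype.card V : ℝ) →
    (∀ v, Fintype.card V ≤ dg G univ v + D) →
    ∀ t : ℕ, (t : ℝ) ≤ c * (Fintype.card V : ℝ) *
      Real.sqrt (Real.log ((Fintype.card V : ℝ) / D) / Real.log (Fintype.card V)) →
      HasMinor G t := by
  obtain ⟨c, hc, n0, h⟩ := dense_minor δ hδ
  refine ⟨min (c / 2) (1 / 250), by positivity, max n0 64, ?_⟩
  intro V _ G hn D hD1 hD2 hdeg t ht
  have hn0 : n0 ≤ Fintype.card V := (le_max_left _ _).trans hn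
  have hn64 : 64 ≤ Fintype.card V := (le_max_right _ _).trans hn
  set n : ℕ := Fintype.card V with hnd
  have hnR : (64 : ℝ) ≤ n := by exact_mod_cast hn64
  have hnpos : (0 : ℝ) < n := by linarith
  have hDR : (1 : ℝ) ≤ D := by exact_mod_cast hD1
  have hD0 : (0 : ℝ) < D := by linarith
  have hlogn : 0 < Real.log n := Real.log_pos (by linarith)
  by_cases h16 : 16 * D < n
  · apply very_dense G D hD1 h16 hn64 hdeg t
    refine ht.trans ?_
    apply mul_le_mul_of_nonneg_right _ (Real.sqrt_nonneg _)
    exact mul_le_mul_of_nonneg_right (min_le_right _ _) hnpos.le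
  · apply h V G hn0
    · intro v
      have h1 := hdeg v
      have h2 : (n : ℝ) ≤ dg G univ v + D := by exact_mod_cast h1
      linarith
    · refine ht.trans ?_
      have h1 : Real.log ((n : ℝ) / D) ≤ 4 := by
        have h2 : (n : ℝ) / D ≤ 16 := by
          rw [div_le_iff₀ hD0]
          push Not at h16
          exact_mod_cast h16
        have h3 : Real.log ((n : ℝ) / D) ≤ Real.log 16 := Real.log_le_log (by positivity) h2
        have h4 : Real.log 16 = 4 * Real.log 2 := by
          rw [show (16 : ℝ) = 2 ^ 4 by norm_num, Real.log_pow]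
          norm_num
        have h5 := Real.log_two_lt_d9
        linarith
      have h2 : Real.sqrt (Real.log ((n : ℝ) / D) / Real.log n) ≤ 2 / Real.sqrt (Real.log n) := by
        have h3 : Real.sqrt (Real.log ((n : ℝ) / D) / Real.log n) ≤
            Real.sqrt (4 / Real.log n) :=
          Real.sqrt_le_sqrt (div_le_div_of_nonneg_right h1 hlogn.le)
        refine h3.trans (le_of_eq ?_)
        rw [Real.sqrt_div (by norm_num), show (4 : ℝ) = 2 ^ 2 by norm_num,
          Real.sqrt_sq (by norm_num)]
      calc min (c / 2) (1 / 250) * (n : ℝ) *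
            Real.sqrt (Real.log ((n : ℝ) / D) / Real.log n)
          ≤ (c / 2 * n) * (2 / Real.sqrt (Real.log n)) := by
            apply mul_le_mul _ h2 (Real.sqrt_nonneg _) (by positivity)
            exact mul_le_mul_of_nonneg_right (min_le_left _ _) hnpos.le
        _ = c * n / Real.sqrt (Real.log n) := by ring

end Pool.Agent.Q112.KT
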