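import Pool.Agent.Q112.KT.General
import Pool.Agent.Q112.KT.VeryDense
import Pool.Agent.Q112.KT.Cover
import Pool.Agent.Q112.KT.SRG2

/-!
# Pseudo-random graphs: independent sets, colourings and clique minors
-/

set_option autoImplicit false

namespace Pool.Agent.Q112.KT

open Finset Filter

open Classical in
/-- the adjacency matrix -/
noncomputable def adjM {V : Type} (G : SimpleGraph V) : Matrix V V ℝ :=
  Matrix.of fun x y => if G.Adj x y then 1 else 0

open Classical in
/-- discrepancy -/
theorem exists_low {V : Type} [Fintype V] (G : SimpleGraph V) (d : ℕ)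
    (hreg : ∀ v, dg G univ v = d) (lam : ℝ) (hlam : 0 ≤ lam) (hS : Spec (adjM G) lam)
    (U : Finset V) (hU : U.Nonempty) :
    ∃ v ∈ U, (dg G U v : ℝ) ≤ (d : ℝ) * U.card / Fintype.card V + lam := by
  by_contra hno
  push Not at hno
  obtain ⟨u0, hu0⟩ := hU
  have hn0 : (0 : ℝ) < Fintype.card V := by
    exact_mod_cast Fintype.card_pos_iff.2 ⟨u0⟩
  set n : ℝ := (Fintype.card V : ℝ) with hn
  set u : ℝ := (U.card : ℝ) with hu
  have hu0' : 0 < u := by
    rw [hu]
    exact_mod_cast Finset.card_pos.2 ⟨u0, hu0⟩
  set x : V → ℝ := fun v => (if v ∈ U then 1 else 0) - u / n with hx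
  have hind : ∑ v, (if v ∈ U then (1 : ℝ) else 0) = u := by
    rw [← Finset.sum_filter, Finset.sum_const, nsmul_eq_mul, mul_one, hu]
    congr 2
    ext v
    simp
  have hx0 : ∑ v, x v = 0 := by
    rw [hx]
    simp only
    rw [Finset.sum_sub_distrib, hind, Finset.sum_const, Finset.card_univ, nsmul_eq_mul, ← hn]
    field_simp
    ring
  have hx2 : ∑ v, x v ^ 2 ≤ u := by
    have h1 : ∀ v, x v ^ 2 = (if v ∈ U then (1 : ℝ) else 0) * (1 - 2 * (u / n)) + (u / n) ^ 2 := by
      intro v
      rw [hx]
      simp only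
      by_cases h : v ∈ U
      · simp only [h, if_true]
        ring
      · simp only [h, if_false]
        ring
    rw [Finset.sum_congr rfl (fun v _ => h1 v), Finset.sum_add_distrib, ← Finset.sum_mul, hind,
      Finset.sum_const, Finset.card_univ, nsmul_eq_mul, ← hn]
    have h2 : u * (1 - 2 * (u / n)) + n * (u / n) ^ 2 = u - u ^ 2 / n := by
      field_simp
      ring
    rw [h2]
    have : 0 ≤ u ^ 2 / n := by positivity
    linarith
  have hA : ∀ v, (adjM G).mulVec x v = (dg G U v : ℝ) - d * u / n := by
    intro v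
    unfold Matrix.mulVec dotProduct
    have h1 : ∀ w, adjM G v w * x w =
        (if G.Adj v w ∧ w ∈ U then (1 : ℝ) else 0) - (if G.Adj v w then (1 : ℝ) else 0) * (u / n) := by
      intro w
      show (if G.Adj v w then (1 : ℝ) else 0) * ((if w ∈ U then 1 else 0) - u / n) = _
      by_cases h : G.Adj v w
      · by_cases h' : w ∈ U
        · simp [h, h']
        · simp [h, h']
      · simp [h]
    have h2 : ∑ w, adjM G v w * x w = ∑ w, ((if G.Adj v w ∧ w ∈ U then (1 : ℝ) else 0) -
        (if G.Adj v w then (1 : ℝ) else 0) * (u / n)) := Finset.sum_congr rfl (fun w _ => h1 w)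
    show ∑ w, adjM G v w * x w = _
    rw [h2, Finset.sum_sub_distrib, ← Finset.sum_mul]
    have h3 : ∑ w, (if G.Adj v w ∧ w ∈ U then (1 : ℝ) else 0) = dg G U v := by
      rw [← Finset.sum_filter, Finset.sum_const, nsmul_eq_mul, mul_one]
      unfold dg
      congr 2
      ext w
      simp only [mem_filter, mem_univ, true_and]
      tauto
    have h4 : ∑ w, (if G.Adj v w then (1 : ℝ) else 0) = d := by
      rw [← Finset.sum_filter, Finset.sum_const, nsmul_eq_mul, mul_one, ← hreg v]
      rfl
    rw [h3, h4]
    ring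
  have h1 := hS x hx0
  have h2 : lam ^ 2 * u < ∑ v, ((adjM G).mulVec x v) ^ 2 := by
    calc lam ^ 2 * u = ∑ _v ∈ U, lam ^ 2 := by
          rw [Finset.sum_const, nsmul_eq_mul, ← hu]
          ring
      _ < ∑ v ∈ U, ((adjM G).mulVec x v) ^ 2 := by
          apply Finset.sum_lt_sum_of_nonempty ⟨u0, hu0⟩
          intro v hv
          rw [hA v]
          have h3 := hno v hv
          have h4 : lam < (dg G U v : ℝ) - d * u / n := by linarith
          exact pow_lt_pow_left₀ h4 hlam two_ne_zero
      _ ≤ ∑ v, ((adjM G).mulVec x v) ^ 2 :=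
          Finset.sum_le_sum_of_subset_of_nonneg (Finset.subset_univ U) (fun v _ _ => sq_nonneg _)
  have h3 : lam ^ 2 * ∑ v, x v ^ 2 ≤ lam ^ 2 * u := mul_le_mul_of_nonneg_left hx2 (sq_nonneg _)
  linarith

open Classical in
/-- independent sets inside a large set -/
theorem indep_in {V : Type} [Fintype V] (G : SimpleGraph V) (d : ℕ)
    (hreg : ∀ v, dg G univ v = d) (lam : ℝ) (hlam : 0 ≤ lam) (hS : Spec (adjM G) lam) (q : ℝ)
    (hq : q = 1 - (d : ℝ) / Fintype.card V) (hq0 : 0 ≤ q) (hq1 : q ≤ 1) (j : ℕ) :
    ∀ U : Finset V, (j : ℝ) * (lam + 1) ≤ q ^ j * U.card →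
      ∃ T ⊆ U, T.card = j ∧ ∀ x ∈ T, ∀ y ∈ T, ¬ G.Adj x y := by
  induction j with
  | zero =>
    intro U _
    exact ⟨∅, Finset.empty_subset _, rfl, by simp⟩
  | succ j ih =>
    intro U hU
    have hU0 : (0 : ℝ) < U.card := by
      by_contra hle
      push Not at hle
      have h1 : (U.card : ℝ) = 0 := le_antisymm hle (Nat.cast_nonneg _)
      rw [h1, mul_zero] at hU
      have h2 : (0 : ℝ) < ((j + 1 : ℕ) : ℝ) * (lam + 1) := by positivity
      linarith
    have hUne : U.Nonempty := Finset.card_pos.1 (by exact_mod_cast hU0)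
    obtain ⟨v, hv, hdv⟩ := exists_low G d hreg lam hlam hS U hUne
    set U' : Finset V := (U.filter (fun w => ¬ G.Adj v w)).erase v with hU'
    have hvmem : v ∈ U.filter (fun w => ¬ G.Adj v w) :=
      Finset.mem_filter.2 ⟨hv, G.loopless.irrefl v⟩
    have hcard : ((U'.card : ℕ) : ℝ) = U.card - dg G U v - 1 := by
      have h1 := dg_add_non G U v
      have h2 : U'.card + 1 = (U.filter (fun w => ¬ G.Adj v w)).card :=
        Finset.card_erase_add_one hvmem
      have h3 : (dg G U v : ℝ) + ((U.filter (fun w => ¬ G.Adj v w)).card : ℝ) = U.card := by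
        exact_mod_cast h1
      have h4 : (U'.card : ℝ) + 1 = ((U.filter (fun w => ¬ G.Adj v w)).card : ℝ) := by
        exact_mod_cast h2
      linarith
    have hlow : q * U.card - (lam + 1) ≤ U'.card := by
      rw [hcard]
      have h1 : q * U.card = U.card - d * U.card / Fintype.card V := by
        rw [hq]
        ring
      linarith
    have hqj : 0 ≤ q ^ j := pow_nonneg hq0 j
    have hqj1 : q ^ j ≤ 1 := pow_le_one₀ hq0 hq1
    obtain ⟨T, hT1, hT2, hT3⟩ := ih U' (by
      have h1 : q ^ j * (q * U.card - (lam + 1)) ≤ q ^ j * U'.card :=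
        mul_le_mul_of_nonneg_left hlow hqj
      have h2 : q ^ j * (lam + 1) ≤ lam + 1 := by
        have := mul_le_mul_of_nonneg_right hqj1 (by linarith : 0 ≤ lam + 1)
        linarith
      have h3 : q ^ (j + 1) * (U.card : ℝ) = q ^ j * (q * U.card) := by ring
      push_cast at hU
      rw [h3] at hU
      nlinarith)
    have hU'U : U' ⊆ U := (Finset.erase_subset _ _).trans (Finset.filter_subset _ _)
    have hvT : v ∉ T := fun h => (Finset.notMem_erase v _) (hT1 h)
    have key : ∀ x ∈ T, ¬ G.Adj v x := fun x hx =>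
      (Finset.mem_filter.1 (Finset.mem_of_mem_erase (hT1 hx))).2
    refine ⟨insert v T, ?_, ?_, ?_⟩
    · intro x hx
      rw [mem_insert] at hx
      rcases hx with rfl | hx
      · exact hv
      · exact hU'U (hT1 hx)
    · rw [Finset.card_insert_of_notMem hvT, hT2]
    · intro x hx y hy
      rw [mem_insert] at hx hy
      rcases hx with rfl | hx
      · rcases hy with rfl | hy
        · exact G.loopless.irrefl _
        · exact key y hy
      · rcases hy with rfl | hy
        · exact fun h' => key x hx h'.symm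
        · exact hT3 x hx y hy

/-- colouring by repeated removal of independent sets -/
theorem color_of_indep {V : Type} [Fintype V] (G : SimpleGraph V) (M j : ℕ) (hj : 1 ≤ j)
    (h : ∀ U : Finset V, M ≤ U.card → ∃ T ⊆ U, T.card = j ∧ ∀ x ∈ T, ∀ y ∈ T, ¬ G.Adj x y)
    (k : ℕ) (hk : Fintype.card V / j + 1 + M ≤ k) : G.Colorable k := by
  classical
  have key : ∀ m : ℕ, ∃ m' ≤ m, ∃ R : Finset V,
      (R.card < M ∨ (m' = m ∧ R.card + m * j ≤ Fintype.card V)) ∧
      ∃ c : V → ℕ, (∀ v, v ∉ R → c v < m') ∧
        ∀ u v, u ∉ R → v ∉ R → G.Adj u v → c u ≠ c v := by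
    intro m
    induction m with
    | zero =>
      refine ⟨0, le_rfl, univ, Or.inr ⟨rfl, by simp [Finset.card_univ]⟩, fun _ => 0, ?_, ?_⟩
      · intro v hv
        exact absurd (mem_univ v) hv
      · intro u v hu
        exact absurd (mem_univ u) hu
    | succ m ih =>
      obtain ⟨m', hm', R, hR, c, hc1, hc2⟩ := ih
      by_cases hM : R.card < M
      · exact ⟨m', hm'.trans (Nat.le_succ m), R, Or.inl hM, c, hc1, hc2⟩
      · obtain ⟨hmm, hRc⟩ := hR.resolve_left hM
        subst hmm
        push Not at hM
        obtain ⟨T, hTR, hTc, hTi⟩ := h R hM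
        refine ⟨m' + 1, le_rfl, R \ T, Or.inr ⟨rfl, ?_⟩, fun v => if v ∈ T then m' else c v,
          ?_, ?_⟩
        · rw [Finset.card_sdiff_of_subset hTR, hTc]
          have h1 : j ≤ R.card := hTc ▸ Finset.card_le_card hTR
          have h2 : (m' + 1) * j = m' * j + j := by ring
          omega
        · intro v hv
          rw [Finset.mem_sdiff, not_and_or, not_not] at hv
          show (if v ∈ T then m' else c v) < m' + 1
          by_cases h' : v ∈ T
          · rw [if_pos h']
            omega
          · rw [if_neg h']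
            have := hc1 v (hv.resolve_right h')
            omega
        · intro u v hu hv huv
          rw [Finset.mem_sdiff, not_and_or, not_not] at hu hv
          show (if u ∈ T then m' else c u) ≠ (if v ∈ T then m' else c v)
          by_cases h1 : u ∈ T
          · by_cases h2 : v ∈ T
            · exact absurd huv (hTi u h1 v h2)
            · rw [if_pos h1, if_neg h2]
              have := hc1 v (hv.resolve_right h2)
              omega
          · by_cases h2 : v ∈ T
            · rw [if_neg h1, if_pos h2]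
              have := hc1 u (hu.resolve_right h1)
              omega
            · rw [if_neg h1, if_neg h2]
              exact hc2 u v (hu.resolve_right h1) (hv.resolve_right h2) huv
  obtain ⟨m', hm', R, hR, c, hc1, hc2⟩ := key (Fintype.card V / j + 1)
  have hRM : R.card < M := by
    rcases hR with hR | ⟨_, hR⟩
    · exact hR
    · exfalso
      have h1 : Fintype.card V < (Fintype.card V / j + 1) * j := by
        have := Nat.lt_mul_div_succ (Fintype.card V) (by omega : 0 < j)
        calc Fintype.card V < j * (Fintype.card V / j + 1) := this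
          _ = (Fintype.card V / j + 1) * j := by ring
      omega
  exact finish_color G R m' k c hc1 hc2 (by omega)

end Pool.Agent.Q112.KT
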