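import Pool.Agent.Q112.KT.Pseudo

/-!
# Hadwiger's conjecture for pseudo-random graphs
-/

set_option autoImplicit false

namespace Pool.Agent.Q112.KT

open Finset Filter

/-- large numbers -/
theorem large_n (e : ℝ) (he : 0 < e) (B C : ℝ) : ∃ n0 : ℕ, ∀ n : ℕ, n0 ≤ n →
    4 ≤ (n : ℝ) ∧ B * Real.log n ≤ (n : ℝ) ^ e ∧ C ≤ Real.sqrt (Real.log n) ∧
      C ≤ (n : ℝ) ^ e ∧ Real.log n ≤ (n : ℝ) ^ e := by
  have h1 : ∀ᶠ x : ℝ in atTop, ‖Real.log x‖ ≤ (1 / (|B| + 1)) * ‖x ^ e‖ :=
    (isLittleO_log_rpow_atTop he).bound (by positivity)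
  have h2 : ∀ᶠ x : ℝ in atTop, C ≤ Real.sqrt (Real.log x) :=
    (Real.tendsto_sqrt_atTop.comp Real.tendsto_log_atTop).eventually_ge_atTop C
  have h3 : ∀ᶠ x : ℝ in atTop, C ≤ x ^ e := (tendsto_rpow_atTop he).eventually_ge_atTop C
  have h4 : ∀ᶠ x : ℝ in atTop, 4 ≤ x := eventually_ge_atTop 4
  have h5 := (h1.and (h2.and (h3.and h4)))
  have h6 := tendsto_natCast_atTop_atTop.eventually h5
  obtain ⟨n0, hn0⟩ := eventually_atTop.1 h6
  refine ⟨n0, ?_⟩
  intro n hn
  obtain ⟨a1, a2, a3, a4⟩ := hn0 n hn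
  have hn0' : (0 : ℝ) < n := by linarith
  have hlog : 0 ≤ Real.log (n : ℝ) := Real.log_nonneg (by linarith)
  have hpow : 0 ≤ (n : ℝ) ^ e := (Real.rpow_pos_of_pos hn0' e).le
  rw [Real.norm_of_nonneg hlog, Real.norm_of_nonneg hpow] at a1
  have hB : (|B| + 1) * Real.log n ≤ (n : ℝ) ^ e := by
    have h7 : (0 : ℝ) < |B| + 1 := by positivity
    calc (|B| + 1) * Real.log n ≤ (|B| + 1) * ((1 / (|B| + 1)) * (n : ℝ) ^ e) :=
          mul_le_mul_of_nonneg_left a1 h7.le
      _ = (n : ℝ) ^ e := by field_simp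
  have hB1 : B ≤ |B| + 1 := by linarith [le_abs_self B]
  refine ⟨a4, ?_, a2, a3, ?_⟩
  · exact le_trans (mul_le_mul_of_nonneg_right hB1 hlog) hB
  · refine le_trans ?_ hB
    have : 0 ≤ |B| * Real.log n := by positivity
    linarith

/-- **Hadwiger's conjecture for pseudo-random graphs.** -/
theorem pseudo_main (c0 : ℝ) (hc0 : 0 < c0) (hc01 : c0 ≤ 1) (K : ℕ) : ∃ ε : ℝ, 0 < ε ∧
    ∃ n0 : ℕ, ∀ (V : Type) [Fintype V] (G : SimpleGraph V) (d : ℕ), n0 ≤ Fintype.card V →
      (∀ v, dg G univ v = d) → (Fintype.card V : ℝ) ^ (1 - ε) ≤ d →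
      (d : ℝ) ≤ Fintype.card V - (Fintype.card V : ℝ) ^ (1 - ε) →
      ∀ lam : ℝ, 0 ≤ lam → lam ≤ (Fintype.card V : ℝ) ^ (1 - c0) → Spec (adjM G) lam →
      ∀ k : ℕ, ¬ G.Colorable k → HasMinor G (K * (k + 1)) := by
  obtain ⟨c1, hc1, n1, hmin⟩ := minor_general (1 / 2) (by norm_num)
  obtain ⟨c2, hc2, d0, hd0, hkt⟩ := kt
  set K1 : ℝ := (K : ℝ) + 1 with hK1
  have hK0 : (0 : ℝ) ≤ K := Nat.cast_nonneg K
  have hK1' : 1 ≤ K1 := by linarith
  set e : ℝ := c0 / 8 with he
  have he0 : 0 < e := by positivity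
  set ε : ℝ := min e ((c0 * c1 / (16 * K1)) ^ 2) with hε
  have hε0 : 0 < ε := by positivity
  have hεe : ε ≤ e := min_le_left _ _
  have hεc : ε ≤ (c0 * c1 / (16 * K1)) ^ 2 := min_le_right _ _
  obtain ⟨n2, hn2⟩ := large_n e he0 (12 * K1 / c1 + 12 * K1 / c2)
    (64 * K1 / (c0 * c2) + 2 * d0)
  refine ⟨ε, hε0, max n1 n2, ?_⟩
  intro V _ G d hn hreg hd1 hd2 lam hlam hlam2 hS k' hk'
  have hnn1 : n1 ≤ Fintype.card V := (le_max_left _ _).trans hn
  have hnn2 : n2 ≤ Fintype.card V := (le_max_right _ _).trans hn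
  obtain ⟨hn4, hlogB, hCs, hCe, hloge⟩ := hn2 _ hnn2
  set n : ℝ := (Fintype.card V : ℝ) with hnd
  have hn0 : 0 < n := by linarith
  have hn1 : 1 ≤ n := by linarith
  have hne : Nonempty V := Fintype.card_pos_iff.1 (by
    have : (0 : ℝ) < Fintype.card V := hn0
    exact_mod_cast this)
  have hlog1 : 1 ≤ Real.log n := by
    rw [Real.le_log_iff_exp_le hn0]
    have := Real.exp_one_lt_d9
    linarith
  have hlog0 : 0 < Real.log n := by linarith
  have hpn : 0 < n ^ (1 - ε) := Real.rpow_pos_of_pos hn0 _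
  have hdR : 0 < (d : ℝ) := by linarith
  -- the number of non-neighbours
  have hdn : d ≤ Fintype.card V := by
    have : (d : ℝ) ≤ Fintype.card V := by linarith
    exact_mod_cast this
  set D : ℕ := Fintype.card V - d with hD
  have hDR : (D : ℝ) = n - d := by
    rw [hD, Nat.cast_sub hdn]
  have hD1 : n ^ (1 - ε) ≤ D := by
    rw [hDR]
    linarith
  have hD0 : (0 : ℝ) < D := by linarith
  have hD1' : 1 ≤ D := by
    have : (0 : ℝ) < D := hD0
    have h : 0 < D := by exact_mod_cast this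
    omega
  have hDn : (D : ℝ) < n := by
    rw [hDR]
    linarith
  set q : ℝ := (D : ℝ) / n with hq
  have hq0 : 0 < q := by positivity
  have hq1 : q < 1 := by
    rw [hq, div_lt_one hn0]
    exact hDn
  have hqd : q = 1 - (d : ℝ) / n := by
    rw [hq, hDR]
    field_simp
  set lq : ℝ := Real.log (n / D) with hlq
  have hlqq : lq = - Real.log q := by
    rw [hlq, hq, ← Real.log_inv, inv_div]
  have hlq0 : 0 < lq := by
    rw [hlq]
    apply Real.log_pos
    rw [lt_div_iff₀ hD0]
    linarith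
  have hplq : (d : ℝ) / n ≤ lq := by
    have h1 := Real.log_le_sub_one_of_pos hq0
    rw [hlqq]
    linarith
  have hlqε : lq ≤ ε * Real.log n := by
    have h1 : Real.log (n ^ (1 - ε)) ≤ Real.log D := Real.log_le_log hpn hD1
    rw [Real.log_rpow hn0] at h1
    rw [hlq, Real.log_div hn0.ne' hD0.ne']
    linarith
  set L : ℝ := Real.log n / lq with hL
  have hL0 : 0 < L := by positivity
  have hLlq : L * lq = Real.log n := by
    rw [hL]
    field_simp
  have hLε : 1 / ε ≤ L := by
    rw [hL, div_le_div_iff₀ hε0 hlq0]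
    linarith
  have hL8 : 1 ≤ c0 / 8 * L := by
    have h1 : 1 / e ≤ 1 / ε := one_div_le_one_div_of_le hε0 hεe
    have h2 : 1 / e ≤ L := h1.trans hLε
    rw [div_le_iff₀ he0] at h2
    rw [he] at h2
    linarith
  -- the size of the independent sets
  set j : ℕ := ⌊c0 / 4 * L⌋₊ with hj
  have hj1 : (j : ℝ) ≤ c0 / 4 * L := Nat.floor_le (by positivity)
  have hj2 : c0 / 8 * L ≤ j := by
    have h1 := Nat.lt_floor_add_one (c0 / 4 * L)
    have h2 : c0 / 4 * L = c0 / 8 * L + c0 / 8 * L := by ring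
    rw [← hj] at h1
    linarith
  have hj3 : 1 ≤ j := by
    have : (1 : ℝ) ≤ j := by linarith
    exact_mod_cast this
  have hqj : n ^ (-(c0 / 4)) ≤ q ^ j := by
    have h1 : q ^ j = Real.exp (-(j * lq)) := by
      have h2 : q = Real.exp (-lq) := by
        rw [hlqq, neg_neg, Real.exp_log hq0]
      rw [h2, ← Real.exp_nat_mul]
      congr 1
      ring
    rw [h1, Real.rpow_def_of_pos hn0]
    apply Real.exp_le_exp.2
    have h3 : (j : ℝ) * lq ≤ c0 / 4 * Real.log n := by
      calc (j : ℝ) * lq ≤ c0 / 4 * L * lq := mul_le_mul_of_nonneg_right hj1 hlq0.le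
        _ = c0 / 4 * Real.log n := by rw [mul_assoc, hLlq]
    linarith
  set M : ℕ := ⌈n ^ (1 - c0 / 4)⌉₊ with hM
  have hM1 : n ^ (1 - c0 / 4) ≤ M := Nat.le_ceil _
  have hM2 : (M : ℝ) < n ^ (1 - c0 / 4) + 1 := Nat.ceil_lt_add_one (Real.rpow_pos_of_pos hn0 _).le
  have hn1p : ∀ a : ℝ, 0 ≤ a → 1 ≤ n ^ a := fun a ha => Real.one_le_rpow hn1 ha
  have hindep : ∀ U : Finset V, M ≤ U.card →
      ∃ T ⊆ U, T.card = j ∧ ∀ x ∈ T, ∀ y ∈ T, ¬ G.Adj x y := by
    intro U hU
    apply indep_in G d hreg lam hlam hS q (by rw [hqd]) hq0.le hq1.le j U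
    have hUR : n ^ (1 - c0 / 4) ≤ U.card := hM1.trans (by exact_mod_cast hU)
    have h1 : n ^ (1 - c0 / 2) ≤ q ^ j * U.card := by
      have h2 : n ^ (1 - c0 / 2) = n ^ (-(c0 / 4)) * n ^ (1 - c0 / 4) := by
        rw [← Real.rpow_add hn0]
        congr 1
        ring
      rw [h2]
      exact mul_le_mul hqj hUR (Real.rpow_pos_of_pos hn0 _).le (by positivity)
    refine le_trans ?_ h1
    have h3 : L ≤ n ^ e * Real.log n := by
      rw [hL, div_le_iff₀ hlq0]
      have h4 : n ^ (-e) ≤ lq := by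
        refine le_trans ?_ hplq
        rw [le_div_iff₀ hn0]
        calc n ^ (-e) * n = n ^ (1 - e) := by
              rw [← Real.rpow_add_one hn0.ne']
              congr 1
              ring
          _ ≤ n ^ (1 - ε) := Real.rpow_le_rpow_of_exponent_le hn1 (by linarith)
          _ ≤ d := hd1
      calc Real.log n = n ^ e * Real.log n * n ^ (-e) := by
            rw [mul_comm (n ^ e), mul_assoc, ← Real.rpow_add hn0]
            simp
        _ ≤ n ^ e * Real.log n * lq := mul_le_mul_of_nonneg_left h4 (by positivity)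
    have h5 : (j : ℝ) ≤ 1 / 4 * (n ^ e * n ^ e) := by
      calc (j : ℝ) ≤ c0 / 4 * L := hj1
        _ ≤ 1 / 4 * L := mul_le_mul_of_nonneg_right (by linarith) hL0.le
        _ ≤ 1 / 4 * (n ^ e * n ^ e) := by
            apply mul_le_mul_of_nonneg_left _ (by norm_num)
            exact h3.trans (mul_le_mul_of_nonneg_left hloge (by positivity))
    have h6 : lam + 1 ≤ 2 * n ^ (1 - c0) := by
      have := hn1p (1 - c0) (by linarith)
      linarith
    calc (j : ℝ) * (lam + 1) ≤ (1 / 4 * (n ^ e * n ^ e)) * (2 * n ^ (1 - c0)) :=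
          mul_le_mul h5 h6 (by linarith) (by positivity)
      _ = 1 / 2 * (n ^ e * n ^ e * n ^ (1 - c0)) := by ring
      _ = 1 / 2 * n ^ (1 - 3 / 4 * c0) := by
          rw [← Real.rpow_add hn0, ← Real.rpow_add hn0, he]
          congr 2
          ring
      _ ≤ 1 * n ^ (1 - 3 / 4 * c0) := by
          apply mul_le_mul_of_nonneg_right (by norm_num) (Real.rpow_pos_of_pos hn0 _).le
      _ = n ^ (1 - 3 / 4 * c0) := one_mul _
      _ ≤ n ^ (1 - c0 / 2) := Real.rpow_le_rpow_of_exponent_le hn1 (by linarith)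
  -- the number of colours
  have hkk : k' < Fintype.card V / j + 1 + M := by
    by_contra hge
    push Not at hge
    exact hk' (color_of_indep G M j hj3 hindep k' hge)
  have hdivj : ((Fintype.card V / j : ℕ) : ℝ) ≤ 8 * n / (c0 * L) := by
    have h1 : ((Fintype.card V / j : ℕ) : ℝ) ≤ n / j := Nat.cast_div_le
    refine h1.trans ?_
    rw [div_le_div_iff₀ (by linarith) (by positivity)]
    have h2 : n * (c0 / 8 * L) ≤ n * j := mul_le_mul_of_nonneg_left hj2 hn0.le
    nlinarith
  have hcol : (K : ℝ) * (k' + 1) ≤ K1 * (8 * n / (c0 * L)) + 3 * K1 * n ^ (1 - c0 / 4) := by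
    have h1 : (k' : ℝ) + 1 ≤ (Fintype.card V / j : ℕ) + 1 + M := by exact_mod_cast hkk
    have h2 := hn1p (1 - c0 / 4) (by linarith)
    have h3 : (k' : ℝ) + 1 ≤ 8 * n / (c0 * L) + 3 * n ^ (1 - c0 / 4) := by linarith
    have h4 : (0 : ℝ) ≤ k' := Nat.cast_nonneg _
    calc (K : ℝ) * (k' + 1) ≤ K1 * (k' + 1) :=
          mul_le_mul_of_nonneg_right (by linarith) (by linarith)
      _ ≤ K1 * (8 * n / (c0 * L) + 3 * n ^ (1 - c0 / 4)) :=
          mul_le_mul_of_nonneg_left h3 (by linarith)
      _ = K1 * (8 * n / (c0 * L)) + 3 * K1 * n ^ (1 - c0 / 4) := by ring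
  have hsL : Real.sqrt L * Real.sqrt L = L := Real.mul_self_sqrt hL0.le
  have hsL0 : 0 < Real.sqrt L := Real.sqrt_pos.2 hL0
  have hn14 : n ^ (1 - c0 / 4) * n ^ e * n ^ e = n := by
    rw [← Real.rpow_add hn0, ← Real.rpow_add hn0, he]
    have : 1 - c0 / 4 + c0 / 8 + c0 / 8 = 1 := by ring
    rw [this, Real.rpow_one]
  have hne1 : 1 ≤ n ^ e := hn1p e he0.le
  have hB1 : 12 * K1 * Real.log n ≤ c1 * n ^ e := by
    have h1 : 12 * K1 / c1 * Real.log n ≤ n ^ e := by
      refine le_trans ?_ hlogB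
      apply mul_le_mul_of_nonneg_right _ hlog0.le
      have : 0 ≤ 12 * K1 / c2 := by positivity
      linarith
    rw [div_mul_eq_mul_div, div_le_iff₀ hc1] at h1
    linarith
  have hB2 : 12 * K1 * Real.log n ≤ c2 * n ^ e := by
    have h1 : 12 * K1 / c2 * Real.log n ≤ n ^ e := by
      refine le_trans ?_ hlogB
      apply mul_le_mul_of_nonneg_right _ hlog0.le
      have : 0 ≤ 12 * K1 / c1 := by positivity
      linarith
    rw [div_mul_eq_mul_div, div_le_iff₀ hc2] at h1
    linarith
  have hsl : Real.sqrt (Real.log n) ≤ Real.log n := by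
    apply Real.sqrt_le_iff.2
    refine ⟨hlog0.le, by nlinarith⟩
  have hsl0 : 0 < Real.sqrt (Real.log n) := Real.sqrt_pos.2 hlog0
  have hsll : Real.sqrt (Real.log n) * Real.sqrt (Real.log n) = Real.log n :=
    Real.mul_self_sqrt hlog0.le
  have hdegD : ∀ v, Fintype.card V ≤ dg G univ v + D := by
    intro v
    rw [hreg, hD]
    omega
  by_cases hhalf : (D : ℝ) ≤ (1 - 1 / 2) * n
  · -- dense graphs
    apply hmin V G hnn1 D hD1' hhalf hdegD
    push_cast
    refine hcol.trans ?_
    have hsq : Real.sqrt (Real.log (n / D) / Real.log n) = 1 / Real.sqrt L := by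
      rw [hL, ← Real.sqrt_one, ← Real.sqrt_div zero_le_one]
      congr 1
      rw [← hlq]
      field_simp
    rw [hsq]
    have hp1 : K1 * (8 * n / (c0 * L)) ≤ c1 * n / (2 * Real.sqrt L) := by
      have h1 : 16 * K1 / (c0 * c1) ≤ Real.sqrt L := by
        apply Real.le_sqrt_of_sq_le
        refine le_trans ?_ hLε
        rw [le_div_iff₀ hε0]
        calc (16 * K1 / (c0 * c1)) ^ 2 * ε
            ≤ (16 * K1 / (c0 * c1)) ^ 2 * (c0 * c1 / (16 * K1)) ^ 2 :=
              mul_le_mul_of_nonneg_left hεc (by positivity)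
          _ = 1 := by
              rw [← mul_pow]
              have : 16 * K1 / (c0 * c1) * (c0 * c1 / (16 * K1)) = 1 := by
                field_simp
              rw [this, one_pow]
      rw [div_le_iff₀ (by positivity)] at h1
      rw [mul_div_assoc', div_le_div_iff₀ (by positivity) (by positivity)]
      calc K1 * (8 * n) * (2 * Real.sqrt L) = (16 * K1) * (n * Real.sqrt L) := by ring
        _ ≤ (Real.sqrt L * (c0 * c1)) * (n * Real.sqrt L) :=
            mul_le_mul_of_nonneg_right h1 (by positivity)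
        _ = c1 * n * (c0 * (Real.sqrt L * Real.sqrt L)) := by ring
        _ = c1 * n * (c0 * L) := by rw [hsL]
    have hp2 : 3 * K1 * n ^ (1 - c0 / 4) ≤ c1 * n / (2 * Real.sqrt L) := by
      have h1 : Real.sqrt L ≤ 2 * Real.log n := by
        have h2 : L ≤ 2 * Real.log n := by
          rw [hL, div_le_iff₀ hlq0]
          have h3 : 1 / 2 ≤ lq := by
            refine le_trans ?_ hplq
            rw [le_div_iff₀ hn0]
            rw [hDR] at hhalf
            linarith
          nlinarith
        refine le_trans ?_ h2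
        apply Real.sqrt_le_iff.2
        have hL1 : 1 ≤ L := by
          have : c0 / 8 * L ≤ L := by nlinarith
          linarith
        exact ⟨hL0.le, by nlinarith⟩
      rw [le_div_iff₀ (by positivity)]
      calc 3 * K1 * n ^ (1 - c0 / 4) * (2 * Real.sqrt L)
          ≤ 3 * K1 * n ^ (1 - c0 / 4) * (2 * (2 * Real.log n)) := by
            apply mul_le_mul_of_nonneg_left _ (by positivity)
            linarith
        _ = n ^ (1 - c0 / 4) * (12 * K1 * Real.log n) := by ring
        _ ≤ n ^ (1 - c0 / 4) * (c1 * n ^ e) := mul_le_mul_of_nonneg_left hB1 (by positivity)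
        _ ≤ n ^ (1 - c0 / 4) * (c1 * n ^ e) * n ^ e := by
            have : 0 ≤ n ^ (1 - c0 / 4) * (c1 * n ^ e) := by positivity
            nlinarith
        _ = c1 * (n ^ (1 - c0 / 4) * n ^ e * n ^ e) := by ring
        _ = c1 * n := by rw [hn14]
    have hp3 : c1 * n / (2 * Real.sqrt L) + c1 * n / (2 * Real.sqrt L) =
        c1 * n * (1 / Real.sqrt L) := by
      field_simp
      ring
    linarith
  · -- sparse graphs
    push Not at hhalf
    have hd2' : (d : ℝ) < n / 2 := by
      rw [hDR] at hhalf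
      linarith
    -- the degree is large
    have hdlow : n ^ (1 - e) ≤ d :=
      (Real.rpow_le_rpow_of_exponent_le hn1 (by linarith)).trans hd1
    have hd0' : d0 ≤ (d : ℝ) / 2 := by
      have h1 : 2 * d0 ≤ n ^ e := by
        refine le_trans ?_ hCe
        have : 0 ≤ 64 * K1 / (c0 * c2) := by positivity
        linarith
      have h2 : n ^ e ≤ n ^ (1 - e) :=
        Real.rpow_le_rpow_of_exponent_le hn1 (by rw [he]; linarith)
      linarith
    apply hkt V G ((d : ℝ) / 2) hd0'
    · rw [Finset.sum_congr rfl (fun v _ => by rw [hreg v]), Finset.sum_const, Finset.card_univ,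
        nsmul_eq_mul, ← hnd]
      apply le_of_eq
      ring
    · push_cast
      refine hcol.trans ?_
      have hld : Real.log ((d : ℝ) / 2) ≤ Real.log n := by
        apply Real.log_le_log (by linarith)
        linarith
      have hld0 : 0 < Real.log ((d : ℝ) / 2) := Real.log_pos (by linarith)
      have hsd : Real.sqrt (Real.log ((d : ℝ) / 2)) ≤ Real.sqrt (Real.log n) :=
        Real.sqrt_le_sqrt hld
      have hfin : c2 * (d / 2) / Real.sqrt (Real.log n) ≤
          c2 * ((d : ℝ) / 2) / Real.sqrt (Real.log ((d : ℝ) / 2)) :=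
        div_le_div_of_nonneg_left (by positivity) (Real.sqrt_pos.2 hld0) hsd
      refine le_trans ?_ hfin
      have hlq2 : lq ≤ 2 * d / n := by
        have h1 : lq ≤ n / D - 1 := Real.log_le_sub_one_of_pos (by positivity)
        have h2 : n / D - 1 = d / D := by
          rw [hDR]
          have : n - d ≠ 0 := by
            rw [← hDR]
            exact hD0.ne'
          field_simp
          ring
        rw [h2] at h1
        refine h1.trans ?_
        rw [div_le_div_iff₀ hD0 hn0]
        nlinarith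
      have hp1 : K1 * (8 * n / (c0 * L)) ≤ c2 * d / (4 * Real.sqrt (Real.log n)) := by
        have h1 : 8 * n / (c0 * L) ≤ 16 * d / (c0 * Real.log n) := by
          rw [div_le_div_iff₀ (by positivity) (by positivity)]
          rw [le_div_iff₀ hn0] at hlq2
          calc 8 * n * (c0 * Real.log n) = 8 * c0 * L * (lq * n) := by
                rw [← hLlq]
                ring
            _ ≤ 8 * c0 * L * (2 * d) := mul_le_mul_of_nonneg_left hlq2 (by positivity)
            _ = 16 * d * (c0 * L) := by ring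
        have h2 : 64 * K1 / (c0 * c2) ≤ Real.sqrt (Real.log n) := by
          refine le_trans ?_ hCs
          linarith
        rw [div_le_iff₀ (by positivity)] at h2
        calc K1 * (8 * n / (c0 * L)) ≤ K1 * (16 * d / (c0 * Real.log n)) :=
              mul_le_mul_of_nonneg_left h1 (by linarith)
          _ ≤ c2 * d / (4 * Real.sqrt (Real.log n)) := by
              rw [mul_div_assoc', div_le_div_iff₀ (by positivity) (by positivity)]
              calc K1 * (16 * d) * (4 * Real.sqrt (Real.log n))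
                  = (64 * K1) * (d * Real.sqrt (Real.log n)) := by ring
                _ ≤ (Real.sqrt (Real.log n) * (c0 * c2)) * (d * Real.sqrt (Real.log n)) :=
                    mul_le_mul_of_nonneg_right h2 (by positivity)
                _ = c2 * d * (c0 * (Real.sqrt (Real.log n) * Real.sqrt (Real.log n))) := by ring
                _ = c2 * d * (c0 * Real.log n) := by rw [hsll]
      have hp2 : 3 * K1 * n ^ (1 - c0 / 4) ≤ c2 * d / (4 * Real.sqrt (Real.log n)) := by
        rw [le_div_iff₀ (by positivity)]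
        calc 3 * K1 * n ^ (1 - c0 / 4) * (4 * Real.sqrt (Real.log n))
            ≤ 3 * K1 * n ^ (1 - c0 / 4) * (4 * Real.log n) := by
              apply mul_le_mul_of_nonneg_left _ (by positivity)
              linarith
          _ = n ^ (1 - c0 / 4) * (12 * K1 * Real.log n) := by ring
          _ ≤ n ^ (1 - c0 / 4) * (c2 * n ^ e) := mul_le_mul_of_nonneg_left hB2 (by positivity)
          _ = c2 * n ^ (1 - e) := by
              have h1 : n ^ (1 - c0 / 4) * n ^ e = n ^ (1 - e) := by
                rw [← Real.rpow_add hn0, he]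
                congr 1
                ring
              rw [← h1]
              ring
          _ ≤ c2 * d := mul_le_mul_of_nonneg_left hdlow hc2.le
      have hp3 : c2 * d / (4 * Real.sqrt (Real.log n)) + c2 * d / (4 * Real.sqrt (Real.log n)) =
          c2 * (d / 2) / Real.sqrt (Real.log n) := by
        field_simp
        ring
      linarith

end Pool.Agent.Q112.KT
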