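import Mathlib

/-!
# Counting symmetric subsets of a finite group
-/

set_option autoImplicit false

namespace Pool.Agent.Q112.KT

open Finset

variable {Γ : Type} [Group Γ]

/-- connection sets -/
def IsSym (S : Finset Γ) : Prop := 1 ∉ S ∧ ∀ g ∈ S, g⁻¹ ∈ S

theorem IsSym.inv_mem_iff {S : Finset Γ} (h : IsSym S) (g : Γ) : g⁻¹ ∈ S ↔ g ∈ S := by
  constructor
  · intro hg
    have := h.2 _ hg
    rwa [inv_inv] at this
  · exact h.2 g

open Classical in
/-- the set of all connection sets -/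
noncomputable def symSets (Γ : Type) [Group Γ] [Fintype Γ] : Finset (Finset Γ) :=
  univ.filter IsSym

theorem mem_symSets [Fintype Γ] (S : Finset Γ) : S ∈ symSets Γ ↔ IsSym S := by
  classical
  simp [symSets]

open Classical in
/-- the quotients of `v` and the elements of `X` -/
noncomputable def quo (X : Finset Γ) (v : Γ) : Finset Γ :=
  X.image (fun x => v⁻¹ * x) ∪ X.image (fun x => x⁻¹ * v)

theorem mem_quo (X : Finset Γ) (v g : Γ) :
    g ∈ quo X v ↔ ∃ x ∈ X, g = v⁻¹ * x ∨ g = x⁻¹ * v := by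
  classical
  simp only [quo, mem_union, mem_image]
  constructor
  · rintro (⟨x, hx, h⟩ | ⟨x, hx, h⟩)
    · exact ⟨x, hx, Or.inl h.symm⟩
    · exact ⟨x, hx, Or.inr h.symm⟩
  · rintro ⟨x, hx, h | h⟩
    · exact Or.inl ⟨x, hx, h.symm⟩
    · exact Or.inr ⟨x, hx, h.symm⟩

theorem inv_mem_quo (X : Finset Γ) (v g : Γ) (h : g ∈ quo X v) : g⁻¹ ∈ quo X v := by
  rw [mem_quo] at h ⊢
  obtain ⟨x, hx, h | h⟩ := h
  · refine ⟨x, hx, Or.inr ?_⟩
    rw [h]
    group
  · refine ⟨x, hx, Or.inl ?_⟩
    rw [h]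
    group

theorem sdiff_quo {S : Finset Γ} [DecidableEq Γ] (h : IsSym S) (X : Finset Γ) (v : Γ) :
    IsSym (S \ quo X v) := by
  refine ⟨fun h1 => h.1 (mem_sdiff.1 h1).1, ?_⟩
  intro g hg
  rw [mem_sdiff] at hg ⊢
  refine ⟨h.2 g hg.1, fun h2 => hg.2 ?_⟩
  have := inv_mem_quo X v _ h2
  rwa [inv_inv] at this

open Classical in
/-- one step: the share of the sets avoiding all quotients -/
theorem avoid_step [Fintype Γ] (𝓕 : Finset (Finset Γ)) (hF : ∀ S ∈ 𝓕, IsSym S) (X : Finset Γ)
    (v : Γ) (hcl : ∀ S ∈ 𝓕, S \ quo X v ∈ 𝓕) :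
    𝓕.card ≤ 2 ^ X.card * (𝓕.filter (fun S => ∀ x ∈ X, v⁻¹ * x ∉ S)).card := by
  rw [mul_comm, ← Finset.card_powerset, ← Finset.card_product]
  apply Finset.card_le_card_of_injOn
    (fun S => (S \ quo X v, X.filter (fun x => v⁻¹ * x ∈ S)))
  · intro S hS
    have hS' : S ∈ 𝓕 := hS
    simp only [coe_product, Set.mem_prod, mem_coe, mem_filter, mem_powerset]
    refine ⟨⟨hcl S hS', ?_⟩, Finset.filter_subset _ _⟩
    intro x hx h
    rw [mem_sdiff] at h
    exact h.2 ((mem_quo _ _ _).2 ⟨x, hx, Or.inl rfl⟩)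
  · intro S hS S' hS' h
    have hS1 : IsSym S := hF S hS
    have hS2 : IsSym S' := hF S' hS'
    simp only [Prod.mk.injEq] at h
    obtain ⟨h1, h2⟩ := h
    have h3 : ∀ x ∈ X, (v⁻¹ * x ∈ S ↔ v⁻¹ * x ∈ S') := by
      intro x hx
      have := congrArg (fun T => x ∈ T) h2
      simp only [mem_filter, hx, true_and, eq_iff_iff] at this
      exact this
    ext g
    by_cases hg : g ∈ quo X v
    · rw [mem_quo] at hg
      obtain ⟨x, hx, hg | hg⟩ := hg
      · rw [hg]
        exact h3 x hx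
      · have e : g⁻¹ = v⁻¹ * x := by
          rw [hg]
          group
        rw [← hS1.inv_mem_iff, ← hS2.inv_mem_iff, e]
        exact h3 x hx
    · have := congrArg (fun T => g ∈ T) h1
      simp only [mem_sdiff, hg, not_false_eq_true, and_true, eq_iff_iff] at this
      exact this

open Classical in
/-- iterated -/
theorem avoid_iter [Fintype Γ] (X : Finset Γ) (W : Finset Γ)
    (hW : ∀ u ∈ W, ∀ v ∈ W, u ≠ v → Disjoint (quo X u) (quo X v)) :
    (((symSets Γ).filter (fun S => ∀ v ∈ W, ∃ x ∈ X, v⁻¹ * x ∈ S)).card : ℝ) ≤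
      (1 - (1 / 2) ^ X.card) ^ W.card * (symSets Γ).card := by
  induction W using Finset.induction_on with
  | empty => simp
  | insert v W hv ih =>
    have ih' := ih (fun u hu w hw => hW u (mem_insert_of_mem hu) w (mem_insert_of_mem hw))
    set 𝓕 := (symSets Γ).filter (fun S => ∀ v ∈ W, ∃ x ∈ X, v⁻¹ * x ∈ S) with h𝓕
    have hcl : ∀ S ∈ 𝓕, S \ quo X v ∈ 𝓕 := by
      intro S hS
      rw [h𝓕, mem_filter, mem_symSets] at hS ⊢
      refine ⟨sdiff_quo hS.1 X v, ?_⟩
      intro u hu
      obtain ⟨x, hx, h⟩ := hS.2 u hu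
      refine ⟨x, hx, ?_⟩
      rw [mem_sdiff]
      refine ⟨h, fun h' => ?_⟩
      have h1 : u ≠ v := fun e => hv (e ▸ hu)
      have h2 := hW u (mem_insert_of_mem hu) v (mem_insert_self v W) h1
      exact (Finset.disjoint_left.1 h2) ((mem_quo _ _ _).2 ⟨x, hx, Or.inl rfl⟩) h'
    have h1 := avoid_step 𝓕 (fun S hS => (mem_symSets S).1 (mem_filter.1 hS).1) X v hcl
    have h2 : ((symSets Γ).filter (fun S => ∀ u ∈ insert v W, ∃ x ∈ X, u⁻¹ * x ∈ S)).card +
        (𝓕.filter (fun S => ∀ x ∈ X, v⁻¹ * x ∉ S)).card = 𝓕.card := by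
      rw [← Finset.card_filter_add_card_filter_not (s := 𝓕)
        (fun S => ∃ x ∈ X, v⁻¹ * x ∈ S)]
      congr 1
      · apply congrArg
        ext S
        rw [mem_filter, h𝓕, mem_filter, mem_filter, Finset.forall_mem_insert]
        tauto
      · apply congrArg
        ext S
        simp only [mem_filter, not_exists, not_and]
    have h1' : (𝓕.card : ℝ) ≤
        2 ^ X.card * (𝓕.filter (fun S => ∀ x ∈ X, v⁻¹ * x ∉ S)).card := by exact_mod_cast h1
    have h2' : (((symSets Γ).filter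
          (fun S => ∀ u ∈ insert v W, ∃ x ∈ X, u⁻¹ * x ∈ S)).card : ℝ) +
        (𝓕.filter (fun S => ∀ x ∈ X, v⁻¹ * x ∉ S)).card = 𝓕.card := by exact_mod_cast h2
    have h3 : (1 / 2 : ℝ) ^ X.card * 𝓕.card ≤
        (𝓕.filter (fun S => ∀ x ∈ X, v⁻¹ * x ∉ S)).card := by
      rw [one_div, inv_pow, inv_mul_le_iff₀ (by positivity)]
      exact h1'
    have h4 : (0 : ℝ) ≤ 1 - (1 / 2) ^ X.card := by
      have : (1 / 2 : ℝ) ^ X.card ≤ 1 := pow_le_one₀ (by norm_num) (by norm_num)
      linarith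
    rw [Finset.card_insert_of_notMem hv]
    calc (((symSets Γ).filter
          (fun S => ∀ u ∈ insert v W, ∃ x ∈ X, u⁻¹ * x ∈ S)).card : ℝ)
        ≤ (1 - (1 / 2) ^ X.card) * 𝓕.card := by linarith
      _ ≤ (1 - (1 / 2) ^ X.card) * ((1 - (1 / 2) ^ X.card) ^ W.card * (symSets Γ).card) :=
          mul_le_mul_of_nonneg_left ih' h4
      _ = (1 - (1 / 2) ^ X.card) ^ (W.card + 1) * (symSets Γ).card := by ring

/-- overlapping quotients -/
theorem quo_overlap (X : Finset Γ) (u v : Γ) (h : ¬ Disjoint (quo X v) (quo X u)) :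
    ∃ x ∈ X, ∃ y ∈ X, v = x * y⁻¹ * u ∨ v = x * u⁻¹ * y := by
  classical
  rw [Finset.not_disjoint_iff] at h
  obtain ⟨g, hg1, hg2⟩ := h
  rw [mem_quo] at hg1 hg2
  obtain ⟨x, hx, h1⟩ := hg1
  obtain ⟨y, hy, h2⟩ := hg2
  refine ⟨x, hx, y, hy, ?_⟩
  rcases h1 with h1 | h1 <;> rcases h2 with h2 | h2
  · left
    have e : v⁻¹ * x = u⁻¹ * y := h1.symm.trans h2
    have e2 : x = v * (u⁻¹ * y) := by rw [← e]; group
    rw [e2]
    group
  · right
    have e : v⁻¹ * x = y⁻¹ * u := h1.symm.trans h2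
    have e2 : x = v * (y⁻¹ * u) := by rw [← e]; group
    rw [e2]
    group
  · right
    have e : x⁻¹ * v = u⁻¹ * y := h1.symm.trans h2
    have e2 : v = x * (u⁻¹ * y) := by rw [← e]; group
    rw [mul_assoc]
    exact e2
  · left
    have e : x⁻¹ * v = y⁻¹ * u := h1.symm.trans h2
    have e2 : v = x * (y⁻¹ * u) := by rw [← e]; group
    rw [mul_assoc]
    exact e2

/-- a large family of vertices with disjoint sets of quotients -/
theorem exists_family [Fintype Γ] (X : Finset Γ) (hX : X.Nonempty) :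
    ∃ W : Finset Γ, Disjoint W X ∧
      (∀ u ∈ W, ∀ v ∈ W, u ≠ v → Disjoint (quo X u) (quo X v)) ∧
      Fintype.card Γ ≤ X.card + W.card * (2 * X.card ^ 2) := by
  classical
  set P : Finset (Finset Γ) := univ.filter (fun W => Disjoint W X ∧
      (∀ u ∈ W, ∀ v ∈ W, u ≠ v → Disjoint (quo X u) (quo X v))) with hP
  have hPne : P.Nonempty := ⟨∅, by simp [hP]⟩
  obtain ⟨W, hW, hmax⟩ := Finset.exists_max_image P Finset.card hPne
  rw [hP, mem_filter] at hW
  refine ⟨W, hW.2.1, hW.2.2, ?_⟩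
  set B : Γ → Finset Γ := fun u => (X ×ˢ X).image (fun p => p.1 * p.2⁻¹ * u) ∪
    (X ×ˢ X).image (fun p => p.1 * u⁻¹ * p.2) with hB
  have hBcard : ∀ u, (B u).card ≤ 2 * X.card ^ 2 := by
    intro u
    refine (Finset.card_union_le _ _).trans ?_
    have h1 : ((X ×ˢ X).image (fun p => p.1 * p.2⁻¹ * u)).card ≤ X.card * X.card := by
      rw [← Finset.card_product]
      exact Finset.card_image_le
    have h2 : ((X ×ˢ X).image (fun p => p.1 * u⁻¹ * p.2)).card ≤ X.card * X.card := by
      rw [← Finset.card_product]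
      exact Finset.card_image_le
    rw [pow_two]
    omega
  have hcov : (univ : Finset Γ) ⊆ X ∪ W.biUnion B := by
    intro v _
    by_cases hvX : v ∈ X
    · exact mem_union_left _ hvX
    apply mem_union_right
    rw [mem_biUnion]
    by_cases hvW : v ∈ W
    · obtain ⟨x, hx⟩ := hX
      refine ⟨v, hvW, ?_⟩
      rw [hB]
      apply mem_union_left
      rw [mem_image]
      refine ⟨(x, x), mem_product.2 ⟨hx, hx⟩, ?_⟩
      simp
    · by_contra hno
      push Not at hno
      have hins : insert v W ∈ P := by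
        rw [hP, mem_filter]
        refine ⟨mem_univ _, ?_, ?_⟩
        · rw [Finset.disjoint_insert_left]
          exact ⟨hvX, hW.2.1⟩
        · have key : ∀ u ∈ W, Disjoint (quo X v) (quo X u) := by
            intro u hu
            by_contra hd
            obtain ⟨x, hx, y, hy, h⟩ := quo_overlap X u v hd
            apply hno u hu
            rw [hB]
            rcases h with h | h
            · apply mem_union_left
              rw [mem_image]
              exact ⟨(x, y), mem_product.2 ⟨hx, hy⟩, h.symm⟩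
            · apply mem_union_right
              rw [mem_image]
              exact ⟨(x, y), mem_product.2 ⟨hx, hy⟩, h.symm⟩
          intro u hu w hw huw
          rw [mem_insert] at hu hw
          rcases hu with rfl | hu
          · rcases hw with rfl | hw
            · exact absurd rfl huw
            · exact key w hw
          · rcases hw with rfl | hw
            · exact (key u hu).symm
            · exact hW.2.2 u hu w hw huw
      have h1 := hmax _ hins
      rw [Finset.card_insert_of_notMem hvW] at h1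
      omega
  have h1 := Finset.card_le_card hcov
  rw [Finset.card_univ] at h1
  refine h1.trans ((Finset.card_union_le _ _).trans ?_)
  have h2 : (W.biUnion B).card ≤ W.card * (2 * X.card ^ 2) :=
    Finset.card_biUnion_le_card_mul _ _ _ (fun u _ => hBcard u)
  omega

end Pool.Agent.Q112.KT
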