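import Pool.Agent.Q112.KT.Rand
import Pool.Agent.Q112.KT.Dense
import Pool.Agent.Q112.KT.Cover

/-!
# Random Cayley graphs: independent sets and degrees
-/

set_option autoImplicit false

namespace Pool.Agent.Q112.KT

open Finset

variable {Γ : Type} [Group Γ]

open Classical in
/-- union bound for the sets which cannot be extended -/
theorem extend_count [Fintype Γ] (k M : ℕ) (hk : 1 ≤ k)
    (hM : k + M * (2 * k ^ 2) ≤ Fintype.card Γ) :
    (((symSets Γ).filter (fun S => ∃ f : Fin k → Γ, ∀ v, (∀ i, v ≠ f i) →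
      ∃ i, v⁻¹ * f i ∈ S)).card : ℝ) ≤
      (Fintype.card Γ : ℝ) ^ k * (1 - (1 / 2) ^ k) ^ M * (symSets Γ).card := by
  have hsub : (symSets Γ).filter (fun S => ∃ f : Fin k → Γ, ∀ v, (∀ i, v ≠ f i) →
      ∃ i, v⁻¹ * f i ∈ S) ⊆ (univ : Finset (Fin k → Γ)).biUnion (fun f =>
        (symSets Γ).filter (fun S => ∀ v, (∀ i, v ≠ f i) → ∃ i, v⁻¹ * f i ∈ S)) := by
    intro S hS
    rw [mem_filter] at hS
    obtain ⟨f, hf⟩ := hS.2
    rw [mem_biUnion]
    exact ⟨f, mem_univ _, mem_filter.2 ⟨hS.1, hf⟩⟩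
  have hone : ∀ f : Fin k → Γ, (((symSets Γ).filter (fun S => ∀ v, (∀ i, v ≠ f i) →
      ∃ i, v⁻¹ * f i ∈ S)).card : ℝ) ≤ (1 - (1 / 2) ^ k) ^ M * (symSets Γ).card := by
    intro f
    set X : Finset Γ := univ.image f with hX
    have hXne : X.Nonempty := ⟨f ⟨0, hk⟩, mem_image_of_mem _ (mem_univ _)⟩
    have hXk : X.card ≤ k := by
      have := Finset.card_image_le (s := (univ : Finset (Fin k))) (f := f)
      rwa [Finset.card_univ, Fintype.card_fin] at this
    obtain ⟨W, hWX, hW, hWcard⟩ := exists_family X hXne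
    have h2 : X.card ^ 2 ≤ k ^ 2 := Nat.pow_le_pow_left hXk 2
    have hMW : M ≤ W.card := by
      have h3 : W.card * (2 * X.card ^ 2) ≤ W.card * (2 * k ^ 2) :=
        Nat.mul_le_mul_left _ (Nat.mul_le_mul_left _ h2)
      have h4 : M * (2 * k ^ 2) ≤ W.card * (2 * k ^ 2) := by omega
      have h5 : 0 < 2 * k ^ 2 := by positivity
      exact Nat.le_of_mul_le_mul_right h4 h5
    have h6 : (symSets Γ).filter (fun S => ∀ v, (∀ i, v ≠ f i) → ∃ i, v⁻¹ * f i ∈ S) ⊆
        (symSets Γ).filter (fun S => ∀ v ∈ W, ∃ x ∈ X, v⁻¹ * x ∈ S) := by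
      intro S hS
      rw [mem_filter] at hS ⊢
      refine ⟨hS.1, ?_⟩
      intro v hv
      obtain ⟨i, hi⟩ := hS.2 v (fun i h => (Finset.disjoint_left.1 hWX) hv
        (by rw [h, hX]; exact mem_image_of_mem _ (mem_univ _)))
      exact ⟨f i, mem_image_of_mem _ (mem_univ _), hi⟩
    have h7 := avoid_iter X W hW
    have hXpow : (1 / 2 : ℝ) ^ k ≤ (1 / 2) ^ X.card :=
      pow_le_pow_of_le_one (by norm_num) (by norm_num) hXk
    have hk1 : (1 / 2 : ℝ) ^ k ≤ 1 := pow_le_one₀ (by norm_num) (by norm_num)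
    have hk0 : (0 : ℝ) < (1 / 2) ^ k := by positivity
    have hX1 : (1 / 2 : ℝ) ^ X.card ≤ 1 := pow_le_one₀ (by norm_num) (by norm_num)
    calc (((symSets Γ).filter (fun S => ∀ v, (∀ i, v ≠ f i) → ∃ i, v⁻¹ * f i ∈ S)).card : ℝ)
        ≤ (((symSets Γ).filter (fun S => ∀ v ∈ W, ∃ x ∈ X, v⁻¹ * x ∈ S)).card : ℝ) := by
          exact_mod_cast Finset.card_le_card h6
      _ ≤ (1 - (1 / 2) ^ X.card) ^ W.card * (symSets Γ).card := h7
      _ ≤ (1 - (1 / 2) ^ k) ^ W.card * (symSets Γ).card := by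
          apply mul_le_mul_of_nonneg_right _ (Nat.cast_nonneg _)
          exact pow_le_pow_left₀ (by linarith) (by linarith) _
      _ ≤ (1 - (1 / 2) ^ k) ^ M * (symSets Γ).card := by
          apply mul_le_mul_of_nonneg_right _ (Nat.cast_nonneg _)
          exact pow_le_pow_of_le_one (by linarith) (by linarith) hMW
  calc (((symSets Γ).filter (fun S => ∃ f : Fin k → Γ, ∀ v, (∀ i, v ≠ f i) →
        ∃ i, v⁻¹ * f i ∈ S)).card : ℝ)
      ≤ ((univ : Finset (Fin k → Γ)).biUnion (fun f =>
        (symSets Γ).filter (fun S => ∀ v, (∀ i, v ≠ f i) → ∃ i, v⁻¹ * f i ∈ S))).card := by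
        exact_mod_cast Finset.card_le_card hsub
    _ ≤ ∑ f : Fin k → Γ, (((symSets Γ).filter (fun S => ∀ v, (∀ i, v ≠ f i) →
        ∃ i, v⁻¹ * f i ∈ S)).card : ℝ) := by
        exact_mod_cast Finset.card_biUnion_le
    _ ≤ ∑ _f : Fin k → Γ, (1 - (1 / 2) ^ k) ^ M * ((symSets Γ).card : ℝ) :=
        Finset.sum_le_sum (fun f _ => hone f)
    _ = (Fintype.card Γ : ℝ) ^ k * (1 - (1 / 2) ^ k) ^ M * (symSets Γ).card := by
        rw [Finset.sum_const, Finset.card_univ, Fintype.card_fun, Fintype.card_fin, nsmul_eq_mul]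
        push_cast
        ring

open Classical in
/-- exponential moment of the number of chosen classes -/
theorem exp_moment [Fintype Γ] (W : Finset Γ) (h1W : (1 : Γ) ∉ W)
    (hW : ∀ u ∈ W, ∀ v ∈ W, u ≠ v → u ≠ v⁻¹) :
    ∑ S ∈ symSets Γ, (1 / 3 : ℝ) ^ (W.filter (fun v => v ∈ S)).card =
      (2 / 3) ^ W.card * (symSets Γ).card := by
  induction W using Finset.induction_on with
  | empty => simp
  | insert v W hv ih =>
    have ih' := ih (fun h => h1W (mem_insert_of_mem h))
      (fun u hu w hw => hW u (mem_insert_of_mem hu) w (mem_insert_of_mem hw))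
    set D : Finset Γ := {v, v⁻¹} with hD
    have hvD : v ∈ D := by rw [hD]; exact mem_insert_self _ _
    have hDinv : ∀ g, g⁻¹ ∈ D ↔ g ∈ D := by
      intro g
      rw [hD, mem_insert, mem_insert, mem_singleton, mem_singleton, inv_eq_iff_eq_inv,
        inv_inj]
      tauto
    have h1D : (1 : Γ) ∉ D := by
      rw [hD, mem_insert, mem_singleton]
      intro h
      have h1v : (1 : Γ) ≠ v := fun h => h1W (h ▸ mem_insert_self _ _)
      rcases h with h | h
      · exact h1v h
      · apply h1v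
        rw [eq_comm, inv_eq_one] at h
        exact h.symm
    have hWD : ∀ u ∈ W, u ∉ D := by
      intro u hu h
      rw [hD, mem_insert, mem_singleton] at h
      have huv : u ≠ v := fun e => hv (e ▸ hu)
      rcases h with h | h
      · exact huv h
      · exact hW u (mem_insert_of_mem hu) v (mem_insert_self _ _) huv h
    have hsym : ∀ S ∈ symSets Γ, symmDiff S D ∈ symSets Γ := by
      intro S hS
      rw [mem_symSets] at hS ⊢
      refine ⟨?_, ?_⟩
      · rw [Finset.mem_symmDiff]
        have := hS.1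
        tauto
      · intro g hg
        rw [Finset.mem_symmDiff] at hg ⊢
        rw [hS.inv_mem_iff, hDinv]
        exact hg
    set F : Finset Γ → ℝ := fun S =>
      (1 / 3 : ℝ) ^ ((insert v W).filter (fun v => v ∈ S)).card with hF
    have hsum : ∑ S ∈ symSets Γ, F S = ∑ S ∈ symSets Γ, F (symmDiff S D) := by
      refine Finset.sum_nbij' (fun S => symmDiff S D) (fun S => symmDiff S D) hsym hsym ?_ ?_ ?_
      · intro S _
        exact symmDiff_symmDiff_cancel_right D S
      · intro S _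
        exact symmDiff_symmDiff_cancel_right D S
      · intro S _
        rw [symmDiff_symmDiff_cancel_right D S]
    have hpair : ∀ S ∈ symSets Γ, F S + F (symmDiff S D) =
        (4 / 3) * (1 / 3 : ℝ) ^ (W.filter (fun v => v ∈ S)).card := by
      intro S _
      have e1 : W.filter (fun u => u ∈ symmDiff S D) = W.filter (fun u => u ∈ S) := by
        apply Finset.filter_congr
        intro u hu
        rw [Finset.mem_symmDiff]
        have := hWD u hu
        tauto
      have hvf : ∀ T : Finset Γ, v ∉ W.filter (fun u => u ∈ T) :=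
        fun T h => hv (mem_filter.1 h).1
      by_cases hvS : v ∈ S
      · have hv2 : v ∉ symmDiff S D := by
          rw [Finset.mem_symmDiff]
          tauto
        show (1 / 3 : ℝ) ^ ((insert v W).filter (fun u => u ∈ S)).card +
          (1 / 3 : ℝ) ^ ((insert v W).filter (fun u => u ∈ symmDiff S D)).card = _
        rw [Finset.filter_insert, if_pos hvS, Finset.filter_insert, if_neg hv2, e1,
          Finset.card_insert_of_notMem (hvf S)]
        ring
      · have hv2 : v ∈ symmDiff S D := by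
          rw [Finset.mem_symmDiff]
          tauto
        show (1 / 3 : ℝ) ^ ((insert v W).filter (fun u => u ∈ S)).card +
          (1 / 3 : ℝ) ^ ((insert v W).filter (fun u => u ∈ symmDiff S D)).card = _
        rw [Finset.filter_insert, if_neg hvS, Finset.filter_insert, if_pos hv2, e1,
          Finset.card_insert_of_notMem (hvf S)]
        ring
    have h2 : 2 * ∑ S ∈ symSets Γ, F S =
        (4 / 3) * ((2 / 3) ^ W.card * (symSets Γ).card) := by
      rw [two_mul]
      nth_rewrite 2 [hsum]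
      rw [← Finset.sum_add_distrib, Finset.sum_congr rfl hpair, ← Finset.mul_sum, ih']
    rw [Finset.card_insert_of_notMem hv]
    have h3 : ∑ S ∈ symSets Γ, F S = (2 / 3) ^ (W.card + 1) * (symSets Γ).card := by
      rw [pow_succ]
      linarith
    exact h3

open Classical in
/-- few connection sets are small -/
theorem small_count [Fintype Γ] (w : ℕ) (hw : 2 * w + 1 ≤ Fintype.card Γ) :
    (((symSets Γ).filter (fun S => 8 * S.card < w)).card : ℝ) ≤
      (4 / 5) ^ w * (symSets Γ).card := by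
  obtain ⟨W, hW1, hW2, hW3⟩ := exists_family ({1} : Finset Γ) ⟨1, mem_singleton_self 1⟩
  rw [Finset.card_singleton] at hW3
  have hwW : w ≤ W.card := by omega
  obtain ⟨W', hW'W, hW'c⟩ := Finset.exists_subset_card_eq hwW
  have h1 : (1 : Γ) ∉ W' := fun h =>
    (Finset.disjoint_left.1 hW1) (hW'W h) (mem_singleton_self 1)
  have h2 : ∀ u ∈ W', ∀ v ∈ W', u ≠ v → u ≠ v⁻¹ := by
    intro u hu v hv huv h
    have h3 := hW2 u (hW'W hu) v (hW'W hv) huv
    apply (Finset.disjoint_left.1 h3) (a := u)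
    · rw [mem_quo]
      exact ⟨1, mem_singleton_self 1, Or.inr (by simp)⟩
    · rw [mem_quo]
      exact ⟨1, mem_singleton_self 1, Or.inl (by simp [h])⟩
  have h3 := exp_moment W' h1 h2
  rw [hW'c] at h3
  set q : ℕ := w / 8 with hq
  have h4 : ∀ S ∈ (symSets Γ).filter (fun S => 8 * S.card < w),
      (1 / 3 : ℝ) ^ q ≤ (1 / 3 : ℝ) ^ (W'.filter (fun v => v ∈ S)).card := by
    intro S hS
    rw [mem_filter] at hS
    apply pow_le_pow_of_le_one (by norm_num) (by norm_num)
    have h5 : (W'.filter (fun v => v ∈ S)).card ≤ S.card := by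
      apply Finset.card_le_card
      intro v hv
      exact (mem_filter.1 hv).2
    have h6 := hS.2
    omega
  have h5 : (((symSets Γ).filter (fun S => 8 * S.card < w)).card : ℝ) * (1 / 3) ^ q ≤
      (2 / 3) ^ w * (symSets Γ).card := by
    rw [← h3]
    calc (((symSets Γ).filter (fun S => 8 * S.card < w)).card : ℝ) * (1 / 3) ^ q
        = ∑ _S ∈ (symSets Γ).filter (fun S => 8 * S.card < w), (1 / 3 : ℝ) ^ q := by
          rw [Finset.sum_const, nsmul_eq_mul]
      _ ≤ ∑ S ∈ (symSets Γ).filter (fun S => 8 * S.card < w),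
          (1 / 3 : ℝ) ^ (W'.filter (fun v => v ∈ S)).card := Finset.sum_le_sum h4
      _ ≤ ∑ S ∈ symSets Γ, (1 / 3 : ℝ) ^ (W'.filter (fun v => v ∈ S)).card := by
          apply Finset.sum_le_sum_of_subset_of_nonneg (Finset.filter_subset _ _)
          intro S _ _
          positivity
  have h6 : (3 : ℝ) ^ q ≤ (6 / 5) ^ w := by
    calc (3 : ℝ) ^ q ≤ ((6 / 5 : ℝ) ^ 8) ^ q := by
          apply pow_le_pow_left₀ (by norm_num)
          norm_num
      _ = (6 / 5) ^ (8 * q) := by rw [← pow_mul]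
      _ ≤ (6 / 5) ^ w := by
          apply pow_le_pow_right₀ (by norm_num)
          omega
  calc (((symSets Γ).filter (fun S => 8 * S.card < w)).card : ℝ)
      = 3 ^ q * ((((symSets Γ).filter (fun S => 8 * S.card < w)).card : ℝ) * (1 / 3) ^ q) := by
        rw [one_div, inv_pow]
        field_simp
    _ ≤ 3 ^ q * ((2 / 3) ^ w * (symSets Γ).card) :=
        mul_le_mul_of_nonneg_left h5 (by positivity)
    _ ≤ (6 / 5) ^ w * ((2 / 3) ^ w * (symSets Γ).card) :=
        mul_le_mul_of_nonneg_right h6 (by positivity)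
    _ = (4 / 5) ^ w * (symSets Γ).card := by
        rw [← mul_assoc, ← mul_pow]
        norm_num

/-- sets extend to independent sets of size `k` -/
theorem exists_indep [Fintype Γ] (S : Finset Γ) (hS : IsSym S) (k : ℕ)
    (hext : ∀ f : Fin k → Γ, ∃ v, (∀ i, v ≠ f i) ∧ ∀ i, v⁻¹ * f i ∉ S) (j : ℕ) (hj1 : 1 ≤ j)
    (hj : j ≤ k) : ∃ I : Finset Γ, I.card = j ∧ ∀ x ∈ I, ∀ y ∈ I, x⁻¹ * y ∉ S := by
  classical
  induction j with
  | zero => omega
  | succ j ih =>
    rcases Nat.eq_zero_or_pos j with h0 | h0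
    · subst h0
      refine ⟨{1}, by simp, ?_⟩
      intro x hx y hy
      rw [mem_singleton] at hx hy
      rw [hx, hy]
      simpa using hS.1
    · obtain ⟨I, hI1, hI2⟩ := ih h0 (by omega)
      have hne : I.Nonempty := Finset.card_pos.1 (by omega)
      -- a surjection from `Fin k` to `I`
      have hsurj : ∃ f : Fin k → Γ, ∀ x ∈ I, ∃ i, f i = x := by
        set e := I.equivFin with he
        refine ⟨fun i => if h : (i : ℕ) < I.card then (e.symm ⟨i, h⟩ : Γ) else 1, ?_⟩
        intro x hx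
        refine ⟨⟨e ⟨x, hx⟩, ?_⟩, ?_⟩
        · have := (e ⟨x, hx⟩).2
          omega
        · have h1 : ((e ⟨x, hx⟩ : Fin I.card) : ℕ) < I.card := (e ⟨x, hx⟩).2
          simp
      obtain ⟨f, hf⟩ := hsurj
      obtain ⟨v, hv1, hv2⟩ := hext f
      have hvI : v ∉ I := by
        intro h
        obtain ⟨i, hi⟩ := hf v h
        exact hv1 i hi.symm
      refine ⟨insert v I, ?_, ?_⟩
      · rw [Finset.card_insert_of_notMem hvI, hI1]
      · have key : ∀ x ∈ I, v⁻¹ * x ∉ S := by
          intro x hx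
          obtain ⟨i, hi⟩ := hf x hx
          rw [← hi]
          exact hv2 i
        intro x hx y hy
        rw [mem_insert] at hx hy
        rcases hx with rfl | hx
        · rcases hy with rfl | hy
          · simpa using hS.1
          · exact key y hy
        · rcases hy with rfl | hy
          · rw [← hS.inv_mem_iff]
            have e : (x⁻¹ * y)⁻¹ = y⁻¹ * x := by group
            rw [e]
            exact key x hx
          · exact hI2 x hx y hy

theorem cay_adj [Fintype Γ] (S : Finset Γ) (hS : IsSym S) (x y : Γ) :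
    (SimpleGraph.mulCayley (S : Set Γ)).Adj x y ↔ x⁻¹ * y ∈ S := by
  rw [SimpleGraph.mulCayley_adj']
  constructor
  · rintro ⟨_, g, hg, h | h⟩
    · rw [← h]
      simpa using hg
    · rw [h]
      have : (y * g)⁻¹ * y = g⁻¹ := by group
      rw [this]
      exact hS.2 g hg
  · intro h
    refine ⟨?_, x⁻¹ * y, h, Or.inl (by group)⟩
    intro hxy
    rw [hxy] at h
    apply hS.1
    simpa using h

theorem cay_trans [Fintype Γ] (S : Finset Γ) (hS : IsSym S) (x y : Γ) :
    ∃ φ : SimpleGraph.mulCayley (S : Set Γ) ≃g SimpleGraph.mulCayley (S : Set Γ), φ x = y := by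
  refine ⟨⟨Equiv.mulLeft (y * x⁻¹), ?_⟩, ?_⟩
  · intro a b
    rw [cay_adj S hS, cay_adj S hS]
    have e : (Equiv.mulLeft (y * x⁻¹) a)⁻¹ * Equiv.mulLeft (y * x⁻¹) b = a⁻¹ * b := by
      simp only [Equiv.coe_mulLeft]
      group
    rw [e]
  · show Equiv.mulLeft (y * x⁻¹) x = y
    simp

theorem deg_of_adj [Fintype Γ] (S : Finset Γ) (G : SimpleGraph Γ)
    (hG : ∀ x y, G.Adj x y ↔ x⁻¹ * y ∈ S) (v : Γ) : dg G univ v = S.card := by
  classical
  symm
  unfold dg
  refine Finset.card_bij (fun s _ => v * s) ?_ ?_ ?_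
  · intro s hs
    refine Finset.mem_filter.2 ⟨mem_univ _, ?_⟩
    rw [hG]
    simpa using hs
  · intro s _ s' _ h
    exact mul_left_cancel h
  · intro w hw
    have h1 := (Finset.mem_filter.1 hw).2
    rw [hG] at h1
    exact ⟨v⁻¹ * w, h1, by group⟩

theorem cay_deg [Fintype Γ] (S : Finset Γ) (hS : IsSym S) (v : Γ) :
    dg (SimpleGraph.mulCayley (S : Set Γ)) univ v = S.card :=
  deg_of_adj S _ (cay_adj S hS) v

end Pool.Agent.Q112.KT
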