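import Mathlib

/-!
# Robustly connected parts of dense graphs
-/

set_option autoImplicit false

namespace Pool.Agent.Q112.KT

open Finset

open Classical in
/-- number of neighbours of `v` in `U` -/
noncomputable def dg {V : Type} (G : SimpleGraph V) (U : Finset V) (v : V) : ℕ :=
  (U.filter (fun w => G.Adj v w)).card

open Classical in
/-- The graph induced on `U` stays connected when at most `K` vertices are deleted. -/
def Robust {V : Type} (G : SimpleGraph V) (U : Finset V) (K : ℕ) : Prop :=
  ∀ W ⊆ U, W.card ≤ K → (G.induce ((U \ W : Finset V) : Set V)).Connected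

open Classical in
/-- vertices at all distances -/
theorem exists_dist {V : Type} (G : SimpleGraph V) (hc : G.Connected) (x : V) :
    ∀ (n : ℕ) (y : V), G.dist x y = n → ∀ k ≤ n, ∃ z, G.dist x z = k := by
  intro n
  induction n with
  | zero =>
    intro y hy k hk
    exact ⟨y, by omega⟩
  | succ n ih =>
    intro y hy k hk
    rcases Nat.eq_or_lt_of_le hk with h | h
    · exact ⟨y, by omega⟩
    · obtain ⟨p, hp⟩ := hc.exists_walk_length_eq_dist y x
      rw [SimpleGraph.dist_comm, hy] at hp
      cases p with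
      | nil => simp at hp
      | @cons _ v _ hadj q =>
        rw [SimpleGraph.Walk.length_cons] at hp
        have h1 : G.dist v x ≤ n := by
          have := SimpleGraph.dist_le q
          omega
        have h2 : G.dist x y ≤ G.dist x v + 1 := by
          have h3 := hc.dist_triangle (u := x) (v := v) (w := y)
          have h4 : G.dist v y = 1 := SimpleGraph.dist_eq_one_iff_adj.2 hadj.symm
          omega
        rw [SimpleGraph.dist_comm] at h1
        have h5 : G.dist x v = n := by omega
        exact ih v h5 k (by omega)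

open Classical in
theorem dist_bound {V : Type} [Fintype V] (G : SimpleGraph V) (hc : G.Connected) (D : ℕ)
    (hD : ∀ v, D ≤ (univ.filter (fun w => G.Adj v w)).card) (x y : V) :
    G.dist x y * D ≤ 3 * Fintype.card V := by
  set ℓ := G.dist x y with hℓ
  set m := ℓ / 3 with hm
  have hex : ∀ j : ℕ, ∃ z, j ≤ m → G.dist x z = 3 * j := by
    intro j
    by_cases hj : j ≤ m
    · obtain ⟨z, hz⟩ := exists_dist G hc x ℓ y rfl (3 * j) (by omega)
      exact ⟨z, fun _ => hz⟩
    · exact ⟨x, fun h => absurd h hj⟩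
  choose u hu using hex
  have hdisj : ∀ j ∈ Finset.range (m + 1), ∀ j' ∈ Finset.range (m + 1), j ≠ j' →
      Disjoint (univ.filter (fun w => G.Adj (u j) w)) (univ.filter (fun w => G.Adj (u j') w)) := by
    intro j hj j' hj' hne
    rw [Finset.disjoint_left]
    intro z hz hz'
    have h1 := (Finset.mem_filter.1 hz).2
    have h2 := (Finset.mem_filter.1 hz').2
    have e1 := hu j (by have := Finset.mem_range.1 hj; omega)
    have e2 := hu j' (by have := Finset.mem_range.1 hj'; omega)
    have a1 : G.dist (u j) z = 1 := SimpleGraph.dist_eq_one_iff_adj.2 h1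
    have a2 : G.dist (u j') z = 1 := SimpleGraph.dist_eq_one_iff_adj.2 h2
    have a1' : G.dist z (u j) = 1 := by rw [SimpleGraph.dist_comm]; exact a1
    have a2' : G.dist z (u j') = 1 := by rw [SimpleGraph.dist_comm]; exact a2
    have t1 := hc.dist_triangle (u := x) (v := z) (w := u j)
    have t2 := hc.dist_triangle (u := x) (v := z) (w := u j')
    have t3 := hc.dist_triangle (u := x) (v := u j) (w := z)
    have t4 := hc.dist_triangle (u := x) (v := u j') (w := z)
    omega
  have h1 : ((Finset.range (m + 1)).biUnion (fun j => univ.filter (fun w => G.Adj (u j) w))).card =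
      ∑ j ∈ Finset.range (m + 1), (univ.filter (fun w => G.Adj (u j) w)).card :=
    Finset.card_biUnion hdisj
  have h2 : (m + 1) * D ≤ Fintype.card V := by
    calc (m + 1) * D = ∑ j ∈ Finset.range (m + 1), D := by
          rw [Finset.sum_const, Finset.card_range, smul_eq_mul]
      _ ≤ ∑ j ∈ Finset.range (m + 1), (univ.filter (fun w => G.Adj (u j) w)).card :=
          Finset.sum_le_sum fun j _ => hD _
      _ = _ := h1.symm
      _ ≤ Fintype.card V := Finset.card_le_univ _
  have h3 : ℓ ≤ 3 * (m + 1) := by omega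
  calc ℓ * D ≤ 3 * (m + 1) * D := Nat.mul_le_mul_right _ h3
    _ = 3 * ((m + 1) * D) := by ring
    _ ≤ 3 * Fintype.card V := Nat.mul_le_mul_left _ h2

open Classical in
/-- Two vertices of a connected graph of large minimum degree are in a small connected set. -/
theorem small_connected {V : Type} [Fintype V] (G : SimpleGraph V) (R : Finset V)
    (hc : (G.induce (R : Set V)).Connected) (D : ℕ) (hD : ∀ v ∈ R, D ≤ dg G R v) (x y : V)
    (hx : x ∈ R) (hy : y ∈ R) :
    ∃ P : Finset V, P ⊆ R ∧ x ∈ P ∧ y ∈ P ∧ (G.induce (P : Set V)).Connected ∧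
      (P.card - 1) * D ≤ 3 * R.card := by
  set H := G.induce (R : Set V) with hH
  have hcard : Fintype.card (R : Set V) = R.card := by
    rw [← Set.toFinset_card]
    congr 1
    ext w
    simp
  have hDH : ∀ v : (R : Set V), D ≤ (univ.filter (fun w => H.Adj v w)).card := by
    intro v
    refine (hD v.1 v.2).trans ?_
    unfold dg
    refine Finset.card_le_card_of_surjOn (fun w => w.1) ?_
    intro w hw
    obtain ⟨h1, h2⟩ := Finset.mem_filter.1 (Finset.mem_coe.1 hw)
    exact ⟨⟨w, h1⟩, Finset.mem_coe.2 (Finset.mem_filter.2 ⟨Finset.mem_univ _, h2⟩), rfl⟩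
  have hb := dist_bound H hc D hDH ⟨x, hx⟩ ⟨y, hy⟩
  rw [hcard] at hb
  obtain ⟨p, hp⟩ := hc.exists_walk_length_eq_dist ⟨x, hx⟩ ⟨y, hy⟩
  let q : G.Walk x y := p.map (SimpleGraph.Embedding.induce (R : Set V)).toHom
  refine ⟨q.support.toFinset, ?_, ?_, ?_, ?_, ?_⟩
  · intro w hw
    have hw' : w ∈ (p.map (SimpleGraph.Embedding.induce (R : Set V)).toHom).support :=
      List.mem_toFinset.1 hw
    rw [SimpleGraph.Walk.support_map] at hw'
    obtain ⟨w', _, rfl⟩ := List.mem_map.1 hw'
    exact w'.2
  · exact List.mem_toFinset.2 q.start_mem_support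
  · exact List.mem_toFinset.2 q.end_mem_support
  · have : ((q.support.toFinset : Finset V) : Set V) = {v | v ∈ q.support} := by
      ext w
      simp
    rw [this]
    exact q.connected_induce_support
  · have h1 : q.support.toFinset.card ≤ q.length + 1 := by
      refine (List.toFinset_card_le _).trans ?_
      rw [SimpleGraph.Walk.length_support]
    have h2 : q.length = H.dist ⟨x, hx⟩ ⟨y, hy⟩ := by
      rw [← hp]
      exact SimpleGraph.Walk.length_map _ _
    calc (q.support.toFinset.card - 1) * D ≤ H.dist ⟨x, hx⟩ ⟨y, hy⟩ * D := by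
          apply Nat.mul_le_mul_right
          omega
      _ ≤ 3 * R.card := hb

open Classical in
/-- splitting a part which is not robust -/
theorem split {V : Type} [Fintype V] (G : SimpleGraph V) (U : Finset V) (K : ℕ)
    (hK : K < U.card) (h : ¬ Robust G U K) :
    ∃ A ⊆ U, A.Nonempty ∧ 2 * A.card ≤ U.card ∧ ∀ v ∈ A, dg G U v ≤ dg G A v + K := by
  unfold Robust at h
  push Not at h
  obtain ⟨W, hWU, hWc, hW⟩ := h
  set R := U \ W with hR
  have hRne : R.Nonempty := by
    rw [← Finset.card_pos, hR, Finset.card_sdiff_of_subset hWU]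
    omega
  have hne : Nonempty ((R : Finset V) : Set V) := by
    obtain ⟨r, hr⟩ := hRne
    exact ⟨⟨r, hr⟩⟩
  have hpre : ¬ (G.induce ((R : Finset V) : Set V)).Preconnected := fun hp =>
    hW ((SimpleGraph.connected_iff _).2 ⟨hp, hne⟩)
  unfold SimpleGraph.Preconnected at hpre
  push Not at hpre
  obtain ⟨x, y, hxy⟩ := hpre
  set H := G.induce ((R : Finset V) : Set V) with hH
  have comp : ∀ x : ((R : Finset V) : Set V), ∃ A : Finset V, A ⊆ R ∧ x.1 ∈ A ∧
      (∀ z ∈ A, ∃ hz : z ∈ R, H.Reachable x ⟨z, hz⟩) ∧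
      ∀ v ∈ A, dg G U v ≤ dg G A v + K := by
    intro x
    refine ⟨R.filter (fun z => ∃ hz : z ∈ R, H.Reachable x ⟨z, hz⟩), Finset.filter_subset _ _,
      Finset.mem_filter.2 ⟨x.2, x.2, SimpleGraph.Reachable.refl _⟩, ?_, ?_⟩
    · intro z hz
      exact (Finset.mem_filter.1 hz).2
    · intro v hv
      obtain ⟨hvR, hvR', hreach⟩ := Finset.mem_filter.1 hv
      unfold dg
      refine le_trans ?_ (Nat.add_le_add_left hWc _)
      refine le_trans (Finset.card_le_card (t := (Finset.filter (fun w => G.Adj v w)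
        (R.filter (fun z => ∃ hz : z ∈ R, H.Reachable x ⟨z, hz⟩))) ∪ W) ?_)
        (Finset.card_union_le _ _)
      intro w hw
      obtain ⟨hwU, hvw⟩ := Finset.mem_filter.1 hw
      rw [Finset.mem_union]
      by_cases hwW : w ∈ W
      · exact Or.inr hwW
      · left
        have hwR : w ∈ R := Finset.mem_sdiff.2 ⟨hwU, hwW⟩
        refine Finset.mem_filter.2 ⟨Finset.mem_filter.2 ⟨hwR, hwR, ?_⟩, hvw⟩
        have hadj : H.Adj ⟨v, hvR'⟩ ⟨w, hwR⟩ := hvw
        exact hreach.trans hadj.reachable
  obtain ⟨A, hAR, hxA, hA1, hA2⟩ := comp x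
  obtain ⟨B, hBR, hyB, hB1, hB2⟩ := comp y
  have hdisj : Disjoint A B := by
    rw [Finset.disjoint_left]
    intro z hzA hzB
    obtain ⟨hz, h1⟩ := hA1 z hzA
    obtain ⟨hz', h2⟩ := hB1 z hzB
    exact hxy (h1.trans h2.symm)
  have hsum : A.card + B.card ≤ U.card := by
    rw [← Finset.card_union_of_disjoint hdisj]
    exact Finset.card_le_card (Finset.union_subset (hAR.trans Finset.sdiff_subset)
      (hBR.trans Finset.sdiff_subset))
  rcases le_total A.card B.card with h | h
  · exact ⟨A, hAR.trans Finset.sdiff_subset, ⟨x.1, hxA⟩, by omega, hA2⟩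
  · exact ⟨B, hBR.trans Finset.sdiff_subset, ⟨y.1, hyB⟩, by omega, hB2⟩

theorem dg_lt {V : Type} (G : SimpleGraph V) (U : Finset V) (v : V) (hv : v ∈ U) :
    dg G U v < U.card := by
  classical
  unfold dg
  apply Finset.card_lt_card
  rw [Finset.filter_ssubset]
  exact ⟨v, hv, G.loopless.irrefl v⟩

open Classical in
/-- Every graph of minimum degree at least `d` has a robust part. -/
theorem exists_robust {V : Type} [Fintype V] [Nonempty V] (G : SimpleGraph V) (d K J : ℕ)
    (hd : ∀ v, d ≤ dg G univ v) (hJ : Fintype.card V < 2 ^ J * (d - J * K)) :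
    ∃ U : Finset V, U.Nonempty ∧ Robust G U K ∧ ∀ v ∈ U, d ≤ dg G U v + J * K := by
  by_contra hcon
  push Not at hcon
  have hpos : 0 < d - J * K := by
    rcases Nat.eq_zero_or_pos (d - J * K) with h | h
    · rw [h] at hJ
      omega
    · exact h
  have key : ∀ j ≤ J, ∃ U : Finset V, U.Nonempty ∧ 2 ^ j * U.card ≤ Fintype.card V ∧
      ∀ v ∈ U, d ≤ dg G U v + j * K := by
    intro j
    induction j with
    | zero =>
      intro _
      refine ⟨univ, Finset.univ_nonempty, ?_, ?_⟩
      · rw [pow_zero, one_mul, Finset.card_univ]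
      · intro v _
        rw [zero_mul, add_zero]
        exact hd v
    | succ j ih =>
      intro hj
      obtain ⟨U, hU, hUc, hUd⟩ := ih (by omega)
      have hjK : j * K + K ≤ J * K := by
        have : (j + 1) * K ≤ J * K := Nat.mul_le_mul_right _ hj
        linarith [this]
      have hnr : ¬ Robust G U K := by
        intro hr
        obtain ⟨v, hv, hv'⟩ := hcon U hU hr
        have := hUd v hv
        omega
      obtain ⟨u, hu⟩ := hU
      have hKU : K < U.card := by
        have h1 := hUd u hu
        have h2 := dg_lt G U u hu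
        omega
      obtain ⟨A, hAU, hA, hAc, hAd⟩ := split G U K hKU hnr
      refine ⟨A, hA, ?_, ?_⟩
      · calc 2 ^ (j + 1) * A.card = 2 ^ j * (2 * A.card) := by ring
          _ ≤ 2 ^ j * U.card := Nat.mul_le_mul_left _ hAc
          _ ≤ _ := hUc
      · intro v hv
        have h1 := hAd v hv
        have h2 := hUd v (hAU hv)
        have h3 : (j + 1) * K = j * K + K := by ring
        omega
  obtain ⟨U, hU, hUc, hUd⟩ := key J le_rfl
  obtain ⟨u, hu⟩ := hU
  have h1 := hUd u hu
  have h2 := dg_lt G U u hu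
  have h3 : d - J * K ≤ U.card := by omega
  have h4 : 2 ^ J * (d - J * K) ≤ 2 ^ J * U.card := Nat.mul_le_mul_left _ h3
  omega

end Pool.Agent.Q112.KT
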