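import Mathlib

/-!
# The absolute bound for strongly regular graphs
-/

set_option autoImplicit false

namespace Pool.Agent.Q112.KT

open Finset

/-- the all-ones matrix -/
def allOnes (V : Type) : Matrix V V ℝ := Matrix.of fun _ _ => 1

theorem allOnes_apply {V : Type} (x y : V) : allOnes V x y = 1 := rfl

theorem allOnes_mul {V : Type} [Fintype V] :
    allOnes V * allOnes V = (Fintype.card V : ℝ) • allOnes V := by
  ext x y
  rw [Matrix.mul_apply, Matrix.smul_apply]
  simp [allOnes_apply]

/-- A family of vectors spanning all functions, built from an idempotent matrix with two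
off-diagonal values. -/
theorem two_values {V : Type} [Fintype V] [DecidableEq V] (E : Matrix V V ℝ)
    (hE : E * E = E) (a b m : ℝ) (hm : m ≠ 0)
    (hoff : ∀ x y, x ≠ y → (E y x - a) * (E y x - b) = 0)
    (hon : ∀ x, (E x x - a) * (E x x - b) = m) :
    ∃ f : ℕ, (f : ℝ) = E.trace ∧ Fintype.card V ≤ f * f + (f + 1) := by
  set T := Matrix.toLin' E with hT
  have hidem : IsIdempotentElem T := by
    show T * T = T
    have h := Matrix.toLin'_mul E E
    rw [hE] at h
    exact h.symm
  set f := Module.finrank ℝ (LinearMap.range T) with hf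
  refine ⟨f, ?_, ?_⟩
  · rw [← Matrix.trace_toLin'_eq E, hf]
    exact (LinearMap.IsProj.trace ((LinearMap.isProj_range_iff_isIdempotentElem T).2 hidem)).symm
  · set B := Module.finBasis ℝ (LinearMap.range T) with hB
    set g : Fin f → (V → ℝ) := fun i => (B i : V → ℝ) with hg
    set h : (Fin f × Fin f) ⊕ (Fin f ⊕ Unit) → (V → ℝ) :=
      Sum.elim (fun p => g p.1 * g p.2) (Sum.elim g (fun _ => 1)) with hh
    have hcol : ∀ x, ∃ c : Fin f → ℝ, (fun y => E y x) = ∑ i, c i • g i := by
      intro x
      have hmem : (fun y => E y x) ∈ LinearMap.range T := by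
        refine ⟨Pi.single x 1, ?_⟩
        rw [hT, Matrix.toLin'_apply]
        ext y
        simp
      set v : LinearMap.range T := ⟨fun y => E y x, hmem⟩ with hv
      refine ⟨fun i => B.repr v i, ?_⟩
      have h1 := B.sum_repr v
      have h2 := congrArg (fun w : LinearMap.range T => (w : V → ℝ)) h1
      simp only [Submodule.coe_sum, Submodule.coe_smul] at h2
      exact h2.symm
    have hspan : ∀ x, Pi.single x (1 : ℝ) ∈ Submodule.span ℝ (Set.range h) := by
      intro x
      obtain ⟨c, hc⟩ := hcol x
      set e : V → ℝ := fun y => E y x with he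
      have he1 : e ∈ Submodule.span ℝ (Set.range h) := by
        rw [hc]
        apply Submodule.sum_mem
        intro i _
        apply Submodule.smul_mem
        apply Submodule.subset_span
        exact ⟨Sum.inr (Sum.inl i), rfl⟩
      have he2 : e * e ∈ Submodule.span ℝ (Set.range h) := by
        rw [hc, Finset.sum_mul_sum]
        apply Submodule.sum_mem
        intro i _
        apply Submodule.sum_mem
        intro j _
        rw [smul_mul_smul_comm]
        apply Submodule.smul_mem
        apply Submodule.subset_span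
        exact ⟨Sum.inl (i, j), rfl⟩
      have he3 : (1 : V → ℝ) ∈ Submodule.span ℝ (Set.range h) :=
        Submodule.subset_span ⟨Sum.inr (Sum.inr ()), rfl⟩
      have hid : Pi.single x (1 : ℝ) =
          m⁻¹ • (e * e - (a + b) • e + (a * b) • (1 : V → ℝ)) := by
        ext y
        simp only [Pi.smul_apply, Pi.add_apply, Pi.sub_apply, Pi.mul_apply, Pi.one_apply,
          smul_eq_mul]
        by_cases hxy : y = x
        · subst hxy
          rw [Pi.single_eq_same]
          have h1 := hon y
          have h2 : e y * e y - (a + b) * e y + a * b * 1 = m := by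
            rw [← h1, he]
            ring
          rw [h2, inv_mul_cancel₀ hm]
        · rw [Pi.single_eq_of_ne hxy]
          have h1 := hoff x y (Ne.symm hxy)
          have h2 : e y * e y - (a + b) * e y + a * b * 1 = 0 := by
            rw [← h1, he]
            ring
          rw [h2, mul_zero]
      rw [hid]
      apply Submodule.smul_mem
      exact Submodule.add_mem _ (Submodule.sub_mem _ he2 (Submodule.smul_mem _ _ he1))
        (Submodule.smul_mem _ _ he3)
    have htop : Submodule.span ℝ (Set.range h) = ⊤ := by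
      rw [eq_top_iff, ← (Pi.basisFun ℝ V).span_eq, Submodule.span_le]
      rintro _ ⟨x, rfl⟩
      rw [Pi.basisFun_apply]
      exact hspan x
    have h1 := finrank_range_le_card (R := ℝ) h
    unfold Set.finrank at h1
    rw [htop, finrank_top, Module.finrank_pi] at h1
    simpa using h1

/-- The absolute bound. -/
theorem abs_bound {V : Type} [Fintype V] [DecidableEq V] [Nonempty V] (A : Matrix V V ℝ)
    (h01 : ∀ x y, x ≠ y → A x y = 0 ∨ A x y = 1) (hdiag : ∀ x, A x x = 0)
    (ρ σ μ k : ℝ)
    (hA2 : A * A = (-(ρ * σ)) • (1 : Matrix V V ℝ) + (ρ + σ) • A + μ • allOnes V)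
    (hAJ : A * allOnes V = k • allOnes V) (hJA : allOnes V * A = k • allOnes V)
    (hn : (k - ρ) * (k - σ) = μ * Fintype.card V) (hne : ρ ≠ σ) (hσ0 : σ ≠ 0) (hσ1 : σ ≠ -1) :
    ∃ f : ℕ, (f : ℝ) * (ρ - σ) = -(Fintype.card V * σ) - (k - σ) ∧
      Fintype.card V ≤ f * f + (f + 1) := by
  set n : ℝ := (Fintype.card V : ℝ) with hnd
  have hn0 : 0 < n := by
    rw [hnd]
    exact_mod_cast Fintype.card_pos
  set c : ℝ := (k - σ) / n with hc
  have hcn : c * n = k - σ := by
    rw [hc]
    field_simp
  set r : ℝ := (ρ - σ)⁻¹ with hr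
  have hρσ : ρ - σ ≠ 0 := sub_ne_zero.2 hne
  have hr1 : r * (ρ - σ) = 1 := inv_mul_cancel₀ hρσ
  set E : Matrix V V ℝ := r • (A - σ • (1 : Matrix V V ℝ) - c • allOnes V) with hE
  have hcμ : c * (k - ρ) = μ := by
    have h1 : c * (k - ρ) * n = μ * n := by
      calc c * (k - ρ) * n = (c * n) * (k - ρ) := by ring
        _ = (k - ρ) * (k - σ) := by rw [hcn]; ring
        _ = μ * n := hn
    exact mul_right_cancel₀ hn0.ne' h1
  have hEE : E * E = E := by
    have h1 : (A - σ • (1 : Matrix V V ℝ) - c • allOnes V) *
        (A - σ • (1 : Matrix V V ℝ) - c • allOnes V) =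
        (ρ - σ) • (A - σ • (1 : Matrix V V ℝ) - c • allOnes V) := by
      simp only [sub_mul, mul_sub, smul_mul_assoc, mul_smul_comm, one_mul, mul_one, hAJ, hJA,
        allOnes_mul, hA2]
      ext x y
      simp only [Matrix.sub_apply, Matrix.add_apply, Matrix.smul_apply, smul_eq_mul,
        allOnes_apply, Matrix.one_apply]
      rw [← hnd]
      have h2 : c * (c * n) = c * (k - σ) := by rw [hcn]
      by_cases hxy : x = y
      · simp only [hxy, if_true]
        linear_combination h2 + (-1 : ℝ) * hcμ
      · simp only [hxy, if_false]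
        linear_combination h2 + (-1 : ℝ) * hcμ
    rw [hE, smul_mul_smul_comm, h1, smul_smul]
    congr 1
    rw [mul_assoc, hr1, mul_one]
  obtain ⟨f, hf1, hf2⟩ := two_values E hEE (r * (1 - c)) (r * (-c)) (r ^ 2 * (σ * (σ + 1)))
    (by
      have h1 : r ≠ 0 := inv_ne_zero hρσ
      have h2 : σ + 1 ≠ 0 := fun h => hσ1 (by linarith)
      positivity)
    (by
      intro x y hxy
      have h1 : E y x = r * (A y x - c) := by
        rw [hE]
        simp only [Matrix.smul_apply, Matrix.sub_apply, smul_eq_mul, allOnes_apply,
          Matrix.one_apply_ne (Ne.symm hxy)]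
        ring
      rw [h1]
      rcases h01 y x (Ne.symm hxy) with h | h
      · rw [h]
        ring
      · rw [h]
        ring)
    (by
      intro x
      have h1 : E x x = r * (-σ - c) := by
        rw [hE]
        simp only [Matrix.smul_apply, Matrix.sub_apply, smul_eq_mul, allOnes_apply,
          Matrix.one_apply_eq, hdiag]
        ring
      rw [h1]
      ring)
  refine ⟨f, ?_, hf2⟩
  have htr : E.trace = r * (-(n * σ) - c * n) := by
    rw [hE, Matrix.trace_smul, Matrix.trace_sub, Matrix.trace_sub, Matrix.trace_smul,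
      Matrix.trace_one, Matrix.trace_smul]
    have h1 : A.trace = 0 := by
      unfold Matrix.trace
      apply Finset.sum_eq_zero
      intro x _
      exact hdiag x
    have h2 : (allOnes V).trace = n := by
      unfold Matrix.trace
      simp [Matrix.diag, allOnes_apply, hnd]
    rw [h1, h2]
    simp only [smul_eq_mul]
    ring
  rw [hf1, htr, hcn]
  calc r * (-(n * σ) - (k - σ)) * (ρ - σ) = (r * (ρ - σ)) * (-(n * σ) - (k - σ)) := by ring
    _ = -(n * σ) - (k - σ) := by rw [hr1, one_mul]

end Pool.Agent.Q112.KT
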