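import Pool.Agent.Q112.KT.Frac

/-!
# Vertex-transitive graphs and their complements
-/

set_option autoImplicit false

namespace Pool.Agent.Q112.KT

open Finset

/-- Ramsey's theorem -/
theorem ramsey {V : Type} (G : SimpleGraph V) (s : ℕ) : ∀ (t : ℕ) (U : Finset V),
    2 ^ (s + t) ≤ U.card →
    (∃ T ⊆ U, T.card = s ∧ ∀ x ∈ T, ∀ y ∈ T, x ≠ y → G.Adj x y) ∨
    (∃ T ⊆ U, T.card = t ∧ ∀ x ∈ T, ∀ y ∈ T, ¬ G.Adj x y) := by
  classical
  induction s with
  | zero =>
    intro t U _
    exact Or.inl ⟨∅, Finset.empty_subset _, rfl, by simp⟩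
  | succ s ihs =>
    intro t
    induction t with
    | zero =>
      intro U _
      exact Or.inr ⟨∅, Finset.empty_subset _, rfl, by simp⟩
    | succ t iht =>
      intro U hU
      have hpos : 0 < 2 ^ (s + 1 + (t + 1)) := by positivity
      obtain ⟨v, hv⟩ : U.Nonempty := Finset.card_pos.1 (by omega)
      set N := (U.erase v).filter (fun w => G.Adj v w) with hN
      set M := (U.erase v).filter (fun w => ¬ G.Adj v w) with hM
      have hNM : N.card + M.card = U.card - 1 := by
        rw [hN, hM, Finset.card_filter_add_card_filter_not, Finset.card_erase_of_mem hv]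
      have hNU : N ⊆ U := (Finset.filter_subset _ _).trans (Finset.erase_subset _ _)
      have hMU : M ⊆ U := (Finset.filter_subset _ _).trans (Finset.erase_subset _ _)
      have e : 2 ^ (s + 1 + (t + 1)) = 2 ^ (s + (t + 1)) + 2 ^ (s + 1 + t) := by ring
      have hcase : 2 ^ (s + (t + 1)) ≤ N.card ∨ 2 ^ (s + 1 + t) ≤ M.card := by
        by_contra hno
        push Not at hno
        omega
      rcases hcase with h | h
      · rcases ihs (t + 1) N h with ⟨T, hT1, hT2, hT3⟩ | ⟨T, hT1, hT2, hT3⟩
        · left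
          have hvT : v ∉ T := fun h' => by
            have := hT1 h'
            rw [hN, mem_filter, mem_erase] at this
            exact this.1.1 rfl
          refine ⟨insert v T, ?_, ?_, ?_⟩
          · intro x hx
            rw [mem_insert] at hx
            rcases hx with rfl | hx
            · exact hv
            · exact hNU (hT1 hx)
          · rw [Finset.card_insert_of_notMem hvT, hT2]
          · have key : ∀ x ∈ T, G.Adj v x := fun x hx => (mem_filter.1 (hT1 hx)).2
            intro x hx y hy hxy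
            rw [mem_insert] at hx hy
            rcases hx with rfl | hx
            · rcases hy with rfl | hy
              · exact absurd rfl hxy
              · exact key y hy
            · rcases hy with rfl | hy
              · exact (key x hx).symm
              · exact hT3 x hx y hy hxy
        · exact Or.inr ⟨T, hT1.trans hNU, hT2, hT3⟩
      · rcases iht M h with ⟨T, hT1, hT2, hT3⟩ | ⟨T, hT1, hT2, hT3⟩
        · exact Or.inl ⟨T, hT1.trans hMU, hT2, hT3⟩
        · right
          have hvT : v ∉ T := fun h' => by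
            have := hT1 h'
            rw [hM, mem_filter, mem_erase] at this
            exact this.1.1 rfl
          refine ⟨insert v T, ?_, ?_, ?_⟩
          · intro x hx
            rw [mem_insert] at hx
            rcases hx with rfl | hx
            · exact hv
            · exact hMU (hT1 hx)
          · rw [Finset.card_insert_of_notMem hvT, hT2]
          · have key : ∀ x ∈ T, ¬ G.Adj v x := fun x hx => (mem_filter.1 (hT1 hx)).2
            intro x hx y hy
            rw [mem_insert] at hx hy
            rcases hx with rfl | hx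
            · rcases hy with rfl | hy
              · exact G.loopless.irrefl _
              · exact key y hy
            · rcases hy with rfl | hy
              · exact fun h' => key x hx h'.symm
              · exact hT3 x hx y hy

/-- logarithmic independence number suffices for dense vertex-transitive graphs -/
theorem vt_log (δ : ℝ) (hδ : 0 < δ) (K : ℕ) : ∃ n0 : ℕ,
    ∀ (V : Type) [Fintype V] (G : SimpleGraph V), n0 ≤ Fintype.card V →
    ∀ D : ℕ, 1 ≤ D → (D : ℝ) ≤ (1 - δ) * (Fintype.card V : ℝ) →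
    (∀ v, Fintype.card V ≤ dg G univ v + D) →
    (∀ x y : V, ∃ φ : G ≃g G, φ x = y) →
    ∀ I : Finset V, (∀ x ∈ I, ∀ y ∈ I, ¬ G.Adj x y) → I.card = Nat.log 4 (Fintype.card V) →
    ∀ k : ℕ, ¬ G.Colorable k → HasMinor G (K * (k + 1)) := by
  obtain ⟨C, hC, n1, hmain⟩ := frac_main δ hδ K
  set η : ℝ := 1 / (C * Real.sqrt (4 / δ)) with hη
  have hη0 : 0 < η := by
    have : 0 < Real.sqrt (4 / δ) := Real.sqrt_pos.2 (by positivity)
    positivity
  obtain ⟨kB, hB⟩ := evB (η / 2) (by positivity)
  set X : ℝ := (2 * |Real.log (4 / δ)| / η) ^ 2 with hX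
  set k0 : ℕ := kB + ⌈X⌉₊ + 1 with hk0
  refine ⟨max n1 (4 ^ k0), ?_⟩
  intro V _ G hn D hD1 hD2 hdeg htr I hI hIk k hk
  set n : ℕ := Fintype.card V with hnd
  have hn1 : n1 ≤ n := (le_max_left _ _).trans hn
  have hn2 : 4 ^ k0 ≤ n := (le_max_right _ _).trans hn
  have hn0 : n ≠ 0 := by
    have : 0 < 4 ^ k0 := by positivity
    omega
  set j : ℕ := Nat.log 4 n with hj
  have hk0j : k0 ≤ j := by
    rw [hj]
    exact (Nat.le_log_iff_pow_le (by norm_num) hn0).2 hn2
  have hj1 : 1 ≤ j := by omega
  have hjB := hB j (by omega)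
  have hjX : X ≤ j := (Nat.le_ceil X).trans (by exact_mod_cast (by omega : ⌈X⌉₊ ≤ j))
  have hlow : 4 ^ j ≤ n := Nat.pow_log_le_self 4 hn0
  have hupp : n < 4 ^ (j + 1) := Nat.lt_pow_succ_log_self (by norm_num) n
  have hj1R : (1 : ℝ) ≤ j := by exact_mod_cast hj1
  have hnR0 : (0 : ℝ) < n := by exact_mod_cast Nat.pos_of_ne_zero hn0
  have huppR : (n : ℝ) ≤ 4 ^ (j + 1) := by exact_mod_cast hupp.le
  have hlowR : (4 : ℝ) ^ j ≤ n := by exact_mod_cast hlow
  have hDR : (1 : ℝ) ≤ D := by exact_mod_cast hD1
  have hD0 : (0 : ℝ) < D := by linarith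
  have hl4 : Real.log 4 ≤ 2 := by
    have h1 : Real.log 4 = 2 * Real.log 2 := by
      rw [show (4 : ℝ) = 2 ^ 2 by norm_num, Real.log_pow]
      norm_num
    have h2 := Real.log_two_lt_d9
    linarith
  have hlogn : Real.log n ≤ 4 * j := by
    calc Real.log n ≤ Real.log (4 ^ (j + 1)) := Real.log_le_log hnR0 huppR
      _ = (j + 1) * Real.log 4 := by
          rw [Real.log_pow]
          push_cast
          ring
      _ ≤ (j + 1) * 2 := mul_le_mul_of_nonneg_left hl4 (by positivity)
      _ ≤ 4 * j := by linarith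
  have hlogn0 : 0 < Real.log n := by
    apply Real.log_pos
    have : (4 : ℝ) ≤ 4 ^ j := by
      calc (4 : ℝ) = 4 ^ 1 := by norm_num
        _ ≤ 4 ^ j := pow_le_pow_right₀ (by norm_num) hj1
    linarith
  have hlam : δ ≤ Real.log ((n : ℝ) / D) := by
    have h1 : Real.log ((D : ℝ) / n) ≤ (D : ℝ) / n - 1 :=
      Real.log_le_sub_one_of_pos (by positivity)
    have h2 : (D : ℝ) / n ≤ 1 - δ := by
      rw [div_le_iff₀ hnR0]
      exact hD2
    have h3 : Real.log ((n : ℝ) / D) = - Real.log ((D : ℝ) / n) := by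
      rw [← Real.log_inv, inv_div]
    rw [h3]
    linarith
  have hlam0 : 0 < Real.log ((n : ℝ) / D) := by linarith
  set L : ℝ := Real.log n / Real.log ((n : ℝ) / D) with hL
  have hL0 : 0 < L := by positivity
  have hLj : L ≤ 4 / δ * j := by
    calc L ≤ Real.log n / δ := div_le_div_of_nonneg_left hlogn0.le hδ hlam
      _ ≤ 4 * j / δ := div_le_div_of_nonneg_right hlogn hδ.le
      _ = 4 / δ * j := by ring
  have hj0 : (0 : ℝ) < j := by linarith
  have hsj0 : 0 < Real.sqrt j := Real.sqrt_pos.2 hj0
  have hsjj : Real.sqrt j * Real.sqrt j = j := Real.mul_self_sqrt hj0.le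
  have hIne : I.Nonempty := Finset.card_pos.1 (by omega)
  refine hmain V G hn1 D hD1 hD2 hdeg (I.card : ℝ) ?_ (cov_of_transitive G htr I hI hIne) k hk
  rw [hIk]
  have h1 : Real.sqrt L ≤ Real.sqrt (4 / δ) * Real.sqrt j := by
    rw [← Real.sqrt_mul (by positivity)]
    exact Real.sqrt_le_sqrt hLj
  have h2 : 1 + Real.log L ≤ η * Real.sqrt j := by
    have h3 : Real.log L ≤ Real.log (4 / δ) + Real.log j := by
      rw [← Real.log_mul (by positivity) (by positivity)]
      exact Real.log_le_log hL0 hLj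
    have h4 : Real.log (4 / δ) ≤ η / 2 * Real.sqrt j := by
      have h5 : 2 * |Real.log (4 / δ)| / η ≤ Real.sqrt j :=
        Real.le_sqrt_of_sq_le hjX
      rw [div_le_iff₀ hη0] at h5
      have h6 := le_abs_self (Real.log (4 / δ))
      linarith
    linarith
  have hsδ : 0 < Real.sqrt (4 / δ) := Real.sqrt_pos.2 (by positivity)
  calc C * Real.sqrt L * (1 + Real.log L)
      ≤ C * Real.sqrt L * (η * Real.sqrt j) :=
        mul_le_mul_of_nonneg_left h2 (by positivity)
    _ ≤ (C * (Real.sqrt (4 / δ) * Real.sqrt j)) * (η * Real.sqrt j) := by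
        apply mul_le_mul_of_nonneg_right _ (by positivity)
        exact mul_le_mul_of_nonneg_left h1 hC.le
    _ = (C * Real.sqrt (4 / δ) * η) * (Real.sqrt j * Real.sqrt j) := by ring
    _ = j := by
        rw [hsjj, hη]
        have : C * Real.sqrt (4 / δ) * (1 / (C * Real.sqrt (4 / δ))) = 1 := by
          field_simp
        rw [this, one_mul]

/-- the complement of a vertex-transitive graph -/
theorem compl_trans {V : Type} (G : SimpleGraph V) (htr : ∀ x y : V, ∃ φ : G ≃g G, φ x = y) :
    ∀ x y : V, ∃ φ : Gᶜ ≃g Gᶜ, φ x = y := by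
  intro x y
  obtain ⟨φ, hφ⟩ := htr x y
  refine ⟨⟨φ.toEquiv, ?_⟩, hφ⟩
  intro a b
  rw [SimpleGraph.compl_adj, SimpleGraph.compl_adj]
  have h1 : (φ.toEquiv a ≠ φ.toEquiv b) ↔ a ≠ b := φ.toEquiv.injective.ne_iff
  have h2 : G.Adj (φ.toEquiv a) (φ.toEquiv b) ↔ G.Adj a b := φ.map_adj_iff
  rw [h1, h2]

end Pool.Agent.Q112.KT
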